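import Mathlib
import Pool.Agent.H451.BB.Def
import Pool.Agent.H451.BB.Def3

/-!
# The curves `y² + D y = x³` over Kummer extensions `F = K(∛β_1, …, ∛β_r)` of `K = ℚ(√-3)`

Definitions: the Kummer extensions, the `L`-function of the curve over `F` and its twists by the
representations of the Galois group of `F / K`, by numbers of points.
-/

set_option autoImplicit false

namespace Pool.Agent.H451.KF

open NumberField IsDedekindDomain
open Pool.Agent.H451.CubT (E Cls Fac share)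
open scoped Classical

/-- The number `a_v = N v - #{(x, y) ∈ k_v² : y² + D y = x³}`: the trace of the Frobenius at `v` of the
curve `y² + D y = x³`. -/
noncomputable def tr {F : Type} [Field F] [NumberField F] (D : 𝓞 F) (v : HeightOneSpectrum (𝓞 F)) :
    ℤ :=
  (Ideal.absNorm v.asIdeal : ℤ) - Nat.card {p : (𝓞 F ⧸ v.asIdeal) × (𝓞 F ⧸ v.asIdeal) //
    p.2 ^ 2 + Ideal.Quotient.mk v.asIdeal D * p.2 = p.1 ^ 3}

/-- The Euler factor `1 - a_v N v ^ (-s) + N v ^ (1 - 2 s)`. -/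
noncomputable def factor {F : Type} [Field F] [NumberField F] (D : 𝓞 F)
    (v : HeightOneSpectrum (𝓞 F)) (s : ℂ) : ℂ :=
  1 - (tr D v : ℂ) * (Ideal.absNorm v.asIdeal : ℂ) ^ (-s) +
    (Ideal.absNorm v.asIdeal : ℂ) ^ (1 - 2 * s)

section defs
variable {K : Type} [Field K] [NumberField K] {r : ℕ}

/-- `F` is generated over `K` by cube roots of the `β i`. -/
def IsKummer (β : Fin r → 𝓞 K) (F : Type) [Field F] [Algebra K F] : Prop :=
  ∃ θ : Fin r → F, (∀ i, θ i ^ 3 = algebraMap K F (β i)) ∧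
    IntermediateField.adjoin K (Set.range θ) = ⊤

/-- The primes of `K` that divide neither `3` nor `D` nor any `β i`. -/
def GoodK (D : 𝓞 K) (β : Fin r → 𝓞 K) (v : HeightOneSpectrum (𝓞 K)) : Prop :=
  (3 : 𝓞 K) ∉ v.asIdeal ∧ D ∉ v.asIdeal ∧ ∀ i, β i ∉ v.asIdeal

/-- The primes of `F` that divide neither `3` nor `D` nor any `β i`. -/
def GoodF (D : 𝓞 K) (β : Fin r → 𝓞 K) (F : Type) [Field F] [NumberField F] [Algebra K F]
    (v : HeightOneSpectrum (𝓞 F)) : Prop :=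
  (3 : 𝓞 F) ∉ v.asIdeal ∧ algebraMap (𝓞 K) (𝓞 F) D ∉ v.asIdeal ∧
    ∀ i, algebraMap (𝓞 K) (𝓞 F) (β i) ∉ v.asIdeal

/-- `E_D(F)` is finite and the `L`-function of `E_D : y² + D y = x³` over `F` (without the Euler factors
at the primes dividing `3`, `D` or some `β i`) is entire and does not vanish at `s = 1`. -/
def RankZero (D : 𝓞 K) (β : Fin r → 𝓞 K) (F : Type) [Field F] [NumberField F] [Algebra K F] :
    Prop :=
  Finite (E (algebraMap K F D)).toAffine.Point ∧
  ∃ L : ℂ → ℂ, Differentiable ℂ L ∧ L 1 ≠ 0 ∧ ∀ s : ℂ, 3 / 2 < s.re →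
    HasProd (fun v : {v // GoodF D β F v} =>
      (factor (algebraMap (𝓞 K) (𝓞 F) D) v.1 s)⁻¹) (L s)

/-- `σ` is a Frobenius automorphism at the prime `v` of `K`: modulo some prime `P` of `F` above `v` it
is `x ↦ x ^ (N v)`. -/
def IsFrobenius (v : HeightOneSpectrum (𝓞 K)) (F : Type) [Field F] [NumberField F] [Algebra K F]
    (σ : F ≃ₐ[K] F) : Prop :=
  ∃ P : Ideal (𝓞 F), P.IsPrime ∧ P.comap (algebraMap (𝓞 K) (𝓞 F)) = v.asIdeal ∧
    ∀ x y : 𝓞 F, (y : F) = σ x → y - x ^ Ideal.absNorm v.asIdeal ∈ P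

/-- The Euler factor at `v` of the `L`-function of `E_D : y² + D y = x³` twisted by the representation
`τ` of the Galois group of `F / K`: the determinant of `1 - N v ^ (-s) Frob_v⁻¹` on `H¹(E_D) ⊗ τ`, that is
`det (1 - a_v N v ^ (-s) τ(σ⁻¹) + N v ^ (1 - 2 s) τ(σ⁻¹)²)`, where `σ` is a Frobenius automorphism. -/
noncomputable def twisted (D : 𝓞 K) (v : HeightOneSpectrum (𝓞 K)) {F : Type} [Field F]
    [Algebra K F] {V : Type} [AddCommGroup V] [Module ℂ V] (τ : Representation ℂ (F ≃ₐ[K] F) V)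
    (σ : F ≃ₐ[K] F) (s : ℂ) : ℂ :=
  LinearMap.det (1 - ((tr D v : ℂ) * (Ideal.absNorm v.asIdeal : ℂ) ^ (-s)) • τ σ⁻¹ +
    ((Ideal.absNorm v.asIdeal : ℂ) ^ (1 - 2 * s)) • (τ σ⁻¹ * τ σ⁻¹))

/-- `E_D(F)` is finite, there is a Frobenius automorphism at each prime of `K`, and for every finite
dimensional complex representation `τ` of the Galois group of `F / K` and every choice of the Frobenius
automorphisms, `L(E_D / K, τ, s)` (without the Euler factors at the primes dividing `3`, `D` or some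
`β i`) is entire and does not vanish at `s = 1`. -/
def EquivariantRankZero (D : 𝓞 K) (β : Fin r → 𝓞 K) (F : Type) [Field F] [NumberField F]
    [Algebra K F] : Prop :=
  Finite (E (algebraMap K F D)).toAffine.Point ∧
  (∀ v : HeightOneSpectrum (𝓞 K), ∃ σ, IsFrobenius v F σ) ∧
  ∀ (V : Type) [AddCommGroup V] [Module ℂ V] [FiniteDimensional ℂ V]
    (τ : Representation ℂ (F ≃ₐ[K] F) V) (σ : {v // GoodK D β v} → F ≃ₐ[K] F),
    (∀ v, IsFrobenius v.1 F (σ v)) →
    ∃ L : ℂ → ℂ, Differentiable ℂ L ∧ L 1 ≠ 0 ∧ ∀ s : ℂ, 3 / 2 < s.re →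
      HasProd (fun v : {v // GoodK D β v} => (twisted D v.1 τ (σ v) s)⁻¹) (L s)

/-- The admissible `(D, β_1, …, β_r)`: the norm of `D` is not `1` modulo `9`, the norms of all `β i` are
`1` modulo `9`. -/
def AdmK (a : Fin (r + 1) → 𝓞 K) : Prop :=
  ¬ (9 : ℤ) ∣ Algebra.norm ℤ (a 0) - 1 ∧ ∀ i : Fin r, (9 : ℤ) ∣ Algebra.norm ℤ (a i.succ) - 1

end defs

end Pool.Agent.H451.KF
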