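import Mathlib
import Pool.Agent.H451.KF.Def
import Pool.Agent.H451.BB.Main2

/-!
# The statements of the project KF

`K = ℚ(√-3)`, `F = K(∛β_1, …, ∛β_r)`, `E_D : y² + D y = x³`.
-/

set_option autoImplicit false
set_option linter.unusedVariables false

namespace Pool.Agent.H451.KF

open NumberField IsDedekindDomain
open Pool.Agent.H451.CubT (E)
open Pool.Agent.H451.BB
open Pool.Agent.Y703.CT
open Pool.Agent.Y696.CT
open Pool.Agent.Y696.CTK hiding toC_w
open Pool.Agent.Y692.QS hiding chi Jc Jc_nr chi_red chi_neg_one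
open Pool.Agent.Y715.T.Rec (cs nn)
open Pool.Agent.Y715.T.RecG (Pq)
open scoped Classical

/-- **KF-GAL** (Kummer theory).  `F / K` is generated by cube roots `θ i` of the `b i ≠ 0`, `K` contains the
third root of unity `I`.  Then `F / K` is finite Galois and its group embeds in `𝔽₃ʳ` by
`σ (θ i) = I ^ (c σ i) θ i`.
Proof.  `F` is generated by the integral elements `θ i`, so it is finite (`IntermediateField.adjoin` of a finite
set of integral elements); it is the splitting field of `∏ (X³ - b i)` (all roots `I^k θ i` are in `F`,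
they generate), characteristic zero, so Galois (`IsGalois.of_separable_splitting_field`, or `Normal` from
`Normal.of_isSplittingField` / `IntermediateField.normal_iff…`, char zero separable).  `σ(θ i)³ = b i = θ i ³`, so
`σ(θ i) = I^k θ i` for a unique `k` mod 3 (`θ i ≠ 0`; `I, I², 1` distinct as the characteristic is zero).
`c (σ τ) = c σ + c τ` since `σ I = I`; injective since the `θ i` generate `F`. -/
def S_GAL : Prop := ∀ (K F : Type) [Field K] [CharZero K] [Field F] [Algebra K F] (I : K),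
  I ^ 2 + I + 1 = 0 → ∀ (r : ℕ) (b : Fin r → K) (θ : Fin r → F), (∀ i, b i ≠ 0) →
  (∀ i, θ i ^ 3 = algebraMap K F (b i)) → IntermediateField.adjoin K (Set.range θ) = ⊤ →
  FiniteDimensional K F ∧ IsGalois K F ∧ ∃ c : (F ≃ₐ[K] F) → Fin r → ZMod 3,
    (∀ σ τ i, c (σ * τ) i = c σ i + c τ i) ∧ Function.Injective c ∧
    ∀ σ i, σ (θ i) = algebraMap K F (I ^ (c σ i).val) * θ i

/-- **KF-PTS** (the points over `F`).  If `E_{D b^l}(K)` is finite for all `l ∈ 𝔽₃ʳ`, `b^l = ∏ b i ^ (l i)`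
(`0 ≤ l i ≤ 2`), then `E_D(F)` is finite.
Proof (cf. the cubic case `Pool/Agent/H462/T1/B.lean`, theorem `rank_points`, with `d = 1`).  Let `A` be the
endomorphism `(x, y) ↦ (I x, y)` of `E_D(F)` (`1 + A + A² = 0`: the three points `(x, y), (I x, y), (I² x, y)` are
on the line `Y = y`; library `Pool.Agent.Y710.CTE.im`, `im_im`, `ker_im` treat the curve `Ed 1`, these proofs have
to be adapted from `Ed 1` to `Ed d`, or transported to `Ed 1` over a bigger field), `s_σ (x, y) = (σ x, σ y)`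
(`WeierstrassCurve.Affine.Point.map`), all commute.  For `l ∈ 𝔽₃ʳ` put
`e_l P = ∑_σ A^(-l·c(σ)) s_σ P`.  Then `s_τ e_l P = A^(l·c(τ)) e_l P` and `∑_l e_l P = 3ʳ P`, since for `σ ≠ 1`
the numbers `l·c(σ)` are equidistributed modulo 3 (`c σ ≠ 0`) and `1 + A + A² = 0`.  A point `Q = (x, y)` with
`s_τ Q = A^(l·c(τ)) Q` for all `τ` has `y ∈ K` and `x = x₀ θ^l` with `x₀ ∈ K` (`θ^l = ∏ θ i ^ (l i)`, `τ θ^l =
I^(l·c(τ)) θ^l`, the fixed field of the group is `K`), and `(b^l x₀, b^l y)` is a point of `E_{D b^l}(K)`: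
`(b^l y)² + D b^l (b^l y) = (b^l)² (y² + D y) = (b^l)² x³ = (b^l)² x₀³ b^l`.  So there are finitely many such `Q`
for each `l`, hence `3ʳ E_D(F)` is finite; and the kernel of `3ʳ` is finite: `(1 - A)² = -3 A` and the kernel of
`1 - A` is `{0, (0, 0), (0, -D)}` (a homomorphism with finite kernel and finite image has a finite source). -/
def S_PTS : Prop := ∀ (K F : Type) [Field K] [CharZero K] [Field F] [Algebra K F]
  [FiniteDimensional K F] [IsGalois K F] (I : K), I ^ 2 + I + 1 = 0 →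
  ∀ (r : ℕ) (b : Fin r → K) (θ : Fin r → F) (c : (F ≃ₐ[K] F) → Fin r → ZMod 3),
  (∀ i, b i ≠ 0) → (∀ i, θ i ^ 3 = algebraMap K F (b i)) →
  (∀ σ τ i, c (σ * τ) i = c σ i + c τ i) → Function.Injective c →
  (∀ σ i, σ (θ i) = algebraMap K F (I ^ (c σ i).val) * θ i) →
  ∀ D : K, D ≠ 0 → (∀ l : Fin r → ZMod 3, Finite (E (D * ∏ i, b i ^ (l i).val)).toAffine.Point) →
  Finite (E (algebraMap K F D)).toAffine.Point

/-- The `L`-series of the Hecke character of the parameter `d`, over the primes in `T`. -/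
def HL (d : Ei) (T : Set (HeightOneSpectrum Ei)) : Prop :=
  ∃ H : ℂ → ℂ, Differentiable ℂ H ∧ H 1 ≠ 0 ∧ ∀ s : ℂ, 3 / 2 < s.re →
    HasProd (fun P : {P : HeightOneSpectrum Ei // P ∈ T} => (1 - xc d P.1 * Np P.1 ^ (-s))⁻¹) (H s)

/-- **KF-HL**.  Proof: as `pl_e` in `BB/LF.lean` (without the conjugate factor: `h3` there, `fI_gg`), with `F`
from `Pool.Agent.Y696.CTE.val_ne hdt hk h9` as in `base_all` (`BB/Good.lean`); then remove the finitely many
factors outside `T` as in `rem` (`BB/Rem.lean`; `small`, `xc_norm`: the factors do not vanish for `Re s ≥ 1`). -/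
def S_HL : Prop := ∀ (n : ℕ) (π : Fin (n + 1) → Ei) (e : Fin (n + 1) → ZMod 3), Dt π e → Ker π e →
  ¬ (9 : ℤ) ∣ nr (pD π e) - 1 → ∀ T : Set (HeightOneSpectrum Ei), Tᶜ.Finite → HL (pD π e) T

/-- **KF-TR** (the trace of Frobenius at a prime of `K`).  `v = pK j P`.
Proof: `ec_zeros` (`BB/Ec.lean`) for `k = 𝓞 K ⧸ v`, `f = (Ideal.Quotient.mk v).comp j`, `r = 1`; `nm_P` (`BB/Main`),
`rho_nr`, `Np`; `Ideal.absNorm_apply`/`Submodule.cardQuot`, `Fintype` of the quotient. -/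
def S_TR : Prop := ∀ (K : Type) [Field K] [NumberField K] [IsCyclotomicExtension {3} ℚ K]
  (j : Ei ≃+* 𝓞 K) (d : Ei) (P : HeightOneSpectrum Ei), ¬ Over3 P → ¬ rho P ∣ d →
  (Ideal.absNorm (eK j P).asIdeal : ℂ) = Np P ∧
  (tr (j d) (eK j P) : ℂ) = xc d P + (starRingEnd ℂ) (xc d P)

/-- **KF-EXF** (existence of Frobenius automorphisms).  Mathlib: `AlgHom.IsArithFrobAt`,
`IsArithFrobAt.exists_of_isInvariant` or `MulSemiringAction` on `𝓞 F` (`IsIntegralClosure.MulSemiringAction`,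
`galRestrict`), `Ideal.Quotient.stabilizerHom_surjective`. -/
def S_EXF : Prop := ∀ (K F : Type) [Field K] [NumberField K] [Field F] [NumberField F]
  [Algebra K F] [IsGalois K F] (v : HeightOneSpectrum (𝓞 K)), ∃ σ, IsFrobenius v F σ

/-- **KF-FRB** (the Frobenius automorphism and the cubic residue symbols).
Proof.  Let `𝔓` be the prime of `F` in `IsFrobenius`, `q = N v = nr (rho P)`, `n = nn (rho P) = (q - 1) / 3`.  `θ i` is
integral, `θ ∈ 𝓞 F`, `σ θ i ≡ θ i ^ q = θ i (θ i ³)^n = θ i (b i)^n ≡ θ i w^(cs (rho P) (b i))` modulo `𝔓` by the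
definition of `cs` (`rho P ∣ b ^ nn - w ^ (cs ..).val`, see `Pool.Agent.Y715.T.RecG.cs_of` and its companion used in
`BB/Zeta.lean`, `chi_f`: existence for `¬ rho P ∣ b`), and `σ θ i = w^(c σ i) θ i`; `θ i ∉ 𝔓` since `b i ∉ v`; so
`w^(c σ i) ≡ w^(cs ..)` modulo `𝔓`, and `w^a - w^b` is for `a ≠ b` mod 3 a divisor of `3 ∉ 𝔓`. -/
def S_FRB : Prop := ∀ (K F : Type) [Field K] [NumberField K] [IsCyclotomicExtension {3} ℚ K]
  [Field F] [NumberField F] [Algebra K F] (j : Ei ≃+* 𝓞 K) (r : ℕ) (b : Fin r → Ei)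
  (θ : Fin r → F) (c : (F ≃ₐ[K] F) → Fin r → ZMod 3),
  (∀ i, θ i ^ 3 = algebraMap K F (j (b i) : K)) →
  (∀ σ i, σ (θ i) = algebraMap K F ((j w : K) ^ (c σ i).val) * θ i) →
  ∀ (P : HeightOneSpectrum Ei), ¬ Over3 P → (∀ i, ¬ rho P ∣ b i) →
  ∀ σ : F ≃ₐ[K] F, IsFrobenius (eK j P) F σ → ∀ i, c σ i = cs (rho P) (b i)

/-- **KF-REP** (representations of finite abelian groups).  Proof: the operators `τ g` commute and are of finite order,
hence diagonalisable simultaneously (Mathlib: `Module.End.iSup_iInf_…`, or induction on the dimension with Maschke's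
theorem: a common eigenvector spans a subrepresentation with an invariant complement; the determinant is
multiplicative).  In a basis of common eigenvectors `τ g` is diagonal with the entries `χ i g`. -/
def S_REP : Prop := ∀ (G : Type) [Group G] [Finite G], (∀ g h : G, g * h = h * g) →
  ∀ (V : Type) [AddCommGroup V] [Module ℂ V] [FiniteDimensional ℂ V] (τ : Representation ℂ G V),
  ∃ (n : ℕ) (χ : Fin n → G →* ℂˣ), ∀ (g : G) (x y : ℂ),
    LinearMap.det (1 - x • τ g + y • (τ g * τ g)) = ∏ i, (1 - x * χ i g + y * (χ i g) ^ 2)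

/-- **KF-CHR** (characters of a subgroup of `𝔽₃ʳ`).  Proof: `tw k = ζ ^ k`, `ζ = toC w` a primitive third root of unity.
`χ σ ^ 3 = χ (σ ^ 3) = 1` (`c (σ³) = 0`), so `χ σ = tw (f σ)` with `f : G → 𝔽₃`; `f` factors through the injective
`c` to a linear form on the subspace `c(G)` of `𝔽₃ʳ` (every additive subgroup is a subspace), which extends to
`𝔽₃ʳ` (`LinearMap.exists_extend`), so `f σ = ∑ l i c σ i`. -/
def S_CHR : Prop := ∀ (G : Type) [Group G] (r : ℕ) (c : G → Fin r → ZMod 3),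
  (∀ σ τ i, c (σ * τ) i = c σ i + c τ i) → Function.Injective c → ∀ χ : G →* ℂˣ,
  ∃ l : Fin r → ZMod 3, ∀ σ, (χ σ : ℂ) = tw (∑ i, l i * c σ i)

/-- **KF-LCH** (the `L`-function of `E_d` twisted by the character `b ↦ (b / ·)^l`, over the primes in `T`).
Proof.  Let `z = tw (-∑ l i cs ρ (b i))`, `α = xc d P = tw (-cs ρ d) toC ρ`.  `1 - (α + ᾱ) z X + z² X² N = (1 - α z X)(1 - ᾱ z X)`
(`xc_sq`: `α ᾱ = N`), `α z = xc (d b^l) P` and `ᾱ z = conj (xc (d b^(-l)) P)` (`cs_mul`, `cs_pow` from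
`Pool.Agent.Y715.T.RecG`, `tw_add`, `tw_sum`, `conj (tw k) = tw (-k)`; `xc` unfolds by `¬ rho P ∣ ..`).  So the function is
`H_l(s) · conj (H_(-l) (conj s))` as in `pl_e` (`diff_conj`, `conj_np`), with `H_l` from the hypothesis; it is
entire and not zero at 1. -/
def S_LCH : Prop := ∀ (r : ℕ) (d : Ei) (b : Fin r → Ei) (T : Set (HeightOneSpectrum Ei)),
  (∀ P ∈ T, ¬ Over3 P ∧ ¬ rho P ∣ d ∧ ∀ i, ¬ rho P ∣ b i) →
  (∀ l : Fin r → ZMod 3, HL (d * ∏ i, b i ^ (l i).val) T) → ∀ l : Fin r → ZMod 3,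
  ∃ L : ℂ → ℂ, Differentiable ℂ L ∧ L 1 ≠ 0 ∧ ∀ s : ℂ, 3 / 2 < s.re →
    HasProd (fun P : {P : HeightOneSpectrum Ei // P ∈ T} =>
      (1 - (xc d P.1 + (starRingEnd ℂ) (xc d P.1)) * Np P.1 ^ (-s) *
        tw (-∑ i, l i * cs (rho P.1) (b i)) +
        Np P.1 ^ (1 - 2 * s) * tw (-∑ i, l i * cs (rho P.1) (b i)) ^ 2)⁻¹) (L s)

/-- **KF-LOC** (the primes of `F` above a prime of `K`, local identity).  `F / K` is a Galois extension of number fields
with abelian group `G`, `v` a prime of `K` unramified in `F` in the sense that the inertia groups of the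
primes above `v` are trivial, `φ` a Frobenius automorphism at `v`, `q = N v`; `α, α'` complex numbers.  For each prime
`u` of `F` above `v`, with `N u = q ^ f`, let `A u = α ^ f + α' ^ f`.  Then with `X ∈ ℂ`
`∏_{u | v} (1 - (α^f + α'^f) X^f + (α α')^f X^(2 f)) = ∏_{χ} (1 - (α + α') X χ(φ⁻¹) + α α' X² χ(φ⁻¹)²)`.
Proof.  `G` acts transitively on the primes above `v` (Mathlib `Ideal.exists_smul_eq_of_…`/`IsInvariant`), the stabiliser
of `u` maps onto the Galois group of the residue field extension (`Ideal.Quotient.stabilizerHom_surjective`) with trivial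
kernel, so it is cyclic of order `f`, generated by `φ` (abelian: conjugate primes have the same stabiliser and Frobenius; `φ` is
a Frobenius at one prime, hence at all); so all `u` have the same `f = orderOf φ` and there are `g = |G| / f` of them.
`χ(φ⁻¹)` runs, for `χ` in the dual group, `g` times through all `f`-th roots of unity (the dual group has `|G|` elements
and `χ ↦ χ φ` is onto the `f`-th roots of unity: `CommGroup.exists_apply_ne_one_of_hasEnoughRootsOfUnity`,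
`CommGroup.card_monoidHom_of_hasEnoughRootsOfUnity`, or by the orthogonality relations), and
`∏_{z^f = 1} (1 - α X z) = 1 - α^f X^f`. -/
def S_LOC : Prop := ∀ (K F : Type) [Field K] [NumberField K] [Field F] [NumberField F]
  [Algebra K F] [IsGalois K F], (∀ σ τ : F ≃ₐ[K] F, σ * τ = τ * σ) →
  ∀ (v : HeightOneSpectrum (𝓞 K)),
  (∀ (u : Ideal (𝓞 F)), u.IsPrime → u.comap (algebraMap (𝓞 K) (𝓞 F)) = v.asIdeal →
    ∀ σ : F ≃ₐ[K] F, (∀ x y : 𝓞 F, (y : F) = σ x → y - x ∈ u) → σ = 1) →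
  ∀ φ : F ≃ₐ[K] F, IsFrobenius v F φ →
  {u : HeightOneSpectrum (𝓞 F) | u.asIdeal.comap (algebraMap (𝓞 K) (𝓞 F)) = v.asIdeal}.Finite ∧
  ∃ f : ℕ, 0 < f ∧
  (∀ u : HeightOneSpectrum (𝓞 F), u.asIdeal.comap (algebraMap (𝓞 K) (𝓞 F)) = v.asIdeal →
    Ideal.absNorm u.asIdeal = Ideal.absNorm v.asIdeal ^ f) ∧
  ∀ α α' X : ℂ,
    (1 - (α ^ f + α' ^ f) * X ^ f + (α * α') ^ f * (X ^ f) ^ 2) ^
      {u : HeightOneSpectrum (𝓞 F) |
        u.asIdeal.comap (algebraMap (𝓞 K) (𝓞 F)) = v.asIdeal}.ncard =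
    ∏ᶠ χ : (F ≃ₐ[K] F) →* ℂˣ, (1 - (α + α') * X * χ φ⁻¹ + α * α' * X ^ 2 * (χ φ⁻¹ : ℂ) ^ 2)

/-- **KF-TRF** (the trace of Frobenius at a prime of `F`).  `u` is a prime of `F` above `v = eK j P`, `N u = (N v) ^ f`.
Proof: `ec_zeros` (`BB/Ec.lean`) for `k = 𝓞 F ⧸ u`, `f : Ei → 𝓞 K → 𝓞 F → 𝓞 F ⧸ u`. -/
def S_TRF : Prop := ∀ (K F : Type) [Field K] [NumberField K] [IsCyclotomicExtension {3} ℚ K]
  [Field F] [NumberField F] [Algebra K F] (j : Ei ≃+* 𝓞 K) (d : Ei) (P : HeightOneSpectrum Ei),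
  ¬ Over3 P → ¬ rho P ∣ d → ∀ (u : HeightOneSpectrum (𝓞 F)) (f : ℕ),
  u.asIdeal.comap (algebraMap (𝓞 K) (𝓞 F)) = (eK j P).asIdeal →
  Ideal.absNorm u.asIdeal = Ideal.absNorm (eK j P).asIdeal ^ f →
  (tr (algebraMap (𝓞 K) (𝓞 F) (j d)) u : ℂ) = xc d P ^ f + (starRingEnd ℂ) (xc d P) ^ f

/-- **KF-UNR** (unramified).  `β i = j (b i)`; a prime `v = eK j P` with `¬ Over3 P`, `¬ rho P ∣ b i` has trivial inertia.
Proof: `σ θ i - θ i = (w^c - 1) θ i ∈ u` with `θ i ∉ u` (`θ i ³ = b i ∉ u`), and `w^c - 1` divides `3 ∉ u` unless `c = 0`;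
so `c σ = 0 = c 1`, `σ = 1`. -/
def S_UNR : Prop := ∀ (K F : Type) [Field K] [NumberField K] [IsCyclotomicExtension {3} ℚ K]
  [Field F] [NumberField F] [Algebra K F] (j : Ei ≃+* 𝓞 K) (r : ℕ) (b : Fin r → Ei)
  (θ : Fin r → F) (c : (F ≃ₐ[K] F) → Fin r → ZMod 3),
  (∀ i, θ i ^ 3 = algebraMap K F (j (b i) : K)) → (∀ σ τ i, c (σ * τ) i = c σ i + c τ i) →
  Function.Injective c →
  (∀ σ i, σ (θ i) = algebraMap K F ((j w : K) ^ (c σ i).val) * θ i) →
  ∀ (P : HeightOneSpectrum Ei), ¬ Over3 P → (∀ i, ¬ rho P ∣ b i) →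
  ∀ (u : Ideal (𝓞 F)), u.IsPrime → u.comap (algebraMap (𝓞 K) (𝓞 F)) = (eK j P).asIdeal →
    ∀ σ : F ≃ₐ[K] F, (∀ x y : 𝓞 F, (y : F) = σ x → y - x ∈ u) → σ = 1

/-- **KF-MUL** (absolute convergence over `F`).  For any number field `F` and complex numbers `x u` with
`|x u|² ≤ N u`, the product over any set of primes of `(1 - x N^(-s))⁻¹ (1 - conj x N^(-s))⁻¹` converges absolutely for
`Re s > 3/2`; stated for factors `1 - t u N^(-s) + N^(1 - 2 s)` with real `t u`, `|t u| ≤ 2 √(N u)`.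
Proof: `∑_u N u^(-t)`, `t > 1`, converges for every number field (Mathlib: Dedekind zeta function, or `[F : ℚ]` times
the sum over the rational primes; the library has it: see `Pool.Agent.Y696.LSeries_hasProd'` and what it uses);
`|factor - 1| ≤ 3 N^(1/2 - Re s)`, which is summable since `1/2 - Re s < -1`; then `Multipliable` of the inverses
(`Complex.multipliable_one_add_of_summable` etc., all factors are nonzero). -/
def S_MUL : Prop := ∀ (F : Type) [Field F] [NumberField F]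
  (T : Set (HeightOneSpectrum (𝓞 F))) (t : HeightOneSpectrum (𝓞 F) → ℝ),
  (∀ u ∈ T, t u ^ 2 ≤ 4 * (Ideal.absNorm u.asIdeal : ℝ)) → ∀ s : ℂ, 3 / 2 < s.re →
  Multipliable (fun u : {u : HeightOneSpectrum (𝓞 F) // u ∈ T} =>
    (1 - (t u.1 : ℂ) * (Ideal.absNorm u.1.asIdeal : ℂ) ^ (-s) +
      (Ideal.absNorm u.1.asIdeal : ℂ) ^ (1 - 2 * s))⁻¹)

end Pool.Agent.H451.KF
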