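import Mathlib
import Pool.Agent.H451.KF.Stm
import Pool.Agent.H451.BB.Main

/-!
# Assembly: the representations
-/

set_option autoImplicit false
set_option linter.unusedVariables false
set_option linter.unusedSectionVars false

namespace Pool.Agent.H451.KF

open NumberField IsDedekindDomain
open Pool.Agent.H451.CubT (E)
open Pool.Agent.H451.BB
open Pool.Agent.Y703.CT
open Pool.Agent.Y696.CT
open Pool.Agent.Y696.CTK hiding toC_w
open Pool.Agent.Y692.QS hiding chi Jc Jc_nr chi_red chi_neg_one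
open Pool.Agent.Y715.T.Rec (cs nn)
open Pool.Agent.Y715.T.RecG (Pq)
open scoped Classical

section good
variable {K : Type} [Field K] [NumberField K] [IsCyclotomicExtension {3} ℚ K] (j : Ei ≃+* 𝓞 K)

/-- the good primes of the Eisenstein integers -/
def TT {r : ℕ} (d : Ei) (b : Fin r → Ei) : Set (HeightOneSpectrum Ei) :=
  {P | ¬ Over3 P ∧ ¬ rho P ∣ d ∧ ∀ i, ¬ rho P ∣ b i}

lemma TT_cofin {r : ℕ} {d : Ei} {b : Fin r → Ei} (hd : d ≠ 0) (hb : ∀ i, b i ≠ 0) :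
    (TT d b)ᶜ.Finite := by
  refine (bad_fin (Fin.cons (α := fun _ => Ei) d b) (fun i => ?_)).subset fun P hP => ?_
  · refine Fin.cases ?_ (fun i => ?_) i
    · rw [Fin.cons_zero]; exact hd
    · rw [Fin.cons_succ]; exact hb i
  · intro hg
    apply hP
    refine ⟨hg.1, ?_, fun i => ?_⟩
    · have := hg.2 0
      rwa [Fin.cons_zero] at this
    · have := hg.2 i.succ
      rwa [Fin.cons_succ] at this

lemma mem_v (P : HeightOneSpectrum Ei) (x : Ei) : j x ∈ (eK j P).asIdeal ↔ x ∈ P.asIdeal :=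
  mem_pK j P x

lemma mem_rho {P : HeightOneSpectrum Ei} (h : ¬ Over3 P) (x : Ei) :
    j x ∈ (eK j P).asIdeal ↔ rho P ∣ x := by
  rw [mem_v, rho_span h, Ideal.mem_span_singleton]

lemma three_iff (P : HeightOneSpectrum Ei) : (3 : 𝓞 K) ∈ (eK j P).asIdeal ↔ Over3 P := by
  rw [← map_ofNat j 3, mem_v]
  constructor
  · intro h
    by_contra h4
    have hpq := rho_pq h4
    apply hpq.norm
    rw [rho_span h4, Ideal.mem_span_singleton] at h
    exact h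
  · exact three_mem

lemma good_iff {r : ℕ} (d : Ei) (b : Fin r → Ei) (P : HeightOneSpectrum Ei) :
    P ∈ TT d b ↔ GoodK (j d) (fun i => j (b i)) (eK j P) := by
  unfold GoodK
  rw [three_iff]
  constructor
  · rintro ⟨h1, h2, h3⟩
    exact ⟨h1, fun h => h2 ((mem_rho j h1 d).1 h), fun i h => h3 i ((mem_rho j h1 _).1 h)⟩
  · rintro ⟨h1, h2, h3⟩
    exact ⟨h1, fun h => h2 ((mem_rho j h1 d).2 h), fun i h => h3 i ((mem_rho j h1 _).2 h)⟩

/-- the good primes correspond -/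
noncomputable def eG {r : ℕ} (d : Ei) (b : Fin r → Ei) :
    {P // P ∈ TT d b} ≃ {v // GoodK (j d) (fun i => j (b i)) v} :=
  (eK j).subtypeEquiv fun P => good_iff j d b P

end good

section comm
variable {K F : Type} [Field K] [Field F] [Algebra K F] {r : ℕ}
  {c : (F ≃ₐ[K] F) → Fin r → ZMod 3}

lemma c_comm (hc : ∀ σ τ i, c (σ * τ) i = c σ i + c τ i) (hi : Function.Injective c)
    (σ τ : F ≃ₐ[K] F) : σ * τ = τ * σ := by
  apply hi
  funext i
  rw [hc, hc, add_comm]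

lemma c_one (hc : ∀ σ τ i, c (σ * τ) i = c σ i + c τ i) (i : Fin r) : c 1 i = 0 := by
  have h := hc 1 1 i
  rw [mul_one] at h
  simpa using h

lemma c_inv (hc : ∀ σ τ i, c (σ * τ) i = c σ i + c τ i) (σ : F ≃ₐ[K] F) (i : Fin r) :
    c σ⁻¹ i = -c σ i := by
  have h := hc σ σ⁻¹ i
  rw [mul_inv_cancel, c_one hc] at h
  linear_combination -h

end comm

section rep
variable {K : Type} [Field K] [NumberField K] [IsCyclotomicExtension {3} ℚ K] (j : Ei ≃+* 𝓞 K)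
  {F : Type} [Field F] [NumberField F] [Algebra K F] {r : ℕ} {d : Ei} {b : Fin r → Ei}
  {θ : Fin r → F} {c : (F ≃ₐ[K] F) → Fin r → ZMod 3}

/-- the factor of a character -/
noncomputable def cfac (d : Ei) (b : Fin r → Ei) (l : Fin r → ZMod 3) (P : HeightOneSpectrum Ei)
    (s : ℂ) : ℂ :=
  1 - (xc d P + (starRingEnd ℂ) (xc d P)) * Np P ^ (-s) *
        tw (-∑ i, l i * cs (rho P) (b i)) +
        Np P ^ (1 - 2 * s) * tw (-∑ i, l i * cs (rho P) (b i)) ^ 2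

/-- the value of the character at the inverse of Frobenius -/
lemma chi_inv (hFRB : S_FRB) (hθ : ∀ i, θ i ^ 3 = algebraMap K F (j (b i) : K))
    (hcm : ∀ σ τ i, c (σ * τ) i = c σ i + c τ i)
    (hcθ : ∀ σ i, σ (θ i) = algebraMap K F ((j w : K) ^ (c σ i).val) * θ i)
    {P : HeightOneSpectrum Ei} (hP : P ∈ TT d b) {σ : F ≃ₐ[K] F}
    (hσ : IsFrobenius (eK j P) F σ) {χ : (F ≃ₐ[K] F) →* ℂˣ} {l : Fin r → ZMod 3}
    (hl : ∀ σ, (χ σ : ℂ) = tw (∑ i, l i * c σ i)) :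
    (χ σ⁻¹ : ℂ) = tw (-∑ i, l i * cs (rho P) (b i)) := by
  rw [hl]
  congr 1
  rw [← Finset.sum_neg_distrib]
  refine Finset.sum_congr rfl fun i _ => ?_
  rw [c_inv hcm, hFRB K F j r b θ c hθ hcθ P hP.1 hP.2.2 σ hσ i]
  ring

theorem rep_main (hTR : S_TR) (hFRB : S_FRB) (hREP : S_REP) (hCHR : S_CHR)
    (hθ : ∀ i, θ i ^ 3 = algebraMap K F (j (b i) : K))
    (hcm : ∀ σ τ i, c (σ * τ) i = c σ i + c τ i) (hci : Function.Injective c)
    (hcθ : ∀ σ i, σ (θ i) = algebraMap K F ((j w : K) ^ (c σ i).val) * θ i)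
    (hL : ∀ l : Fin r → ZMod 3, ∃ L : ℂ → ℂ, Differentiable ℂ L ∧ L 1 ≠ 0 ∧ ∀ s : ℂ, 3 / 2 < s.re →
      HasProd (fun P : {P : HeightOneSpectrum Ei // P ∈ TT d b} => (cfac d b l P.1 s)⁻¹) (L s))
    [Finite (F ≃ₐ[K] F)]
    (V : Type) [AddCommGroup V] [Module ℂ V] [FiniteDimensional ℂ V]
    (τ : Representation ℂ (F ≃ₐ[K] F) V)
    (σ : {v // GoodK (j d) (fun i => j (b i)) v} → F ≃ₐ[K] F)
    (hσ : ∀ v, IsFrobenius v.1 F (σ v)) :
    ∃ L : ℂ → ℂ, Differentiable ℂ L ∧ L 1 ≠ 0 ∧ ∀ s : ℂ, 3 / 2 < s.re →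
      HasProd (fun v : {v // GoodK (j d) (fun i => j (b i)) v} =>
        (twisted (j d) v.1 τ (σ v) s)⁻¹) (L s) := by
  obtain ⟨n, χ, hχ⟩ := hREP (F ≃ₐ[K] F) (c_comm hcm hci) V τ
  have hl : ∀ i, ∃ l : Fin r → ZMod 3, ∀ σ, (χ i σ : ℂ) = tw (∑ x, l x * c σ x) := fun i =>
    hCHR (F ≃ₐ[K] F) r c hcm hci (χ i)
  choose l hl using hl
  choose L h1 h2 h3 using hL
  refine ⟨fun s => ∏ i, L (l i) s, Differentiable.fun_finsetProd fun i _ => h1 _,
    Finset.prod_ne_zero_iff.2 fun i _ => h2 _, fun s hs => ?_⟩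
  have h4 : HasProd (fun P : {P : HeightOneSpectrum Ei // P ∈ TT d b} =>
      ∏ i, (cfac d b (l i) P.1 s)⁻¹) (∏ i, L (l i) s) := hasProd_prod fun i _ => h3 (l i) s hs
  have h5 := (Equiv.hasProd_iff (eG j d b)
    (f := fun v : {v // GoodK (j d) (fun i => j (b i)) v} =>
      (twisted (j d) v.1 τ (σ v) s)⁻¹) (a := ∏ i, L (l i) s)).1
  apply h5
  refine h4.congr_fun fun P => ?_
  obtain ⟨P, hP⟩ := P
  have hv := hσ (eG j d b ⟨P, hP⟩)
  obtain ⟨φ, hφ⟩ : ∃ φ, φ = σ (eG j d b ⟨P, hP⟩) := ⟨_, rfl⟩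
  rw [← hφ] at hv
  have hv' : IsFrobenius (eK j P) F φ := hv
  obtain ⟨e1, e2⟩ := hTR K j d P hP.1 hP.2.1
  show (twisted (j d) (eK j P) τ (σ (eG j d b ⟨P, hP⟩)) s)⁻¹ = _
  rw [← hφ]
  unfold twisted
  rw [hχ, e1, e2, Finset.prod_inv_distrib]
  congr 1
  refine Finset.prod_congr rfl fun i _ => ?_
  rw [chi_inv j hFRB hθ hcm hcθ hP hv' (hl i)]
  rfl

end rep

end Pool.Agent.H451.KF
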