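import Mathlib
import Pool.Agent.H451.KF.Asm1

/-!
# Assembly: the `L`-function over `F`
-/

set_option autoImplicit false
set_option linter.unusedVariables false
set_option linter.unusedSectionVars false

namespace Pool.Agent.H451.KF

open NumberField IsDedekindDomain
open Pool.Agent.H451.CubT (E)
open Pool.Agent.H451.BB
open Pool.Agent.Y703.CT
open Pool.Agent.Y696.CT
open Pool.Agent.Y696.CTK hiding toC_w
open Pool.Agent.Y692.QS hiding chi Jc Jc_nr chi_red chi_neg_one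
open Pool.Agent.Y715.T.Rec (cs nn)
open Pool.Agent.Y715.T.RecG (Pq)
open scoped Classical

section below
variable {K : Type} [Field K] [NumberField K] {F : Type} [Field F] [NumberField F] [Algebra K F]

/-- the prime below -/
noncomputable def below (u : HeightOneSpectrum (𝓞 F)) : HeightOneSpectrum (𝓞 K) :=
  ⟨u.asIdeal.comap (algebraMap (𝓞 K) (𝓞 F)), u.isPrime.comap _, by
    obtain ⟨x, hx, hx0⟩ := Submodule.exists_mem_ne_zero_of_ne_bot u.ne_bot
    exact Ideal.comap_ne_bot_of_integral_mem hx0 hx (Algebra.IsIntegral.isIntegral x)⟩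

lemma mem_below (u : HeightOneSpectrum (𝓞 F)) (x : 𝓞 K) :
    x ∈ (below (K := K) u).asIdeal ↔ algebraMap (𝓞 K) (𝓞 F) x ∈ u.asIdeal := Iff.rfl

lemma goodF_iff {r : ℕ} (D : 𝓞 K) (β : Fin r → 𝓞 K) (u : HeightOneSpectrum (𝓞 F)) :
    GoodF D β F u ↔ GoodK D β (below u) := by
  unfold GoodF GoodK
  rw [mem_below, mem_below, map_ofNat]
  rfl

end below

section rz
variable {K : Type} [Field K] [NumberField K] [IsCyclotomicExtension {3} ℚ K] (j : Ei ≃+* 𝓞 K)
  {F : Type} [Field F] [NumberField F] [Algebra K F] {r : ℕ} {d : Ei} {b : Fin r → Ei}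
  {θ : Fin r → F} {c : (F ≃ₐ[K] F) → Fin r → ZMod 3}

lemma np_ne (P : HeightOneSpectrum Ei) : Np P ≠ 0 := by
  unfold Np
  have := np_two P
  have h : nr (gn P.asIdeal) ≠ 0 := by omega
  exact_mod_cast h

lemma nat_pow_cpow (n f : ℕ) (t : ℂ) : ((n : ℂ) ^ f) ^ t = ((n : ℂ) ^ t) ^ f := by
  induction f with
  | zero => rw [pow_zero, pow_zero, Complex.one_cpow]
  | succ f ih =>
    rw [pow_succ, pow_succ, ← ih, ← Nat.cast_pow, Complex.natCast_mul_natCast_cpow]

theorem rz_main (hTR : S_TR) (hTRF : S_TRF) (hEXF : S_EXF) (hFRB : S_FRB) (hUNR : S_UNR)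
    (hCHR : S_CHR) (hLOC : S_LOC) (hMUL : S_MUL) [IsGalois K F]
    (hθ : ∀ i, θ i ^ 3 = algebraMap K F (j (b i) : K))
    (hcm : ∀ σ τ i, c (σ * τ) i = c σ i + c τ i) (hci : Function.Injective c)
    (hcθ : ∀ σ i, σ (θ i) = algebraMap K F ((j w : K) ^ (c σ i).val) * θ i)
    (hL : ∀ l : Fin r → ZMod 3, ∃ L : ℂ → ℂ, Differentiable ℂ L ∧ L 1 ≠ 0 ∧ ∀ s : ℂ, 3 / 2 < s.re →
      HasProd (fun P : {P : HeightOneSpectrum Ei // P ∈ TT d b} => (cfac d b l P.1 s)⁻¹) (L s)) :
    ∃ L : ℂ → ℂ, Differentiable ℂ L ∧ L 1 ≠ 0 ∧ ∀ s : ℂ, 3 / 2 < s.re →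
      HasProd (fun v : {v // GoodF (j d) (fun i => j (b i)) F v} =>
        (factor (algebraMap (𝓞 K) (𝓞 F) (j d)) v.1 s)⁻¹) (L s) := by
  -- the characters
  have hl : ∀ χ : (F ≃ₐ[K] F) →* ℂˣ, ∃ l : Fin r → ZMod 3, ∀ σ,
      (χ σ : ℂ) = tw (∑ x, l x * c σ x) := fun χ => hCHR (F ≃ₐ[K] F) r c hcm hci χ
  choose l hl using hl
  have hfin : Finite ((F ≃ₐ[K] F) →* ℂˣ) := by
    refine Finite.of_injective l fun χ χ' h => ?_
    ext σ
    rw [hl χ σ, hl χ' σ, h]
  have hft : Fintype ((F ≃ₐ[K] F) →* ℂˣ) := Fintype.ofFinite _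
  choose L h1 h2 h3 using hL
  refine ⟨fun s => ∏ χ, L (l χ) s, Differentiable.fun_finsetProd fun i _ => h1 _,
    Finset.prod_ne_zero_iff.2 fun i _ => h2 _, fun s hs => ?_⟩
  have h4 : HasProd (fun P : {P : HeightOneSpectrum Ei // P ∈ TT d b} =>
      ∏ χ, (cfac d b (l χ) P.1 s)⁻¹) (∏ χ, L (l χ) s) := hasProd_prod fun i _ => h3 (l i) s hs
  -- the local identity
  obtain ⟨D, hD⟩ : ∃ D : 𝓞 F, D = algebraMap (𝓞 K) (𝓞 F) (j d) := ⟨_, rfl⟩
  rw [← hD]
  have hloc : ∀ P : HeightOneSpectrum Ei, P ∈ TT d b →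
      {u : HeightOneSpectrum (𝓞 F) | below u = eK j P}.Finite ∧
      (∀ u : HeightOneSpectrum (𝓞 F), below u = eK j P →
        ((tr D u : ℤ) : ℝ) ^ 2 ≤ 4 * (Ideal.absNorm u.asIdeal : ℝ)) ∧
      ∃ z : ℂ, (∀ u : HeightOneSpectrum (𝓞 F), below u = eK j P → factor D u s = z) ∧
        z ^ {u : HeightOneSpectrum (𝓞 F) | below u = eK j P}.ncard =
          ∏ χ, cfac d b (l χ) P s := by
    intro P hP
    have hset : {u : HeightOneSpectrum (𝓞 F) | below u = eK j P} =
        {u : HeightOneSpectrum (𝓞 F) |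
          u.asIdeal.comap (algebraMap (𝓞 K) (𝓞 F)) = (eK j P).asIdeal} := by
      ext u
      exact HeightOneSpectrum.ext_iff
    have hbel : ∀ u : HeightOneSpectrum (𝓞 F), below u = eK j P →
        u.asIdeal.comap (algebraMap (𝓞 K) (𝓞 F)) = (eK j P).asIdeal := fun u hu =>
      HeightOneSpectrum.ext_iff.1 hu
    obtain ⟨φ, hφ⟩ := hEXF K F (eK j P)
    obtain ⟨g1, f, hf, g2, g3⟩ := hLOC K F (c_comm hcm hci) (eK j P)
      (hUNR K F j r b θ c hθ hcm hci hcθ P hP.1 hP.2.2) φ hφ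
    obtain ⟨e1, e2⟩ := hTR K j d P hP.1 hP.2.1
    have hxx := xc_sq hP.1 hP.2.1
    have htr : ∀ u : HeightOneSpectrum (𝓞 F), below u = eK j P →
        (tr D u : ℂ) = xc d P ^ f + (starRingEnd ℂ) (xc d P) ^ f := by
      intro u hu
      rw [hD]
      exact hTRF K F j d P hP.1 hP.2.1 u f (hbel u hu) (g2 u (hbel u hu))
    have hN : ∀ u : HeightOneSpectrum (𝓞 F), below u = eK j P →
        (Ideal.absNorm u.asIdeal : ℂ) = Np P ^ f := by
      intro u hu
      rw [g2 u (hbel u hu), ← e1, Nat.cast_pow]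
    refine ⟨by rw [hset]; exact g1, fun u hu => ?_, ?_⟩
    · -- the Hasse bound
      have a1 := htr u hu
      have a2 : ((tr D u : ℤ) : ℂ) = ((2 * ((xc d P) ^ f).re : ℝ) : ℂ) := by
        rw [a1, ← map_pow, Complex.add_conj]
      have a3 : ((tr D u : ℤ) : ℝ) = 2 * ((xc d P) ^ f).re := by exact_mod_cast a2
      have a4 : ((xc d P) ^ f).re ^ 2 ≤ Complex.normSq ((xc d P) ^ f) := by
        rw [Complex.normSq_apply]
        nlinarith [mul_self_nonneg ((xc d P) ^ f).im]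
      have a5 : ((Complex.normSq ((xc d P) ^ f) : ℝ) : ℂ) = ((Ideal.absNorm u.asIdeal : ℝ) : ℂ) := by
        rw [Complex.normSq_eq_conj_mul_self, map_pow, ← mul_pow, mul_comm _ (xc d P), hxx]
        rw [Complex.ofReal_natCast, hN u hu]
      have a6 : Complex.normSq ((xc d P) ^ f) = (Ideal.absNorm u.asIdeal : ℝ) := by
        exact_mod_cast a5
      rw [a3, ← a6]
      nlinarith
    · obtain ⟨X, hX⟩ : ∃ X : ℂ, X = Np P ^ (-s) := ⟨_, rfl⟩
      have hN2 : Np P ^ (1 - 2 * s) = Np P * X ^ 2 := by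
        have : (1 - 2 * s : ℂ) = 1 + (2 : ℕ) * (-s) := by push_cast; ring
        rw [this, Complex.cpow_add _ _ (np_ne P), Complex.cpow_one, Complex.cpow_nat_mul, hX]
      have hcf : ∀ χ, cfac d b (l χ) P s = 1 - (xc d P + (starRingEnd ℂ) (xc d P)) * X *
          χ φ⁻¹ + xc d P * (starRingEnd ℂ) (xc d P) * X ^ 2 * (χ φ⁻¹ : ℂ) ^ 2 := by
        intro χ
        rw [chi_inv j hFRB hθ hcm hcθ hP hφ (hl χ), hxx]
        unfold cfac
        rw [hN2, hX]
      refine ⟨1 - (xc d P ^ f + (starRingEnd ℂ) (xc d P) ^ f) * X ^ f +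
        (xc d P * (starRingEnd ℂ) (xc d P)) ^ f * (X ^ f) ^ 2, fun u hu => ?_, ?_⟩
      · unfold factor
        rw [htr u hu, hN u hu, hxx]
        have hnf : ∀ t : ℂ, (Np P ^ f) ^ t = (Np P ^ t) ^ f := by
          intro t
          have hnn : ∃ n : ℕ, Np P = n := by
            obtain ⟨n, hn⟩ := Int.eq_ofNat_of_zero_le (np_nonneg P)
            exact ⟨n, by unfold Np; rw [hn]; push_cast; rfl⟩
          obtain ⟨n, hn⟩ := hnn
          rw [hn]
          exact nat_pow_cpow n f t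
        rw [hnf, hnf, hN2, hX]
        ring
      · rw [hset, g3 (xc d P) ((starRingEnd ℂ) (xc d P)) X, finprod_eq_prod_of_fintype]
        exact Finset.prod_congr rfl fun χ _ => (hcf χ).symm
  -- absolute convergence
  have hgood : ∀ u : HeightOneSpectrum (𝓞 F), GoodF (j d) (fun i => j (b i)) F u →
      ∃ P ∈ TT d b, below u = eK j P := by
    intro u hu
    obtain ⟨P, hP⟩ := (eK j).surjective (below u)
    refine ⟨P, ?_, hP.symm⟩
    rw [good_iff j, hP]
    exact (goodF_iff _ _ u).1 hu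
  have hmul : Multipliable (fun v : {v // GoodF (j d) (fun i => j (b i)) F v} =>
      (factor D v.1 s)⁻¹) := by
    have h := hMUL F {u | GoodF (j d) (fun i => j (b i)) F u} (fun u => ((tr D u : ℤ) : ℝ))
      (fun u hu => by
        obtain ⟨P, hP, hPu⟩ := hgood u hu
        exact (hloc P hP).2.1 u hPu) s hs
    refine h.congr fun u => ?_
    unfold factor
    push_cast
    rfl
  obtain ⟨p, hp⟩ := hmul
  -- the fibres
  let g : {v // GoodF (j d) (fun i => j (b i)) F v} → {P : HeightOneSpectrum Ei // P ∈ TT d b} :=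
    fun u => ⟨(eK j).symm (below u.1), by
      rw [good_iff j, Equiv.apply_symm_apply]
      exact (goodF_iff _ _ u.1).1 u.2⟩
  have hg : ∀ u P, g u = P ↔ below u.1 = eK j P.1 := by
    intro u P
    rw [Subtype.ext_iff, ← Equiv.symm_apply_eq]
  have h5 := (Equiv.hasProd_iff (Equiv.sigmaFiberEquiv g)
    (f := fun v : {v // GoodF (j d) (fun i => j (b i)) F v} => (factor D v.1 s)⁻¹)
    (a := p)).2 hp
  have h6 : HasProd (fun P : {P : HeightOneSpectrum Ei // P ∈ TT d b} =>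
      ∏ χ, (cfac d b (l χ) P.1 s)⁻¹) p := by
    refine h5.sigma fun P => ?_
    obtain ⟨k1, -, z, k3, k4⟩ := hloc P.1 P.2
    -- the fibre
    let ε : {u : {v // GoodF (j d) (fun i => j (b i)) F v} // g u = P} ≃
        {u : HeightOneSpectrum (𝓞 F) | below u = eK j P.1} :=
      { toFun := fun u => ⟨u.1.1, (hg u.1 P).1 u.2⟩
        invFun := fun u => ⟨⟨u.1, by
          rw [goodF_iff]
          have : below u.1 = eK j P.1 := u.2
          rw [this]
          exact (good_iff j d b P.1).1 P.2⟩, (hg _ P).2 u.2⟩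
        left_inv := fun u => rfl
        right_inv := fun u => rfl }
    have hft2 : Fintype {u : HeightOneSpectrum (𝓞 F) | below u = eK j P.1} := k1.fintype
    have hft3 : Fintype {u : {v // GoodF (j d) (fun i => j (b i)) F v} // g u = P} :=
      Fintype.ofEquiv _ ε.symm
    have h7 := hasProd_fintype (fun u : {u : {v // GoodF (j d) (fun i => j (b i)) F v} //
      g u = P} => (factor D u.1.1 s)⁻¹)
    have h8 : ∏ u : {u : {v // GoodF (j d) (fun i => j (b i)) F v} // g u = P},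
        (factor D u.1.1 s)⁻¹ = ∏ χ, (cfac d b (l χ) P.1 s)⁻¹ := by
      rw [Finset.prod_inv_distrib, Finset.prod_inv_distrib, ← k4]
      congr 1
      rw [Finset.prod_congr rfl fun u _ => k3 u.1.1 ((hg u.1 P).1 u.2), Finset.prod_const,
        Finset.card_univ, Fintype.card_congr ε, ← Nat.card_eq_fintype_card]
      rfl
    rw [h8] at h7
    exact h7
  rw [← h4.unique h6] at hp
  exact hp

end rz

end Pool.Agent.H451.KF
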