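import Mathlib
import Pool.Agent.H451.KF.Stm

set_option autoImplicit false

namespace Pool.Agent.H451.KF

open Pool.Agent.Y692.QS hiding chi Jc Jc_nr chi_red chi_neg_one
open Pool.Agent.H451.BB
open scoped Classical

namespace CHR

lemma toCw_cube : toC w ^ 3 = 1 := by
  rw [← map_pow, w_cube, map_one]

lemma toCw_sq : toC w ^ 2 + toC w + 1 = 0 := by
  have h : w ^ 2 + w + 1 = (0 : Ei) := by decide
  have h2 := congrArg toC h
  simpa using h2

lemma toCw_ne_one : toC w ≠ 1 := by
  intro h
  have h2 := toCw_sq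
  rw [h] at h2
  norm_num at h2

lemma tw_one : tw 1 = toC w := by
  unfold tw
  have : (1 : ZMod 3).val = 1 := rfl
  rw [this, pow_one]

lemma tw_two : tw 2 = toC w ^ 2 := by
  unfold tw
  have : (2 : ZMod 3).val = 2 := rfl
  rw [this]

lemma tw_eq_one {a : ZMod 3} (h : tw a = 1) : a = 0 := by
  have h3 : a = 0 ∨ a = 1 ∨ a = 2 := by
    clear h
    revert a; decide
  rcases h3 with h3 | h3 | h3
  · exact h3
  · rw [h3, tw_one] at h
    exact absurd h toCw_ne_one
  · rw [h3, tw_two] at h
    exfalso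
    have h4 := toCw_cube
    apply toCw_ne_one
    calc toC w = toC w * toC w ^ 2 := by rw [h, mul_one]
      _ = toC w ^ 3 := by ring
      _ = 1 := h4

lemma tw_inj {a b : ZMod 3} (h : tw a = tw b) : a = b := by
  have h2 : tw (a + -b) = 1 := by
    rw [tw_add, h, tw_neg]
  have := tw_eq_one h2
  rwa [← sub_eq_add_neg, sub_eq_zero] at this

lemma tw_surj {z : ℂ} (hz : z ^ 3 = 1) : ∃ a : ZMod 3, z = tw a := by
  have h1 : (z - 1) * ((z - toC w) * (z - toC w ^ 2)) = 0 := by
    have h2 := toCw_sq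
    have h3 := toCw_cube
    linear_combination hz + (z - z ^ 2) * h2 + (z-1) * h3
  rcases mul_eq_zero.1 h1 with h | h
  · exact ⟨0, by rw [tw_zero]; linear_combination h⟩
  · rcases mul_eq_zero.1 h with h | h
    · exact ⟨1, by rw [tw_one]; linear_combination h⟩
    · exact ⟨2, by rw [tw_two]; linear_combination h⟩

end CHR

open CHR in
theorem t_CHR : S_CHR := by
  intro G _ r c hc hinj χ
  have hc1 : c 1 = 0 := by
    funext i
    have := hc 1 1 i
    rw [mul_one] at this
    simpa using this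
  have hcm : ∀ σ τ, c (σ * τ) = c σ + c τ := fun σ τ => funext fun i => hc σ τ i
  have hcp : ∀ (n : ℕ) σ, c (σ ^ n) = (n : ZMod 3) • c σ := by
    intro n σ
    induction n with
    | zero => rw [pow_zero, hc1, Nat.cast_zero, zero_smul]
    | succ n ih => rw [pow_succ, hcm, ih, Nat.cast_succ, add_smul, one_smul]
  have h3 : ∀ σ, σ ^ 3 = (1 : G) := by
    intro σ
    apply hinj
    rw [hcp, hc1]
    have : ((3 : ℕ) : ZMod 3) = 0 := by decide
    rw [this, zero_smul]
  have hχ : ∀ σ, (χ σ : ℂ) ^ 3 = 1 := by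
    intro σ
    have : χ σ ^ 3 = 1 := by rw [← map_pow, h3, map_one]
    have h4 := congrArg (Units.val) this
    simpa using h4
  choose f hf using fun σ => tw_surj (hχ σ)
  have hfm : ∀ σ τ, f (σ * τ) = f σ + f τ := by
    intro σ τ
    apply tw_inj
    rw [tw_add, ← hf, ← hf, ← hf, map_mul, Units.val_mul]
  have hf1 : f 1 = 0 := by
    have := hfm 1 1
    rw [mul_one] at this
    simpa using this
  have hfp : ∀ (n : ℕ) σ, f (σ ^ n) = (n : ZMod 3) * f σ := by
    intro n σ
    induction n with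
    | zero => rw [pow_zero, hf1, Nat.cast_zero, zero_mul]
    | succ n ih => rw [pow_succ, hfm, ih, Nat.cast_succ, add_mul, one_mul]
  -- the subspace
  let W : Submodule (ZMod 3) (Fin r → ZMod 3) :=
    { carrier := Set.range c
      add_mem' := by
        rintro _ _ ⟨σ, rfl⟩ ⟨τ, rfl⟩
        exact ⟨σ * τ, hcm σ τ⟩
      zero_mem' := ⟨1, hc1⟩
      smul_mem' := by
        rintro a _ ⟨σ, rfl⟩
        refine ⟨σ ^ a.val, ?_⟩
        rw [hcp, ZMod.natCast_val, ZMod.cast_id', id] }
  have hW : ∀ v : W, ∃ σ, c σ = v.1 := fun v => v.2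
  choose g hg using hW
  have hgc : ∀ (v : W) σ, c σ = v.1 → g v = σ := fun v σ h => hinj ((hg v).trans h.symm)
  let φ : W →ₗ[ZMod 3] ZMod 3 :=
    { toFun := fun v => f (g v)
      map_add' := by
        intro u v
        rw [← hfm]
        congr 1
        apply hgc
        rw [hcm, hg, hg]
        rfl
      map_smul' := by
        intro a v
        have h5 : g (a • v) = g v ^ a.val := by
          apply hgc
          rw [hcp, hg, ZMod.natCast_val, ZMod.cast_id', id]
          rfl
        rw [h5, hfp, ZMod.natCast_val, ZMod.cast_id', id]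
        rfl }
  obtain ⟨ψ, hψ⟩ := LinearMap.exists_extend φ
  refine ⟨fun i => ψ (Pi.single i 1), fun σ => ?_⟩
  rw [hf σ]
  congr 1
  have h6 : φ ⟨c σ, σ, rfl⟩ = f σ := by
    show f (g _) = f σ
    rw [hgc _ σ rfl]
  rw [← h6, ← hψ, LinearMap.comp_apply]
  show ψ (c σ) = _
  conv_lhs => rw [← Finset.univ_sum_single (c σ)]
  rw [map_sum]
  apply Finset.sum_congr rfl
  intro i _
  have h7 : (Pi.single i (c σ i) : Fin r → ZMod 3) = c σ i • Pi.single i 1 := by
    rw [← Pi.single_smul, smul_eq_mul, mul_one]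
  rw [h7, map_smul, smul_eq_mul, mul_comm]

end Pool.Agent.H451.KF

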