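import Pool.Agent.H451.KF.Stm

/-! KF-EXF: existence of Frobenius automorphisms (helper97) -/

set_option autoImplicit false

namespace Pool.Agent.H451.KF

open NumberField IsDedekindDomain

theorem t_EXF : S_EXF := by
  intro K F _ _ _ _ _ _ v
  obtain ⟨P, -, hP, hPv⟩ := Ideal.exists_ideal_over_prime_of_isIntegral (S := 𝓞 F) v.asIdeal ⊥ (by
    rw [← RingHom.ker_eq_comap_bot,
      (RingHom.injective_iff_ker_eq_bot _).1 (FaithfulSMul.algebraMap_injective (𝓞 K) (𝓞 F))]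
    exact bot_le)
  have hne : P ≠ ⊥ := by
    rintro rfl
    apply v.ne_bot
    rw [← hPv, ← RingHom.ker_eq_comap_bot,
      (RingHom.injective_iff_ker_eq_bot _).1 (FaithfulSMul.algebraMap_injective (𝓞 K) (𝓞 F))]
  have hfin : Finite (𝓞 F ⧸ P) := Ideal.finiteQuotientOfFreeOfNeBot P hne
  obtain ⟨σ, hσ⟩ := IsArithFrobAt.exists_of_isInvariant (𝓞 K) (F ≃ₐ[K] F) P
  refine ⟨σ, P, hP, hPv, fun x y hxy => ?_⟩
  have h1 := hσ x
  have h2 : y = σ • x := RingOfIntegers.ext hxy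
  have h3 : Ideal.absNorm v.asIdeal = Nat.card (𝓞 K ⧸ P.under (𝓞 K)) := by
    rw [Ideal.absNorm_apply, Submodule.cardQuot_apply, Ideal.under_def, hPv]
  rw [h2, h3]
  exact h1

end Pool.Agent.H451.KF
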