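import Mathlib
import Pool.Agent.H451.KF.Stm

/-!
# KF-FRB and KF-UNR: the Frobenius automorphism and the cubic residue symbols, trivial inertia
-/

set_option autoImplicit false
set_option linter.unusedVariables false
set_option linter.unusedSectionVars false

namespace Pool.Agent.H451.KF

open NumberField IsDedekindDomain
open Pool.Agent.H451.CubT (E)
open Pool.Agent.H451.BB
open Pool.Agent.Y703.CT
open Pool.Agent.Y696.CT
open Pool.Agent.Y696.CTK hiding toC_w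
open Pool.Agent.Y692.QS hiding chi Jc Jc_nr chi_red chi_neg_one
open Pool.Agent.Y715.T.Rec (cs nn)
open Pool.Agent.Y715.T.RecG (Pq)
open scoped Classical

namespace FRB

lemma nr_mod {π : Ei} (hπ : Pq π) : 3 ∣ (nr π).natAbs - 1 := by
  obtain ⟨c, hc⟩ := hπ.three
  have e1 : π = 1 + 3 * c := by rw [← hc]; ring
  have h9 : (nr π - 1) % 3 = 0 := by
    have h10 : π.re = 1 + 3 * c.re := by
      rw [e1]
      have h31 : (3 : Ei) = ⟨3, 0⟩ := rfl
      have h32 : QuadraticAlgebra.re (1 : Ei) = 1 := rfl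
      rw [h31]
      simp [h32]
    have h11 : π.im = 3 * c.im := by
      rw [e1]
      have h31 : (3 : Ei) = ⟨3, 0⟩ := rfl
      have h32 : QuadraticAlgebra.im (1 : Ei) = 0 := rfl
      rw [h31]
      simp [h32]
    unfold nr
    rw [h10, h11]
    have : (1 + 3 * c.re) ^ 2 - (1 + 3 * c.re) * (3 * c.im) + (3 * c.im) ^ 2 - 1 =
      3 * (2 * c.re + 3 * c.re ^ 2 - (1 + 3 * c.re) * c.im + 3 * c.im ^ 2) := by ring
    rw [this]
    exact Int.mul_emod_right 3 _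
  have h12 : ((nr π).natAbs : ℤ) = nr π := Int.natAbs_of_nonneg (nr_nonneg π)
  omega

lemma w_diff {π : Ei} (h3 : ¬ π ∣ 3) {a b : ZMod 3} (h : π ∣ w ^ a.val - w ^ b.val) : a = b := by
  by_contra hne
  apply h3
  refine dvd_trans h ?_
  have key : ∀ a b : ZMod 3, a ≠ b → ∃ c : ZMod 3, ∃ e : Fin 2,
      (w ^ a.val - w ^ b.val) * (w ^ c.val * (w ^ (e.val + 1) - 1)) = 3 := by
    decide
  obtain ⟨c, e, he⟩ := key a b hne
  exact ⟨_, he.symm⟩

section
variable {K F : Type} [Field K] [NumberField K] [Field F] [NumberField F] [Algebra K F]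
  (j : Ei ≃+* 𝓞 K)

/-- the embedding of the Eisenstein integers -/
noncomputable def g : Ei →+* 𝓞 F := (algebraMap (𝓞 K) (𝓞 F)).comp (j : Ei →+* 𝓞 K)

lemma g_coe (x : Ei) : ((g (F := F) j x : 𝓞 F) : F) = algebraMap K F (j x : K) := by
  show algebraMap (𝓞 F) F (algebraMap (𝓞 K) (𝓞 F) (j x)) = algebraMap K F (algebraMap (𝓞 K) K (j x))
  rw [← IsScalarTower.algebraMap_apply, ← IsScalarTower.algebraMap_apply]

lemma g_mem {P : HeightOneSpectrum Ei} (h3 : ¬ Over3 P) {u : Ideal (𝓞 F)}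
    (hu : u.comap (algebraMap (𝓞 K) (𝓞 F)) = (eK j P).asIdeal) (x : Ei) :
    g j x ∈ u ↔ rho P ∣ x := by
  have h1 : g j x ∈ u ↔ j x ∈ (eK j P).asIdeal := by
    rw [← hu, Ideal.mem_comap]
    rfl
  rw [h1]
  show j x ∈ (pK j P).asIdeal ↔ _
  rw [mem_pK, rho_span h3, Ideal.mem_span_singleton]

lemma exT {r : ℕ} {b : Fin r → Ei} {θ : Fin r → F}
    (hθ : ∀ i, θ i ^ 3 = algebraMap K F (j (b i) : K)) (i : Fin r) :
    ∃ t : 𝓞 F, (t : F) = θ i ∧ t ^ 3 = g j (b i) := by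
  have h1 : IsIntegral ℤ (θ i ^ 3) := by
    rw [hθ, ← g_coe]
    exact (g (F := F) j (b i)).isIntegral_coe
  have h2 : IsIntegral ℤ (θ i) := IsIntegral.of_pow (by norm_num) h1
  obtain ⟨t, ht⟩ : ∃ t : 𝓞 F, (t : F) = θ i := ⟨⟨θ i, h2⟩, rfl⟩
  refine ⟨t, ht, ?_⟩
  apply NumberField.RingOfIntegers.coe_injective
  have h3 : ((t ^ 3 : 𝓞 F) : F) = ((g (F := F) j (b i) : 𝓞 F) : F) := by
    rw [g_coe, ← hθ, ← ht]
    rfl
  exact h3

lemma mul_coe {r : ℕ} {θ : Fin r → F} {c : (F ≃ₐ[K] F) → Fin r → ZMod 3}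
    (hc : ∀ σ i, σ (θ i) = algebraMap K F ((j w : K) ^ (c σ i).val) * θ i) (σ : F ≃ₐ[K] F)
    (i : Fin r) {t : 𝓞 F} (ht : (t : F) = θ i) :
    ((g j (w ^ (c σ i).val) * t : 𝓞 F) : F) = σ (t : F) := by
  have h := g_coe (F := F) j (w ^ (c σ i).val)
  rw [ht, hc, ← ht]
  change ((g (F := F) j (w ^ (c σ i).val) : 𝓞 F) : F) * (t : F) = _
  rw [h, map_pow j]
  rfl

end

end FRB

open FRB

theorem t_UNR : S_UNR := by
  intro K F _ _ _ _ _ _ j r b θ c hθ hadd hinj hc P h3 hb u hup hu σ hσ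
  apply hinj
  have hc1 : ∀ i, c 1 i = 0 := by
    intro i
    have := hadd 1 1 i
    rw [mul_one] at this
    exact left_eq_add.1 this
  funext i
  rw [hc1]
  obtain ⟨t, ht, ht3⟩ := exT j hθ i
  have h1 := hσ t (g j (w ^ (c σ i).val) * t) (mul_coe j hc σ i ht)
  have h2 : (g j (w ^ (c σ i).val - w ^ (0 : ZMod 3).val) : 𝓞 F) * t ∈ u := by
    have : (g j (w ^ (c σ i).val - w ^ (0 : ZMod 3).val) : 𝓞 F) * t =
        g j (w ^ (c σ i).val) * t - t := by
      rw [map_sub, ZMod.val_zero, pow_zero, map_one]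
      ring
    rw [this]
    exact h1
  rcases hup.mem_or_mem h2 with h4 | h4
  · exact w_diff (rho_pq h3).norm ((g_mem j h3 hu _).1 h4)
  · exfalso
    apply hb i
    rw [← g_mem j h3 hu, ← ht3]
    exact Ideal.pow_mem_of_mem u h4 3 (by norm_num)

theorem t_FRB : S_FRB := by
  intro K F _ _ _ _ _ _ j r b θ c hθ hc P h3 hb σ ⟨u, hup, hu, hfr⟩ i
  obtain ⟨t, ht, ht3⟩ := exT j hθ i
  have h1 := hfr t (g j (w ^ (c σ i).val) * t) (mul_coe j hc σ i ht)
  have hpq := rho_pq h3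
  have hN : Ideal.absNorm (eK j P).asIdeal = 3 * nn (rho P) + 1 := by
    have h4 : (Ideal.absNorm (eK j P).asIdeal : ℤ) = nr (rho P) := by
      rw [rho_nr h3]
      exact Pool.Agent.H451.CubT.nm_P j P
    have h5 : Ideal.absNorm (eK j P).asIdeal = (nr (rho P)).natAbs := by omega
    have h6 : 3 ∣ (nr (rho P)).natAbs - 1 := nr_mod hpq
    have h7 : 0 < (nr (rho P)).natAbs := by
      have h9 : nr (rho P) ≠ 0 := fun h => hpq.prime.ne_zero (nr_zero_iff.1 h)
      omega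
    unfold nn
    rw [h5]
    omega
  have h2 : rho P ∣ b i ^ nn (rho P) - w ^ (cs (rho P) (b i)).val :=
    Pool.Agent.Y715.T.RecG.cs_spec hpq.prime hpq.norm (hb i)
  have h4 := (g_mem (F := F) j h3 hu _).2 h2
  have h5 : (g j (w ^ (c σ i).val - w ^ (cs (rho P) (b i)).val) : 𝓞 F) * t ∈ u := by
    have : (g j (w ^ (c σ i).val - w ^ (cs (rho P) (b i)).val) : 𝓞 F) * t =
        (g j (w ^ (c σ i).val) * t - t ^ Ideal.absNorm (eK j P).asIdeal) +
          g j (b i ^ nn (rho P) - w ^ (cs (rho P) (b i)).val) * t := by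
      rw [hN, pow_add, pow_mul, ht3, map_sub, map_sub, map_pow (g j) (b i)]
      ring
    rw [this]
    exact u.add_mem h1 (u.mul_mem_right _ h4)
  rcases hup.mem_or_mem h5 with h6 | h6
  · exact w_diff hpq.norm ((g_mem j h3 hu _).1 h6)
  · exfalso
    apply hb i
    rw [← g_mem j h3 hu, ← ht3]
    exact Ideal.pow_mem_of_mem u h6 3 (by norm_num)

end Pool.Agent.H451.KF
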