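import Mathlib
import Pool.Agent.H451.KF.Stm

set_option autoImplicit false

namespace Pool.Agent.H451.KF.GALaux

open Polynomial

theorem I3 {K : Type} [Field K] {I : K} (hI : I ^ 2 + I + 1 = 0) : I ^ 3 = 1 := by
  linear_combination (I - 1) * hI

theorem I_pow_mod {K : Type} [Field K] {I : K} (hI : I ^ 2 + I + 1 = 0) (n : ℕ) :
    I ^ (n % 3) = I ^ n := by
  conv_rhs => rw [← Nat.div_add_mod n 3]
  rw [pow_add, pow_mul, I3 hI, one_pow, one_mul]

theorem I_inj {K : Type} [Field K] [CharZero K] {I : K} (hI : I ^ 2 + I + 1 = 0)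
    (a b : ZMod 3) (h : I ^ a.val = I ^ b.val) : a = b := by
  have h3 : (3 : K) ≠ 0 := by exact_mod_cast (by norm_num : (3 : ℕ) ≠ 0)
  have hI1 : I ≠ 1 := by
    intro h
    rw [h] at hI
    apply h3
    linear_combination hI
  have hI0 : I ≠ 0 := by
    intro h
    rw [h] at hI
    norm_num at hI
  have hI2 : I ^ 2 ≠ 1 := by
    intro h
    apply h3
    have h4 : I = -2 := by linear_combination hI - h
    rw [h4] at h
    linear_combination h
  have hI3 : I ^ 2 ≠ I := by
    intro h
    apply hI1
    have : I * (I - 1) = 0 := by linear_combination h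
    rcases mul_eq_zero.1 this with h5 | h5
    · exact absurd h5 hI0
    · linear_combination h5
  have key : ∀ a b : Fin 3, I ^ (a : ℕ) = I ^ (b : ℕ) → a = b := by
    intro a b h
    have hI4 : I ≠ -1 := by
      rintro rfl
      exact hI2 (by norm_num)
    fin_cases a <;> fin_cases b <;> simp [hI1, hI4, hI1.symm, hI2.symm, hI3, hI3.symm] at h ⊢
  exact key a b h

theorem exists_c {K F : Type} [Field K] [CharZero K] [Field F] [Algebra K F] {I : K}
    (hI : I ^ 2 + I + 1 = 0) (x y : F) (h : x ^ 3 = y ^ 3) :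
    ∃ k : ZMod 3, x = algebraMap K F (I ^ k.val) * y := by
  have hJ : (algebraMap K F I) ^ 2 + algebraMap K F I + 1 = 0 := by
    rw [← map_pow, ← map_add, ← map_one (algebraMap K F), ← map_add, hI, map_zero]
  have e : (x - y) * ((x - algebraMap K F I * y) * (x - (algebraMap K F I) ^ 2 * y)) = 0 := by
    have h3 : (algebraMap K F I) ^ 3 = 1 := I3 hJ
    generalize algebraMap K F I = J at *
    linear_combination h + (-x^2*y + x * y^2 * J) * hJ - y^3 * h3
  rcases mul_eq_zero.1 e with h1 | h1
  · refine ⟨0, ?_⟩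
    simp
    linear_combination h1
  · rcases mul_eq_zero.1 h1 with h2 | h2
    · refine ⟨1, ?_⟩
      have : (1 : ZMod 3).val = 1 := rfl
      rw [this, pow_one]
      linear_combination h2
    · refine ⟨2, ?_⟩
      have : (2 : ZMod 3).val = 2 := rfl
      rw [this, map_pow]
      linear_combination h2

theorem gal (K F : Type) [Field K] [CharZero K] [Field F] [Algebra K F] (I : K)
    (hI : I ^ 2 + I + 1 = 0) (r : ℕ) (b : Fin r → K) (θ : Fin r → F) (hb : ∀ i, b i ≠ 0)
    (hθ : ∀ i, θ i ^ 3 = algebraMap K F (b i))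
    (htop : IntermediateField.adjoin K (Set.range θ) = ⊤) :
    FiniteDimensional K F ∧ IsGalois K F ∧ ∃ c : (F ≃ₐ[K] F) → Fin r → ZMod 3,
      (∀ σ τ i, c (σ * τ) i = c σ i + c τ i) ∧ Function.Injective c ∧
      ∀ σ i, σ (θ i) = algebraMap K F (I ^ (c σ i).val) * θ i := by
  have hθ0 : ∀ i, θ i ≠ 0 := by
    intro i h
    have := hθ i
    rw [h] at this
    simp only [ne_eq, OfNat.ofNat_ne_zero, not_false_eq_true, zero_pow] at this
    exact hb i ((map_eq_zero _).1 this.symm)
  have hint : ∀ i, IsIntegral K (θ i) := by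
    intro i
    refine ⟨X ^ 3 - C (b i), monic_X_pow_sub_C _ (by norm_num), ?_⟩
    simp [hθ i]
  have hfd : FiniteDimensional K F := by
    have h1 : FiniteDimensional K (IntermediateField.adjoin K (Set.range θ)) :=
      IntermediateField.finiteDimensional_adjoin (by
        rintro _ ⟨i, rfl⟩
        exact hint i)
    rw [htop] at h1
    exact (IntermediateField.topEquiv (F := K) (E := F)).toLinearEquiv.finiteDimensional
  -- the polynomial
  set p : K[X] := ∏ i, (X ^ 3 - C (b i)) with hp
  have hp0 : p ≠ 0 := by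
    rw [hp, Finset.prod_ne_zero_iff]
    intro i _
    exact X_pow_sub_C_ne_zero (by norm_num) _
  have hspl : (p.map (algebraMap K F)).Splits := by
    rw [hp, Polynomial.map_prod]
    refine Splits.prod fun i _ => ?_
    have hJ : (algebraMap K F I) ^ 2 + algebraMap K F I + 1 = 0 := by
      rw [← map_pow, ← map_add, ← map_one (algebraMap K F), ← map_add, hI, map_zero]
    have h3 : (algebraMap K F I) ^ 3 = 1 := I3 hJ
    have e : (X ^ 3 - C (b i)).map (algebraMap K F) =
        (X - C (θ i)) * ((X - C (algebraMap K F I * θ i)) * (X - C ((algebraMap K F I) ^ 2 * θ i))) := by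
      simp only [Polynomial.map_sub, Polynomial.map_pow, map_X, map_C]
      rw [← hθ i]
      have hJ' : (C (algebraMap K F I)) ^ 2 + C (algebraMap K F I) + 1 = (0 : F[X]) := by
        rw [← C_pow, ← C_add, ← C_1, ← C_add, hJ, C_0]
      have h3' : (C (algebraMap K F I)) ^ 3 = (1 : F[X]) := by
        rw [← C_pow, h3, C_1]
      simp only [C_pow, C_mul]
      generalize (C (algebraMap K F I) : F[X]) = J at *
      generalize (C (θ i) : F[X]) = y at *
      linear_combination -((-X^2*y + X * y^2 * J) * hJ' - y^3 * h3')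
    rw [e]
    exact (Splits.X_sub_C _).mul ((Splits.X_sub_C _).mul (Splits.X_sub_C _))
  have hsf : p.IsSplittingField K F := by
    rw [isSplittingField_iff_intermediateField]
    refine ⟨hspl, ?_⟩
    rw [eq_top_iff, ← htop]
    apply IntermediateField.adjoin.mono
    rintro _ ⟨i, rfl⟩
    rw [mem_rootSet]
    refine ⟨hp0, ?_⟩
    rw [hp, map_prod]
    refine Finset.prod_eq_zero (Finset.mem_univ i) ?_
    simp [hθ i]
  have hnorm : Normal K F := Normal.of_isSplittingField p
  have hgal : IsGalois K F := ⟨⟩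
  refine ⟨hfd, hgal, ?_⟩
  have hex : ∀ (σ : F ≃ₐ[K] F) (i : Fin r), ∃ k : ZMod 3,
      σ (θ i) = algebraMap K F (I ^ k.val) * θ i := by
    intro σ i
    refine exists_c hI _ _ ?_
    rw [← map_pow, hθ i, AlgEquiv.commutes]
  choose c hc using hex
  have hcu : ∀ (σ : F ≃ₐ[K] F) (i : Fin r) (k : ZMod 3),
      σ (θ i) = algebraMap K F (I ^ k.val) * θ i → c σ i = k := by
    intro σ i k hk
    rw [hc σ i] at hk
    have := mul_right_cancel₀ (hθ0 i) hk
    exact I_inj hI _ _ ((algebraMap K F).injective this)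
  refine ⟨c, ?_, ?_, hc⟩
  · intro σ τ i
    apply hcu
    rw [AlgEquiv.mul_apply, hc τ i, map_mul, AlgEquiv.commutes, hc σ i, ← mul_assoc, ← map_mul,
      ← pow_add, ZMod.val_add, I_pow_mod hI, add_comm]
  · intro σ τ h
    have h1 : ∀ i, σ (θ i) = τ (θ i) := by
      intro i
      rw [hc σ i, hc τ i, h]
    have h2 : ∀ x : F, σ x = τ x := by
      intro x
      have hx : x ∈ IntermediateField.adjoin K (Set.range θ) := by rw [htop]; trivial
      induction hx using IntermediateField.adjoin_induction with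
      | mem x hx => obtain ⟨i, rfl⟩ := hx; exact h1 i
      | algebraMap x => rw [AlgEquiv.commutes, AlgEquiv.commutes]
      | add x y _ _ hx hy => rw [map_add, map_add, hx, hy]
      | inv x _ hx => rw [map_inv₀, map_inv₀, hx]
      | mul x y _ _ hx hy => rw [map_mul, map_mul, hx, hy]
    exact AlgEquiv.ext h2

end Pool.Agent.H451.KF.GALaux

namespace Pool.Agent.H451.KF

theorem t_GAL : S_GAL := by
  intro K F _ _ _ _ I hI r b θ hb hθ htop
  exact GALaux.gal K F I hI r b θ hb hθ htop

end Pool.Agent.H451.KF
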