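import Mathlib
import Pool.Agent.H451.KF.Stm

/-!
# KF-HL: half `L`-functions with removed factors
-/

set_option autoImplicit false
set_option linter.unusedVariables false

namespace Pool.Agent.H451.KF

open NumberField IsDedekindDomain
open Pool.Agent.H451.CubT (E)
open Pool.Agent.H451.BB
open Pool.Agent.Y703.CT
open Pool.Agent.Y696.CT
open Pool.Agent.Y696.CTK hiding toC_w
open Pool.Agent.Y692.QS hiding chi Jc Jc_nr chi_red chi_neg_one
open Pool.Agent.Y715.T.Rec (cs nn)
open Pool.Agent.Y715.T.RecG (Pq)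
open scoped Classical

/-- the Euler factor of the half `L`-function -/
noncomputable def hfac (d : Ei) (s : ℂ) (P : HeightOneSpectrum Ei) : ℂ :=
  1 - xc d P * Np P ^ (-s)

lemma hfac_ne {d : Ei} {s : ℂ} {P : HeightOneSpectrum Ei} (hs : 1 ≤ s.re) : hfac d s P ≠ 0 :=
  small hs (xc_norm d P)

lemma hfac_diff (d : Ei) (P : HeightOneSpectrum Ei) : Differentiable ℂ fun s => hfac d s P := by
  have h0 : Np P ≠ 0 := by
    unfold Np
    have := np_two P
    have h : nr (gn P.asIdeal) ≠ 0 := by omega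
    exact_mod_cast h
  have h1 : Differentiable ℂ fun s : ℂ => Np P ^ (-s) := by
    intro s
    exact (differentiableAt_id.neg).const_cpow (Or.inl h0)
  unfold hfac
  fun_prop

theorem t_HL : S_HL := by
  intro n π e hdt hk h9 T hT
  obtain ⟨F, hF, hF1⟩ := Pool.Agent.Y696.CTE.val_ne hdt hk h9
  set d := pD π e with hd
  have key : ∀ s : ℂ, 3 / 2 < s.re → HasProd (fun P => (hfac d s P)⁻¹) (F s) := by
    intro s hs
    have h2 : HasSum (fun α : {α : Ei // (3 : Ei) ∣ α - 1} => gg π (fun j => -e j) s α) (F s) :=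
      hF.2 s hs
    have h3 := hasProd_Ei (gg_one hdt.pq _ s) (gg_mul hdt.pq _ s) h2
    refine h3.congr_fun fun P => ?_
    unfold hfac
    rw [fI_gg hdt]
  set S : Finset (HeightOneSpectrum Ei) := hT.toFinset with hS
  have hmem : ∀ P, P ∈ S ↔ P ∉ T := by
    intro P
    rw [hS, Set.Finite.mem_toFinset, Set.mem_compl_iff]
  refine ⟨fun s => F s * ∏ P ∈ S, hfac d s P,
    hF.1.mul (Differentiable.fun_finsetProd fun P _ => hfac_diff d P),
    mul_ne_zero hF1 (Finset.prod_ne_zero_iff.2 fun P _ => hfac_ne (by rw [Complex.one_re])),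
    fun s hs => ?_⟩
  have h4 := key s hs
  have h5 : HasProd (fun P => if P ∈ S then hfac d s P else 1) (∏ P ∈ S, hfac d s P) := by
    have h6 := hasProd_prod_of_ne_finset_one (f := fun P => if P ∈ S then hfac d s P else 1)
      (s := S) (L := SummationFilter.unconditional _) (fun P hP => if_neg hP)
    have h7 : ∏ P ∈ S, (if P ∈ S then hfac d s P else 1) = ∏ P ∈ S, hfac d s P :=
      Finset.prod_congr rfl fun P hP => if_pos hP
    rwa [h7] at h6
  have h8 := h4.mul h5
  have h9 : Function.mulSupport (fun P => (hfac d s P)⁻¹ * (if P ∈ S then hfac d s P else 1)) ⊆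
      T := by
    intro P hP
    by_contra hPT
    apply hP
    have hPS' : P ∈ S := (hmem P).2 hPT
    show (hfac d s P)⁻¹ * (if P ∈ S then hfac d s P else 1) = 1
    rw [if_pos hPS', inv_mul_cancel₀ (hfac_ne (by linarith))]
  have h10 := (hasProd_subtype_iff_of_mulSupport_subset h9).2 h8
  refine h10.congr_fun fun P => ?_
  show (1 - xc d P.1 * Np P.1 ^ (-s))⁻¹ =
    (hfac d s P.1)⁻¹ * (if P.1 ∈ S then hfac d s P.1 else 1)
  rw [if_neg (fun h => (hmem P.1).1 h P.2), mul_one]
  rfl

end Pool.Agent.H451.KF
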