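import Mathlib
import Pool.Agent.H451.KF.Stm

/-!
# KF-LOC
-/

set_option autoImplicit false

namespace Pool.Agent.H451.KF

section chars

open Finset
open scoped Classical

/-- the product over all roots of unity of order dividing `f` -/
lemma roots_prod (f : ℕ) (hf : 0 < f) (c : ℂ) :
    ∏ z ∈ Polynomial.nthRootsFinset f (1 : ℂ), (1 - c * z) = 1 - c ^ f := by
  have h := (Complex.isPrimitiveRoot_exp f hf.ne').pow_sub_pow_eq_prod_sub_mul 1 c hf
  rw [one_pow] at h
  rw [h]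
  exact Finset.prod_congr rfl (fun z _ => by ring)

theorem char_prod {G : Type} [Group G] [Finite G] (hG : ∀ a b : G, a * b = b * a) (a : G) (c : ℂ) :
    ∏ᶠ χ : G →* ℂˣ, (1 - c * (χ a : ℂ)) = (1 - c ^ orderOf a) ^ (Nat.card G / orderOf a) := by
  let _ : CommGroup G := { ‹Group G› with mul_comm := hG }
  have : NeZero (Monoid.exponent G) := ⟨Monoid.ExponentExists.of_finite.exponent_ne_zero⟩
  have : Fintype (G →* ℂˣ) := Fintype.ofFinite _
  set f := orderOf a with hf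
  have hf0 : 0 < f := orderOf_pos a
  rw [finprod_eq_prod_of_fintype]
  let ev : (G →* ℂˣ) →* ℂˣ := MonoidHom.eval a
  have hev : ∀ χ, ev χ = χ a := fun χ => rfl
  have hpow : ∀ χ, (ev χ) ^ f = 1 := by
    intro χ; rw [hev, ← map_pow, hf, pow_orderOf_eq_one, map_one]
  -- the image
  let S : Finset ℂˣ := univ.image ev
  have hSle : S.image (fun z : ℂˣ => (z : ℂ)) ⊆ Polynomial.nthRootsFinset f (1 : ℂ) := by
    intro z hz
    obtain ⟨u, hu, rfl⟩ := mem_image.mp hz
    obtain ⟨χ, _, rfl⟩ := mem_image.mp hu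
    rw [Polynomial.mem_nthRootsFinset hf0]
    rw [← Units.val_pow_eq_pow_val, hpow, Units.val_one]
  have hScard : (S.image (fun z : ℂˣ => (z : ℂ))).card = S.card :=
    card_image_of_injective _ Units.val_injective
  have hn : (Polynomial.nthRootsFinset f (1 : ℂ)).card = f :=
    (Complex.isPrimitiveRoot_exp f hf0.ne').card_nthRootsFinset
  have hcard : f ≤ S.card := by
    have hfin : Finite ev.range := by
      apply Set.Finite.to_subtype
      have : (ev.range : Set ℂˣ) = Set.range ev := MonoidHom.coe_range ev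
      rw [this]; exact Set.finite_range ev
    have hm : Nat.card ev.range = S.card := by
      have : Nat.card ev.range = (Set.range ev).ncard := by
        rw [← MonoidHom.coe_range]; rfl
      rw [this, Set.ncard_eq_toFinset_card' (Set.range ev)]
      congr 1
      ext z; simp [S]
    rw [← hm]
    apply Nat.le_of_dvd Nat.card_pos
    rw [hf, orderOf_dvd_iff_pow_eq_one]
    by_contra hne
    obtain ⟨χ, hχ⟩ := CommGroup.exists_apply_ne_one_of_hasEnoughRootsOfUnity G ℂ hne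
    apply hχ
    rw [map_pow, ← hev]
    have : (⟨ev χ, ⟨χ, rfl⟩⟩ : ev.range) ^ Nat.card ev.range = 1 := pow_card_eq_one'
    simpa [Subtype.ext_iff] using this
  have hS : S.image (fun z : ℂˣ => (z : ℂ)) = Polynomial.nthRootsFinset f (1 : ℂ) :=
    eq_of_subset_of_card_le hSle (by rw [hn, hScard]; exact hcard)
  have hSc : S.card = f := by rw [← hScard, hS, hn]
  -- the fibres
  set k := #{χ : G →* ℂˣ | ev χ = 1} with hk
  have hfib : ∀ z ∈ S, #{χ : G →* ℂˣ | ev χ = z} = k := by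
    intro z hz
    apply MonoidHom.card_fiber_eq_of_mem_range ev
    · simpa [S] using hz
    · exact ⟨1, map_one ev⟩
  have hkf : k * f = Nat.card G := by
    rw [← CommGroup.card_monoidHom_of_hasEnoughRootsOfUnity G ℂ, Nat.card_eq_fintype_card,
      ← card_univ, card_eq_sum_card_image ev univ, sum_congr rfl hfib, sum_const, hSc,
      smul_eq_mul, mul_comm]
  have hkk : Nat.card G / f = k := by
    rw [← hkf]; exact Nat.mul_div_cancel _ hf0
  rw [hkk]
  calc ∏ χ : G →* ℂˣ, (1 - c * (χ a : ℂ))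
      = ∏ z ∈ S, (1 - c * (z : ℂ)) ^ #{χ : G →* ℂˣ | ev χ = z} :=
        Finset.prod_comp (fun z : ℂˣ => 1 - c * (z : ℂ)) ev
    _ = ∏ z ∈ S, (1 - c * (z : ℂ)) ^ k := prod_congr rfl (fun z hz => by rw [hfib z hz])
    _ = (∏ z ∈ S, (1 - c * (z : ℂ))) ^ k := prod_pow _ _ _
    _ = (∏ z ∈ S.image (fun z : ℂˣ => (z : ℂ)), (1 - c * z)) ^ k := by
        rw [prod_image (fun x _ y _ h => Units.val_injective h)]
    _ = (1 - c ^ f) ^ k := by rw [hS, roots_prod f hf0]

end chars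

open NumberField IsDedekindDomain
open scoped Pointwise Classical

set_option linter.unusedSectionVars false

section
variable {K F : Type} [Field K] [NumberField K] [Field F] [NumberField F]
  [Algebra K F] [IsGalois K F]

lemma loc_coe_smul (σ : F ≃ₐ[K] F) (x : 𝓞 F) : ((σ • x : 𝓞 F) : F) = σ (x : F) := rfl

lemma loc_isArith (v : HeightOneSpectrum (𝓞 K)) (φ : F ≃ₐ[K] F) (P : Ideal (𝓞 F))
    (hP : P.comap (algebraMap (𝓞 K) (𝓞 F)) = v.asIdeal)
    (h : ∀ x y : 𝓞 F, (y : F) = φ x → y - x ^ Ideal.absNorm v.asIdeal ∈ P) :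
    IsArithFrobAt (𝓞 K) φ P := by
  intro x
  have h1 : Nat.card (𝓞 K ⧸ P.under (𝓞 K)) = Ideal.absNorm v.asIdeal := by
    rw [Ideal.absNorm_apply, Submodule.cardQuot_apply, ← hP]
  rw [h1]
  exact h x (φ • x) (loc_coe_smul φ x)

lemma loc_all (hG : ∀ σ τ : F ≃ₐ[K] F, σ * τ = τ * σ) (v : HeightOneSpectrum (𝓞 K))
    (φ : F ≃ₐ[K] F) (hφ : IsFrobenius v F φ) (u : Ideal (𝓞 F)) (hu : u.IsPrime)
    (huv : u.comap (algebraMap (𝓞 K) (𝓞 F)) = v.asIdeal) : IsArithFrobAt (𝓞 K) φ u := by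
  obtain ⟨P, hP, hPv, hfrob⟩ := hφ
  have h1 := loc_isArith v φ P hPv hfrob
  obtain ⟨τ, hτ⟩ := Algebra.IsInvariant.exists_smul_of_under_eq (𝓞 K) (𝓞 F) (F ≃ₐ[K] F) P u
    (by rw [Ideal.under, Ideal.under, hPv, huv])
  have h2 := h1.conj τ
  rw [hG τ φ, mul_assoc, mul_inv_cancel, mul_one, ← hτ] at h2
  exact h2

attribute [local instance] Ideal.Quotient.field in
lemma loc_order (v : HeightOneSpectrum (𝓞 K))
    (φ : F ≃ₐ[K] F) (u : Ideal (𝓞 F)) (hu : u.IsPrime) [hl : u.LiesOver v.asIdeal]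
    (hφ : IsArithFrobAt (𝓞 K) φ u) (hin : u.inertia (F ≃ₐ[K] F) = ⊥) :
    u.inertiaDeg (𝓞 K) = orderOf φ := by
  have := v.isMaximal
  have : u.IsMaximal := Ideal.IsMaximal.of_liesOver_isMaximal u v.asIdeal
  rw [Ideal.inertiaDeg_eq_of_isMaximal v.asIdeal u]
  have hst := IsArithFrobAt.mem_stabilizer hφ
  have hker : Function.Injective (Ideal.Quotient.stabilizerHom u v.asIdeal (F ≃ₐ[K] F)) := by
    rw [← MonoidHom.ker_eq_bot_iff, Ideal.Quotient.ker_stabilizerHom]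
    rw [eq_bot_iff]
    intro σ hσ
    have h1 : (σ : F ≃ₐ[K] F) ∈ u.inertia (F ≃ₐ[K] F) := by
      rw [Ideal.coe_mem_inertia]; exact hσ
    rw [hin, Subgroup.mem_bot] at h1
    rw [Subgroup.mem_bot]
    exact Subtype.ext h1
  have h2 : orderOf φ = orderOf (⟨φ, hst⟩ : MulAction.stabilizer (F ≃ₐ[K] F) u) := by
    rw [Subgroup.orderOf_mk]
  rw [h2, ← orderOf_injective _ hker]
  have : Finite (𝓞 K ⧸ v.asIdeal) := Ideal.finiteQuotientOfFreeOfNeBot v.asIdeal v.ne_bot
  have : Fintype (𝓞 K ⧸ v.asIdeal) := Fintype.ofFinite _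
  have hub : u ≠ ⊥ := by
    intro h
    apply v.ne_bot
    rw [hl.over, h, Ideal.under_bot]
  have : Finite (𝓞 F ⧸ u) := Ideal.finiteQuotientOfFreeOfNeBot u hub
  rw [← FiniteField.orderOf_frobeniusAlgEquivOfAlgebraic (𝓞 K ⧸ v.asIdeal) (𝓞 F ⧸ u)]
  congr 1
  ext x
  obtain ⟨x, rfl⟩ := Ideal.Quotient.mk_surjective x
  rw [FiniteField.coe_frobeniusAlgEquivOfAlgebraic]
  have h3 := hφ x
  rw [← Ideal.Quotient.eq] at h3
  rw [← hl.over, Nat.card_eq_fintype_card, map_pow] at h3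
  exact h3.symm

end

lemma loc_mem_over {K F : Type} [Field K] [NumberField K] [Field F] [NumberField F]
    [Algebra K F] (v : HeightOneSpectrum (𝓞 K)) (u : Ideal (𝓞 F)) :
    u.comap (algebraMap (𝓞 K) (𝓞 F)) = v.asIdeal ↔ u.LiesOver v.asIdeal :=
  ⟨fun h => ⟨h.symm⟩, fun h => h.over.symm⟩

theorem t_LOC : S_LOC := by
  intro K F _ _ _ _ _ _ hG v hin φ hφ
  set U : Set (HeightOneSpectrum (𝓞 F)) :=
    {u | u.asIdeal.comap (algebraMap (𝓞 K) (𝓞 F)) = v.asIdeal} with hU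
  have himg : (fun u : HeightOneSpectrum (𝓞 F) => u.asIdeal) '' U =
      v.asIdeal.primesOver (𝓞 F) := by
    ext u
    constructor
    · rintro ⟨u, hu, rfl⟩
      exact ⟨u.isPrime, (loc_mem_over v _).mp hu⟩
    · rintro ⟨h1, h2⟩
      have hub : u ≠ ⊥ := by
        intro h
        apply v.ne_bot
        rw [h2.over, h, Ideal.under_bot]
      exact ⟨⟨u, h1, hub⟩, (loc_mem_over v u).mpr h2, rfl⟩
  have hinj : Set.InjOn (fun u : HeightOneSpectrum (𝓞 F) => u.asIdeal) U :=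
    fun a _ b _ h => HeightOneSpectrum.ext h
  obtain ⟨P, hP, hPv, hfrob⟩ := id hφ
  have hPl : P.LiesOver v.asIdeal := (loc_mem_over v P).mp hPv
  have hinert : ∀ u : Ideal (𝓞 F), u.IsPrime →
      u.comap (algebraMap (𝓞 K) (𝓞 F)) = v.asIdeal → u.inertia (F ≃ₐ[K] F) = ⊥ := by
    intro u hu huv
    rw [eq_bot_iff]
    intro σ hσ
    rw [Subgroup.mem_bot]
    apply hin u hu huv σ
    intro x y hxy
    have h1 : y = σ • x := by
      apply RingOfIntegers.ext
      rw [hxy, loc_coe_smul]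
    rw [h1]
    exact hσ x
  have hvp : v.asIdeal.IsPrime := v.isPrime
  have hdeg : ∀ u : Ideal (𝓞 F), u.IsPrime →
      u.comap (algebraMap (𝓞 K) (𝓞 F)) = v.asIdeal → u.inertiaDeg (𝓞 K) = orderOf φ := by
    intro u hu huv
    have hul : u.LiesOver v.asIdeal := (loc_mem_over v u).mp huv
    exact loc_order v φ u hu (loc_all hG v φ hφ u hu huv) (hinert u hu huv)
  have hcount := Ideal.ncard_primesOver_mul_card_inertia_mul_finrank (G := F ≃ₐ[K] F) v.asIdeal P
  rw [hinert P hP hPv, hdeg P hP hPv, ← himg, Set.InjOn.ncard_image hinj] at hcount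
  have hf0 : 0 < orderOf φ := orderOf_pos φ
  have hc : U.ncard = Nat.card (F ≃ₐ[K] F) / orderOf φ := by
    rw [← hcount]
    simp [Nat.mul_div_cancel _ hf0]
  have hfin : U.Finite := by
    apply Set.Finite.of_finite_image _ hinj
    rw [himg, ← Algebra.IsInvariant.orbit_eq_primesOver (𝓞 K) (𝓞 F) (F ≃ₐ[K] F) v.asIdeal P]
    exact Set.finite_range _
  refine ⟨hfin, orderOf φ, hf0, ?_, ?_⟩
  · intro u hu
    have hul : u.asIdeal.LiesOver v.asIdeal := (loc_mem_over v u.asIdeal).mp hu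
    have hup := u.isPrime
    rw [← hdeg u.asIdeal u.isPrime hu]
    exact (Ideal.absNorm_pow_inertiaDeg v.asIdeal u.asIdeal).symm
  · intro α α' X
    have h1 : ∀ χ : (F ≃ₐ[K] F) →* ℂˣ,
        (1 - (α + α') * X * χ φ⁻¹ + α * α' * X ^ 2 * (χ φ⁻¹ : ℂ) ^ 2) =
        (1 - (α * X) * (χ φ⁻¹ : ℂ)) * (1 - (α' * X) * (χ φ⁻¹ : ℂ)) := fun χ => by ring
    rw [finprod_congr h1]
    have hfc : Finite ((F ≃ₐ[K] F) →* ℂˣ) := by
      let _ : CommGroup (F ≃ₐ[K] F) := { (inferInstance : Group (F ≃ₐ[K] F)) with mul_comm := hG }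
      infer_instance
    rw [finprod_mul_distrib (Set.toFinite _) (Set.toFinite _),
      char_prod hG, char_prod hG, orderOf_inv, ← hc,
      ← mul_pow]
    congr 1
    rw [mul_pow, mul_pow, mul_pow]
    ring

end Pool.Agent.H451.KF
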