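import Mathlib
import Pool.Agent.H451.KF.Stm

/-!
# KF-MUL: absolute convergence of the Euler product over a number field (helper539)
-/

set_option autoImplicit false

namespace Pool.Agent.H451.KF

open NumberField IsDedekindDomain
open scoped Classical

/-- the number of the ideals of norm `n` -/
noncomputable def mulC (F : Type) [Field F] [NumberField F] (n : ℕ) : ℝ :=
  Nat.card {I : Ideal (𝓞 F) // Ideal.absNorm I = n}

theorem mul_bigO (F : Type) [Field F] [NumberField F] :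
    (fun n : ℕ => ∑ k ∈ Finset.Icc 1 n, mulC F k) =O[Filter.atTop] fun n : ℕ => (n : ℝ) ^ (1 : ℝ) := by
  have h1 := (Ideal.tendsto_norm_le_div_atTop₀ F).comp tendsto_natCast_atTop_atTop
  have h2 : (fun n : ℕ => ∑ k ∈ Finset.Icc 1 n, mulC F k) =O[Filter.atTop]
      fun n : ℕ => (n : ℝ) := by
    refine Asymptotics.isBigO_of_div_tendsto_nhds ?_ _ (h1.congr fun n ↦ ?_)
    · filter_upwards [Filter.eventually_ge_atTop 1] with n hn h0
      rw [Nat.cast_eq_zero] at h0
      omega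
    · simp only [Function.comp_apply, Nat.cast_le, mulC, Pi.div_apply, ← Nat.cast_sum]
      congr
      rw [← add_left_inj 1, ← Ideal.card_norm_le_eq_card_norm_le_add_one,
        show Finset.Icc 1 n = Finset.Ioc 0 n from Finset.Icc_succ_left_eq_Ioc _ _,
        show 1 = Nat.card {I : Ideal (𝓞 F) // Ideal.absNorm I = 0} by simp [Ideal.absNorm_eq_zero_iff],
        Finset.sum_Ioc_add_eq_sum_Icc (n.zero_le),
        ← Finset.card_preimage_eq_sum_card_image_eq (fun k _ ↦ Ideal.finite_setOfPred_absNorm_eq k)]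
      simp [Set.coe_eq_subtype]
  simpa using h2

/-- `∑ N u ^ (-x)` converges for `x > 1` -/
theorem mul_summable (F : Type) [Field F] [NumberField F] {x : ℝ} (hx : 1 < x) :
    Summable fun u : HeightOneSpectrum (𝓞 F) => (Ideal.absNorm u.asIdeal : ℝ) ^ (-x) := by
  have h1 : LSeriesSummable (fun n => (mulC F n : ℂ)) (x : ℂ) :=
    LSeriesSummable_of_sum_norm_bigO_and_nonneg (mul_bigO F) (fun n => Nat.cast_nonneg _) zero_le_one
      (by simpa using hx)
  have h2 : Summable fun n : ℕ => mulC F n * (n : ℝ) ^ (-x) := by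
    refine Summable.of_norm_bounded_eventually_nat (g := fun n => ‖LSeries.term (fun n => (mulC F n : ℂ)) (x : ℂ) n‖)
      h1.norm ?_
    filter_upwards [Filter.eventually_ge_atTop 1] with n hn
    rw [LSeries.term_of_ne_zero (by omega), norm_div, Complex.norm_natCast_cpow_of_pos (by omega),
      Complex.norm_real, Complex.ofReal_re, norm_mul, Real.rpow_neg (Nat.cast_nonneg _), norm_inv,
      Real.norm_of_nonneg (Real.rpow_nonneg (Nat.cast_nonneg n) x), div_eq_mul_inv]
  let N : HeightOneSpectrum (𝓞 F) → ℕ := fun u => Ideal.absNorm u.asIdeal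
  have hfin : ∀ n : ℕ, Finite {I : Ideal (𝓞 F) // Ideal.absNorm I = n} := fun n =>
    (Ideal.finite_setOfPred_absNorm_eq n).to_subtype
  have hinj : ∀ n : ℕ, Function.Injective fun u : {u : HeightOneSpectrum (𝓞 F) // N u = n} =>
      (⟨u.1.asIdeal, u.2⟩ : {I : Ideal (𝓞 F) // Ideal.absNorm I = n}) := by
    intro n u u' h
    rw [Subtype.mk.injEq] at h
    exact Subtype.ext (HeightOneSpectrum.ext h)
  have hfin' : ∀ n : ℕ, Finite {u : HeightOneSpectrum (𝓞 F) // N u = n} := fun n =>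
    Finite.of_injective _ (hinj n)
  rw [← (Equiv.sigmaFiberEquiv N).summable_iff]
  refine (summable_sigma_of_nonneg
    (f := (fun u : HeightOneSpectrum (𝓞 F) => (Ideal.absNorm u.asIdeal : ℝ) ^ (-x)) ∘
      (Equiv.sigmaFiberEquiv N)) (fun _ => Real.rpow_nonneg (Nat.cast_nonneg _) _)).2
    ⟨fun n => Summable.of_finite, ?_⟩
  refine Summable.of_nonneg_of_le (fun n => tsum_nonneg fun _ => Real.rpow_nonneg (Nat.cast_nonneg _) _)
    (fun n => ?_) h2
  have h3 : ∀ u : {u : HeightOneSpectrum (𝓞 F) // N u = n},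
      ((fun u : HeightOneSpectrum (𝓞 F) => (Ideal.absNorm u.asIdeal : ℝ) ^ (-x)) ∘
        (Equiv.sigmaFiberEquiv N)) ⟨n, u⟩ = (n : ℝ) ^ (-x) := by
    intro u
    have h4 : Ideal.absNorm u.1.asIdeal = n := u.2
    show (Ideal.absNorm u.1.asIdeal : ℝ) ^ (-x) = _
    rw [h4]
  rw [tsum_congr h3, tsum_const, nsmul_eq_mul]
  refine mul_le_mul_of_nonneg_right ?_ (Real.rpow_nonneg (Nat.cast_nonneg _) _)
  unfold mulC
  exact_mod_cast Nat.card_le_card_of_injective _ (hinj n)

theorem t_MUL : S_MUL := by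
  intro F _ _ T t ht s hs
  have hN : ∀ u : HeightOneSpectrum (𝓞 F), 1 ≤ Ideal.absNorm u.asIdeal := by
    intro u
    rw [Nat.one_le_iff_ne_zero, Ne, Ideal.absNorm_eq_zero_iff]
    exact u.ne_bot
  -- the deviation of the factors from `1`
  let a : {u : HeightOneSpectrum (𝓞 F) // u ∈ T} → ℂ := fun u =>
    -((t u.1 : ℂ) * (Ideal.absNorm u.1.asIdeal : ℂ) ^ (-s)) +
      (Ideal.absNorm u.1.asIdeal : ℂ) ^ (1 - 2 * s)
  have ha : ∀ u, ‖a u‖ ≤ 3 * (Ideal.absNorm u.1.asIdeal : ℝ) ^ (-(s.re - 1 / 2)) := by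
    intro u
    have h1 := hN u.1
    have h1' : (1 : ℝ) ≤ Ideal.absNorm u.1.asIdeal := by exact_mod_cast h1
    have h0 : (0 : ℝ) < Ideal.absNorm u.1.asIdeal := by linarith
    have h2 : |t u.1| ≤ 2 * (Ideal.absNorm u.1.asIdeal : ℝ) ^ (1 / 2 : ℝ) := by
      rw [← Real.sqrt_eq_rpow]
      apply abs_le_of_sq_le_sq _ (by positivity)
      rw [mul_pow, Real.sq_sqrt h0.le]
      have := ht u.1 u.2
      linarith
    have h3 : ‖(t u.1 : ℂ) * (Ideal.absNorm u.1.asIdeal : ℂ) ^ (-s)‖ ≤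
        2 * (Ideal.absNorm u.1.asIdeal : ℝ) ^ (-(s.re - 1 / 2)) := by
      rw [norm_mul, Complex.norm_real, Complex.norm_natCast_cpow_of_pos (by omega), Complex.neg_re,
        Real.norm_eq_abs]
      calc |t u.1| * (Ideal.absNorm u.1.asIdeal : ℝ) ^ (-s.re) ≤
          2 * (Ideal.absNorm u.1.asIdeal : ℝ) ^ (1 / 2 : ℝ) *
            (Ideal.absNorm u.1.asIdeal : ℝ) ^ (-s.re) :=
          mul_le_mul_of_nonneg_right h2 (Real.rpow_nonneg h0.le _)
        _ = 2 * (Ideal.absNorm u.1.asIdeal : ℝ) ^ (-(s.re - 1 / 2)) := by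
          rw [mul_assoc, ← Real.rpow_add h0]
          congr 2
          ring
    have h4 : ‖(Ideal.absNorm u.1.asIdeal : ℂ) ^ (1 - 2 * s)‖ ≤
        (Ideal.absNorm u.1.asIdeal : ℝ) ^ (-(s.re - 1 / 2)) := by
      rw [Complex.norm_natCast_cpow_of_pos (by omega)]
      apply Real.rpow_le_rpow_of_exponent_le h1'
      simp
      linarith
    calc ‖a u‖ ≤ ‖-((t u.1 : ℂ) * (Ideal.absNorm u.1.asIdeal : ℂ) ^ (-s))‖ +
        ‖(Ideal.absNorm u.1.asIdeal : ℂ) ^ (1 - 2 * s)‖ := norm_add_le _ _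
      _ ≤ _ := by rw [norm_neg]; linarith
  have hsum : Summable fun u => ‖a u‖ := by
    refine Summable.of_nonneg_of_le (fun _ => norm_nonneg _) ha ?_
    exact ((mul_summable F (x := s.re - 1 / 2) (by linarith)).subtype T).mul_left 3
  have hb : Summable fun u => ‖(1 + a u)⁻¹ - 1‖ := by
    refine Summable.of_norm_bounded_eventually (g := fun u => 2 * ‖a u‖) (hsum.mul_left 2) ?_
    have h1 : ∀ᶠ u in Filter.cofinite, ‖a u‖ < 1 / 2 :=
      hsum.tendsto_cofinite_zero.eventually (gt_mem_nhds (by norm_num))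
    filter_upwards [h1] with u hu
    rw [norm_norm]
    have h2 : 1 / 2 ≤ ‖1 + a u‖ := by
      have h3 : ‖(1 : ℂ)‖ ≤ ‖1 + a u‖ + ‖a u‖ := by
        have := norm_sub_le (1 + a u) (a u)
        rwa [add_sub_cancel_right] at this
      rw [norm_one] at h3
      linarith
    have h3 : 1 + a u ≠ 0 := by
      intro h
      rw [h, norm_zero] at h2
      linarith
    have h4 : (1 + a u)⁻¹ - 1 = -(a u) / (1 + a u) := by
      field_simp
      ring
    rw [h4, norm_div, norm_neg, div_le_iff₀ (by linarith)]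
    nlinarith [norm_nonneg (a u)]
  have h5 := multipliable_one_add_of_summable hb
  refine h5.congr fun u => ?_
  show 1 + ((1 + (-((t u.1 : ℂ) * (Ideal.absNorm u.1.asIdeal : ℂ) ^ (-s)) +
      (Ideal.absNorm u.1.asIdeal : ℂ) ^ (1 - 2 * s)))⁻¹ - 1) = _
  rw [add_sub_cancel]
  congr 1
  ring

end Pool.Agent.H451.KF
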