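import Mathlib
import Pool.Agent.H451.KF.Stm

/-! KF-REP (helper800): determinants of representations of finite abelian groups. -/

set_option autoImplicit false

namespace Pool.Agent.H451.KF.REPx

open Module

/-- the restriction of a representation to an invariant subspace -/
noncomputable def resW {G : Type} [Group G] {V : Type} [AddCommGroup V] [Module ℂ V]
    (τ : Representation ℂ G V) (W : Submodule ℂ V) (hW : ∀ g, W ≤ W.comap (τ g)) :
    Representation ℂ G W where
  toFun g := (τ g).restrict (hW g)
  map_one' := by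
    ext x
    simp
  map_mul' g h := by
    ext x
    simp

/-- the representation on the quotient by an invariant subspace -/
noncomputable def quoW {G : Type} [Group G] {V : Type} [AddCommGroup V] [Module ℂ V]
    (τ : Representation ℂ G V) (W : Submodule ℂ V) (hW : ∀ g, W ≤ W.comap (τ g)) :
    Representation ℂ G (V ⧸ W) where
  toFun g := W.mapQ W (τ g) (hW g)
  map_one' := by
    ext x
    simp
  map_mul' g h := by
    ext x
    simp

lemma main_step {G : Type} [Group G] {V : Type} [AddCommGroup V] [Module ℂ V]
    [FiniteDimensional ℂ V] (τ : Representation ℂ G V) (W : Submodule ℂ V)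
    (hW : ∀ g, W ≤ W.comap (τ g)) (g : G) (x y : ℂ) :
    LinearMap.det (1 - x • τ g + y • (τ g * τ g)) =
      LinearMap.det (1 - x • resW τ W hW g + y • (resW τ W hW g * resW τ W hW g)) *
      LinearMap.det (1 - x • quoW τ W hW g + y • (quoW τ W hW g * quoW τ W hW g)) := by
  have h : W ≤ W.comap (1 - x • τ g + y • (τ g * τ g)) := by
    intro v hv
    have h1 : τ g v ∈ W := hW g hv
    have h2 : τ g (τ g v) ∈ W := hW g h1
    simp only [Submodule.mem_comap, LinearMap.add_apply, LinearMap.sub_apply, Module.End.one_apply,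
      LinearMap.smul_apply, Module.End.mul_apply]
    exact W.add_mem (W.sub_mem hv (W.smul_mem x h1)) (W.smul_mem y h2)
  rw [LinearMap.det_eq_det_mul_det W _ h]
  congr 2
  ext v
  rfl

theorem rep_main (G : Type) [Group G] [Finite G] (hG : ∀ g h : G, g * h = h * g) (N : ℕ) :
    ∀ (V : Type) [AddCommGroup V] [Module ℂ V] [FiniteDimensional ℂ V]
    (τ : Representation ℂ G V), finrank ℂ V = N →
  ∃ (n : ℕ) (χ : Fin n → G →* ℂˣ), ∀ (g : G) (x y : ℂ),
    LinearMap.det (1 - x • τ g + y • (τ g * τ g)) = ∏ i, (1 - x * χ i g + y * (χ i g) ^ 2) := by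
  induction N using Nat.strong_induction_on with
  | _ N ih =>
  intro V _ _ _ τ hN
  by_cases hs : ∀ g, ∃ c : ℂ, τ g = c • (1 : V →ₗ[ℂ] V)
  · rcases Nat.eq_zero_or_pos N with h0 | h0
    · refine ⟨0, fun i => i.elim0, fun g x y => ?_⟩
      subst h0
      have : Subsingleton V := finrank_zero_iff.mp hN
      rw [LinearMap.det_eq_one_of_subsingleton]
      simp
    · have : Nontrivial V := by
        apply nontrivial_of_finrank_pos (R := ℂ)
        omega
      obtain ⟨v, hv⟩ := exists_ne (0 : V)
      choose c hc using hs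
      have hinj : ∀ a b : ℂ, a • (1 : V →ₗ[ℂ] V) = b • (1 : V →ₗ[ℂ] V) → a = b := by
        intro a b hab
        have := congrArg (fun f : V →ₗ[ℂ] V => f v) hab
        simp only [LinearMap.smul_apply, Module.End.one_apply] at this
        exact smul_left_injective ℂ hv this
      have h1 : c 1 = 1 := by
        apply hinj
        rw [← hc, map_one, one_smul]
      have hm : ∀ g h, c (g * h) = c g * c h := by
        intro g h
        apply hinj
        rw [← hc, map_mul, hc, hc, smul_mul_smul_comm, one_mul]
      let ψ : G →* ℂ := { toFun := c, map_one' := h1, map_mul' := hm }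
      refine ⟨finrank ℂ V, fun _ => ψ.toHomUnits, fun g x y => ?_⟩
      have e1 : (1 - x • τ g + y • (τ g * τ g)) =
          (1 - x * c g + y * (c g) ^ 2) • (1 : V →ₗ[ℂ] V) := by
        rw [hc g, smul_mul_smul_comm, one_mul, smul_smul, smul_smul, add_smul, sub_smul, one_smul]
        congr 2
        ring
      rw [e1, LinearMap.det_smul, map_one, mul_one]
      simp [Finset.prod_const, ψ]
  · push Not at hs
    obtain ⟨g₀, hg₀⟩ := hs
    have hpos : 0 < finrank ℂ V := by
      rw [Nat.pos_iff_ne_zero]
      intro h0
      have : Subsingleton V := finrank_zero_iff.mp h0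
      exact hg₀ 0 (Subsingleton.elim _ _)
    have : Nontrivial V := nontrivial_of_finrank_pos (R := ℂ) hpos
    obtain ⟨μ, hμ⟩ := Module.End.exists_eigenvalue (τ g₀)
    set W : Submodule ℂ V := Module.End.eigenspace (τ g₀) μ with hWdef
    have hW : ∀ g, W ≤ W.comap (τ g) := by
      intro g v hv
      rw [Submodule.mem_comap]
      rw [hWdef, Module.End.mem_eigenspace_iff] at hv ⊢
      rw [← Module.End.mul_apply, ← map_mul, hG g₀ g, map_mul, Module.End.mul_apply, hv, map_smul]
    have hWbot : W ≠ ⊥ := hμ
    have hWtop : W ≠ ⊤ := by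
      intro htop
      apply hg₀ μ
      ext v
      have : v ∈ W := by rw [htop]; trivial
      rw [hWdef, Module.End.mem_eigenspace_iff] at this
      simpa using this
    have hlt1 : finrank ℂ W < N := by
      rw [← hN]
      exact Submodule.finrank_lt hWtop
    have hlt2 : finrank ℂ (V ⧸ W) < N := by
      have h3 := W.finrank_quotient_add_finrank
      have h4 : 0 < finrank ℂ W := by
        exact Submodule.one_le_finrank_iff.mpr hWbot
      omega
    obtain ⟨n1, χ1, h1⟩ := ih _ hlt1 W (resW τ W hW) rfl
    obtain ⟨n2, χ2, h2⟩ := ih _ hlt2 (V ⧸ W) (quoW τ W hW) rfl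
    refine ⟨n1 + n2, Fin.append χ1 χ2, fun g x y => ?_⟩
    rw [main_step τ W hW, h1, h2, Fin.prod_univ_add]
    congr 1
    · refine Finset.prod_congr rfl (fun i _ => ?_)
      rw [Fin.append_left]
    · refine Finset.prod_congr rfl (fun i _ => ?_)
      rw [Fin.append_right]

end Pool.Agent.H451.KF.REPx

namespace Pool.Agent.H451.KF

theorem t_REP : S_REP := by
  intro G _ _ hG V _ _ _ τ
  exact REPx.rep_main G hG _ V τ rfl

end Pool.Agent.H451.KF

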