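import Mathlib
import Pool.Agent.H451.KF.Stm

/-!
# KF-TR and KF-TRF: the traces of Frobenius at the primes of `K` and of `F` (helper561)
-/

set_option autoImplicit false

namespace Pool.Agent.H451.KF

open NumberField IsDedekindDomain
open Pool.Agent.H451.CubT (E nm_P)
open Pool.Agent.H451.BB
open Pool.Agent.Y703.CT
open Pool.Agent.Y696.CT
open Pool.Agent.Y696.CTK hiding toC_w
open Pool.Agent.Y692.QS hiding chi Jc Jc_nr chi_red chi_neg_one
open Pool.Agent.Y715.T.Rec (cs nn)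
open Pool.Agent.Y715.T.RecG (Pq)
open scoped Classical

/-- the trace of Frobenius at a prime of a number field over the prime `P` of `Ei` -/
lemma tr_gen {F : Type} [Field F] [NumberField F] (g : Ei →+* 𝓞 F) (d : Ei)
    (P : HeightOneSpectrum Ei) (h3 : ¬ Over3 P) (hd : ¬ rho P ∣ d) (u : HeightOneSpectrum (𝓞 F))
    (f : ℕ) (hg : ∀ x : Ei, g x ∈ u.asIdeal ↔ x ∈ P.asIdeal)
    (hn : (Ideal.absNorm u.asIdeal : ℤ) = nr (rho P) ^ f) :
    (tr (g d) u : ℂ) = xc d P ^ f + (starRingEnd ℂ) (xc d P) ^ f := by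
  have : u.asIdeal.IsMaximal := u.isMaximal
  let _ : Field (𝓞 F ⧸ u.asIdeal) := Ideal.Quotient.field u.asIdeal
  have : Finite (𝓞 F ⧸ u.asIdeal) := Ideal.finiteQuotientOfFreeOfNeBot u.asIdeal u.ne_bot
  let _ : Fintype (𝓞 F ⧸ u.asIdeal) := Fintype.ofFinite _
  have hcard : (Fintype.card (𝓞 F ⧸ u.asIdeal) : ℤ) = nr (rho P) ^ f := by
    rw [← hn, ← Nat.card_eq_fintype_card]
    rfl
  have hf : ∀ x, ((Ideal.Quotient.mk u.asIdeal).comp g) x = 0 ↔ rho P ∣ x := by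
    intro x
    rw [RingHom.comp_apply, Ideal.Quotient.eq_zero_iff_mem, hg, rho_span h3,
      Ideal.mem_span_singleton]
  have h1 := ec_zeros (rho_pq h3) hf hcard hd
  have h2 : xc d P = tw (-cs (rho P) d) * toC (rho P) := by
    unfold xc
    rw [if_neg (not_or.2 ⟨h3, hd⟩)]
  rw [h2]
  unfold tr
  have h4 : (Ideal.absNorm u.asIdeal : ℂ) = (Fintype.card (𝓞 F ⧸ u.asIdeal) : ℂ) := by
    rw [← Nat.card_eq_fintype_card]
    rfl
  push_cast
  rw [h4]
  have h5 : (Nat.card {p : (𝓞 F ⧸ u.asIdeal) × (𝓞 F ⧸ u.asIdeal) //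
      p.2 ^ 2 + Ideal.Quotient.mk u.asIdeal (g d) * p.2 = p.1 ^ 3} : ℂ) =
      (Fintype.card (𝓞 F ⧸ u.asIdeal) : ℂ) - ((tw (-cs (rho P) d) * toC (rho P)) ^ f +
        (starRingEnd ℂ) (tw (-cs (rho P) d) * toC (rho P)) ^ f) := h1
  rw [h5]
  ring

theorem t_TR : S_TR := by
  intro K _ _ _ j d P h3 hd
  have h0 : (eK j P) = pK j P := rfl
  refine ⟨?_, ?_⟩
  · unfold Np
    rw [← nm_P j P, h0]
    push_cast
    rfl
  · have h1 := tr_gen (j : Ei →+* 𝓞 K) d P h3 hd (eK j P) 1 (fun x => mem_pK j P x) (by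
      rw [h0, nm_P, rho_nr h3, pow_one])
    rw [pow_one, pow_one] at h1
    exact h1

theorem t_TRF : S_TRF := by
  intro K F _ _ _ _ _ _ j d P h3 hd u f hu hn
  have h0 : (eK j P) = pK j P := rfl
  refine tr_gen ((algebraMap (𝓞 K) (𝓞 F)).comp (j : Ei →+* 𝓞 K)) d P h3 hd u f (fun x => ?_) ?_
  · rw [← mem_pK j P x, ← h0, ← hu, Ideal.mem_comap]
    rfl
  · rw [hn, h0]
    push_cast
    rw [nm_P, rho_nr h3]

end Pool.Agent.H451.KF
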