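import Mathlib
import Pool.Agent.H451.BB.Fin4

/-!
# The general final theorem: families with all coefficients varying
-/

set_option autoImplicit false
set_option linter.unusedVariables false

namespace Pool.Agent.H451.KF

open NumberField IsDedekindDomain Finset
open scoped Classical

open Pool.Agent.Y692.QS (Ei w toC nr)
open Pool.Agent.Y715.T.RecG (Pq)
open Pool.Agent.H451.BB
open Pool.Agent.H451.JL (F sw nW GW)
open Pool.Agent.H451.JLM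
open Pool.Agent.H451.CubT
open Pool.Agent.Y703.XK (SS c9)

/-- the general theorem -/
theorem finalG (K : Type) [Field K] [NumberField K] [IsCyclotomicExtension {3} ℚ K]
    (j : Ei ≃+* 𝓞 K) (hj : ∀ z : Ei, Algebra.norm ℤ (j z) = nr z) (m k : ℕ) (hk : k ≠ 0)
    (m₁ : Fin m) (W : Fin k → Fin m → ZMod 3) (R : Set (Fin m → ℕ)) (hNP : NP W)
    (hR : ∃ r ∈ R, (∀ i, r i = 1 ∨ r i = 4 ∨ r i = 7) ∧ (∏ i, r i) % 9 ≠ 1)
    (Ad Q : (Fin m → 𝓞 K) → Prop)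
    (hAd : ∀ (S : Finset Ei) (μ : Ei → Fin m), (∀ π ∈ S, Pq π) →
      ((Ad fun i => j (fa S μ i)) ↔ CondM R μ S))
    (hQ : ∀ (S : Finset Ei) (μ : Ei → Fin m), (∀ π ∈ S, Pq π) → CondM R μ S →
      GW (wM W μ) S → Q fun i => j (fa S μ i)) :
    (∃ c : ℝ, 0 < c ∧ ∃ X₀ : ℕ, ∀ X : ℕ, X₀ ≤ X →
      c * X ≤ ∑ᶠ D ∈ {D : 𝓞 K | Algebra.norm ℤ D ≤ X ∧ Cls D}, share (m := m) Ad D) ∧
    (∃ X₀ : ℕ, ∀ X : ℕ, X₀ ≤ X →
      0.639 ^ k * ∑ᶠ D ∈ {D : 𝓞 K | Algebra.norm ℤ D ≤ X ∧ Cls D}, share (m := m) Ad D ≤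
      ∑ᶠ D ∈ {D : 𝓞 K | Algebra.norm ℤ D ≤ X ∧ Cls D},
        share (m := m) (fun a => Ad a ∧ Q a) D) ∧
    ∃ c : ℝ, 0 < c ∧ ∃ X₀ : ℕ, ∀ X : ℕ, X₀ ≤ X →
      c * X ≤ ({D : 𝓞 K | Algebra.norm ℤ D ≤ X ∧ Cls D ∧
        c ≤ share (m := m) (fun a => Ad a ∧ Q a) D}.ncard : ℝ) := by
  have hm0 : 0 < m := m₁.pos
  have hlim := t_DQ' _ m W m₁ R hNP hR
  obtain ⟨c, X₀, hc, hlow⟩ := t_LOW m m₁ R hR
  obtain ⟨-, c1, c2, c3, -⟩ := Pool.Agent.Y703.XL.t_C9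
  -- the sums
  have hadm : ∀ X : ℕ, ∑ᶠ D ∈ {D : 𝓞 K | Algebra.norm ℤ D ≤ X ∧ Cls D}, share (m := m) Ad D =
      ∑ S ∈ SS X, av m₁ S fun μ => CondM R μ S := by
    intro X
    rw [sum_share j hj m₁]
    refine sum_congr rfl fun S hS => ?_
    congr 1
    funext μ
    exact propext (hAd S μ (SS_Pq hS))
  have hbb : ∀ X : ℕ, ∑ S ∈ SS X, (av m₁ S fun μ => CondM R μ S ∧ GW (wM W μ) S) ≤
      ∑ᶠ D ∈ {D : 𝓞 K | Algebra.norm ℤ D ≤ X ∧ Cls D},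
        share (m := m) (fun a => Ad a ∧ Q a) D := by
    intro X
    rw [sum_share j hj m₁]
    refine sum_le_sum fun S hS => av_mono m₁ S fun μ hμ =>
      ⟨(hAd S μ (SS_Pq hS)).2 hμ.1, hQ S μ (SS_Pq hS) hμ.1 hμ.2⟩
  have hlt : (0.639 : ℝ) ^ k < c9 ^ k := pow_lt_pow_left₀ c3 (by norm_num) hk
  have hev := hlim.eventually (lt_mem_nhds hlt)
  obtain ⟨X₁, hX1⟩ := Filter.eventually_atTop.1 hev
  have hsec : ∃ X₀ : ℕ, ∀ X : ℕ, X₀ ≤ X →
      0.639 ^ k *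
        ∑ᶠ D ∈ {D : 𝓞 K | Algebra.norm ℤ D ≤ X ∧ Cls D}, share (m := m) Ad D ≤
      ∑ᶠ D ∈ {D : 𝓞 K | Algebra.norm ℤ D ≤ X ∧ Cls D},
        share (m := m) (fun a => Ad a ∧ Q a) D := by
    refine ⟨max X₀ (max X₁ 1), fun X hXX => ?_⟩
    have a1 : X₀ ≤ X := le_trans (le_max_left _ _) hXX
    have a2 : X₁ ≤ X := le_trans (le_trans (le_max_left _ _) (le_max_right _ _)) hXX
    have a3 : 1 ≤ X := le_trans (le_trans (le_max_right _ _) (le_max_right _ _)) hXX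
    have hpos : (0 : ℝ) < ∑ S ∈ SS X, av m₁ S fun μ => CondM R μ S := by
      refine lt_of_lt_of_le ?_ (hlow X a1)
      have : (1 : ℝ) ≤ X := by exact_mod_cast a3
      positivity
    have h7 := hX1 X a2
    rw [lt_div_iff₀ hpos] at h7
    rw [hadm X]
    exact h7.le.trans (hbb X)
  refine ⟨⟨c, hc, X₀, fun X hX => by rw [hadm X]; exact hlow X hX⟩, hsec, ?_⟩
  -- Markov's inequality
  obtain ⟨X₂, hX2⟩ := hsec
  obtain ⟨D₀, hD₀⟩ := Pool.Agent.Y474.XK.t_CNT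
  have hD1 := hD₀.one
  obtain ⟨p, hp⟩ : ∃ p : ℝ, p = 0.639 ^ k * c := ⟨_, rfl⟩
  have hp0 : 0 < p := by rw [hp]; positivity
  obtain ⟨q, hq⟩ : ∃ q : ℝ, q = p / (2 * D₀) := ⟨_, rfl⟩
  have hq0 : 0 < q := by rw [hq]; positivity
  have hqp : q ≤ p / 2 := by
    rw [hq]
    exact div_le_div_of_nonneg_left hp0.le (by norm_num) (by linarith)
  refine ⟨q, hq0, max X₀ (max X₂ 1), fun X hXX => ?_⟩
  have a1 : X₀ ≤ X := le_trans (le_max_left _ _) hXX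
  have a2 : X₂ ≤ X := le_trans (le_trans (le_max_left _ _) (le_max_right _ _)) hXX
  have a3 : 1 ≤ X := le_trans (le_trans (le_max_right _ _) (le_max_right _ _)) hXX
  have hXr : (0 : ℝ) ≤ X := Nat.cast_nonneg _
  obtain ⟨g, hg⟩ : ∃ g : Finset Ei → ℝ, g = fun S =>
      share (m := m) (fun a : Fin m → 𝓞 K => Ad a ∧ Q a) (j (∏ π ∈ S, π)) := ⟨_, rfl⟩
  have hsum : ∑ᶠ D ∈ {D : 𝓞 K | Algebra.norm ℤ D ≤ X ∧ Cls D},
        share (m := m) (fun a => Ad a ∧ Q a) D = ∑ S ∈ SS X, g S := by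
    rw [set_eq j hj X, finsum_mem_coe_finset, Finset.sum_image (inj_SS j X), hg]
  have hg1 : ∀ S ∈ SS X, g S ≤ 1 := by
    intro S hS
    rw [hg]
    show share _ _ ≤ 1
    rw [share_eq j m₁ (SS_Pq hS)]
    exact av_le_one _ _ _
  have h1 : p * X ≤ ∑ S ∈ SS X, g S := by
    rw [← hsum]
    refine le_trans ?_ (hX2 X a2)
    rw [hp, mul_assoc, hadm X]
    exact mul_le_mul_of_nonneg_left (hlow X a1) (by positivity)
  have h2 : ∑ S ∈ SS X, g S ≤ (((SS X).filter fun S => q ≤ g S).card : ℝ) + q * ((SS X).card : ℝ) := by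
    have h3 : ∑ S ∈ SS X, g S ≤ ∑ S ∈ SS X, ((if q ≤ g S then 1 else 0) + q) := by
      refine sum_le_sum fun S hS => ?_
      by_cases hqg : q ≤ g S
      · rw [if_pos hqg]
        have := hg1 S hS
        linarith
      · rw [if_neg hqg]
        push Not at hqg
        linarith
    refine h3.trans (le_of_eq ?_)
    rw [sum_add_distrib, sum_boole, sum_const, nsmul_eq_mul, mul_comm q]
  have h4 : ((SS X).card : ℝ) ≤ D₀ * X := hD₀.all X a3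
  have h5 : q * ((SS X).card : ℝ) ≤ p / 2 * X := by
    calc q * ((SS X).card : ℝ) ≤ q * (D₀ * X) := mul_le_mul_of_nonneg_left h4 hq0.le
      _ = p / 2 * X := by
        rw [hq]
        field_simp
  have h6 : {D : 𝓞 K | Algebra.norm ℤ D ≤ X ∧ Cls D ∧
        q ≤ share (m := m) (fun a => Ad a ∧ Q a) D} =
      ((((SS X).filter fun S => q ≤ g S).image fun S => j (∏ π ∈ S, π) : Finset (𝓞 K)) :
        Set (𝓞 K)) := by
    have h7 := set_eq j hj X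
    ext D
    have h8 : (Algebra.norm ℤ D ≤ X ∧ Cls D) ↔ ∃ S ∈ SS X, j (∏ π ∈ S, π) = D := by
      have h9 := Set.ext_iff.1 h7 D
      rw [Finset.mem_coe, Finset.mem_image, Set.mem_ofPred_eq] at h9
      exact h9
    rw [Finset.mem_coe, Finset.mem_image, Set.mem_ofPred_eq]
    constructor
    · rintro ⟨g1, g2, g3⟩
      obtain ⟨S, hS, rfl⟩ := h8.1 ⟨g1, g2⟩
      exact ⟨S, mem_filter.2 ⟨hS, by rw [hg]; exact g3⟩, rfl⟩
    · rintro ⟨S, hS, rfl⟩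
      rw [mem_filter] at hS
      have g1 := h8.2 ⟨S, hS.1, rfl⟩
      refine ⟨g1.1, g1.2, ?_⟩
      have g2 := hS.2
      rw [hg] at g2
      exact g2
  have h10 : (({D : 𝓞 K | Algebra.norm ℤ D ≤ X ∧ Cls D ∧
        q ≤ share (m := m) (fun a => Ad a ∧ Q a) D}.ncard : ℕ) : ℝ) =
      (((SS X).filter fun S => q ≤ g S).card : ℝ) := by
    rw [h6, Set.ncard_coe_finset, Finset.card_image_of_injOn]
    intro S hS S' hS' hss
    rw [Finset.mem_coe, mem_filter] at hS hS'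
    exact inj_SS j X (Finset.mem_coe.2 hS.1) (Finset.mem_coe.2 hS'.1) hss
  rw [h10]
  have h11 : q * X ≤ p / 2 * X := mul_le_mul_of_nonneg_right hqp hXr
  linarith

end Pool.Agent.H451.KF
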