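import Mathlib
import Pool.Agent.H451.KF.Stm
import Pool.Agent.H451.KF.FinG
import Pool.Agent.H451.JL.BASE

/-!
# The translation: weights and parameters of the twists `D β^l`
-/

set_option autoImplicit false
set_option linter.unusedVariables false

namespace Pool.Agent.H451.KF

open NumberField IsDedekindDomain Finset
open scoped Classical

open Pool.Agent.Y692.QS (Ei w toC nr)
open Pool.Agent.Y699.E (nrm nrm_cast nrm_mul nrm_one)
open Pool.Agent.Y715.T.RecG (Pq)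
open Pool.Agent.H451.BB
open Pool.Agent.H451.JL (F sw nW GW eD t_BASE)
open Pool.Agent.H451.JLM
open Pool.Agent.H451.CubT
open Pool.Agent.Y703.XK (SS c9)
open Pool.Agent.Y703.CT (Dt pD Ker)

section weights
variable {r : ℕ}

/-- the numbering of `𝔽₃ʳ` -/
noncomputable def nb (r : ℕ) : Fin (3 ^ r) ≃ (Fin r → ZMod 3) :=
  (Fintype.equivFinOfCardEq (by rw [Fintype.card_fun, ZMod.card, Fintype.card_fin])).symm

/-- the weights -/
noncomputable def WK (r : ℕ) (i : Fin (3 ^ r)) : Fin (r + 1) → F :=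
  Fin.cons (α := fun _ => F) 1 (nb r i)

lemma WK_zero (i : Fin (3 ^ r)) : WK r i 0 = 1 := rfl

lemma WK_succ (i : Fin (3 ^ r)) (l : Fin r) : WK r i l.succ = nb r i l := rfl

theorem WK_NP : NP (WK r) := by
  refine ⟨fun i => ⟨0, by rw [WK_zero]; exact one_ne_zero⟩, fun i l hil δ => ?_⟩
  by_contra hcon
  push Not at hcon
  have h1 := hcon 0
  rw [WK_zero, WK_zero, mul_one] at h1
  apply hil
  apply (nb r).injective
  funext x
  have h2 := hcon x.succ
  rwa [← h1, one_mul, WK_succ, WK_succ] at h2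

/-- the admissible residues -/
def RK (r : ℕ) : Set (Fin (r + 1) → ℕ) := {q | ¬ q 0 % 9 = 1 ∧ ∀ i : Fin r, q i.succ % 9 = 1}

theorem RK_mem : ∃ q ∈ RK r, (∀ i, q i = 1 ∨ q i = 4 ∨ q i = 7) ∧ (∏ i, q i) % 9 ≠ 1 := by
  refine ⟨Fin.cons (α := fun _ => ℕ) 4 fun _ => 1, ⟨by rw [Fin.cons_zero]; norm_num,
    fun i => by rw [Fin.cons_succ]⟩, fun i => ?_, ?_⟩
  · refine Fin.cases ?_ (fun i => ?_) i
    · rw [Fin.cons_zero]; right; left; rfl
    · rw [Fin.cons_succ]; left; rfl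
  · rw [Fin.prod_univ_succ, Fin.cons_zero]
    simp only [Fin.cons_succ, Finset.prod_const_one, mul_one]
    norm_num

theorem condK_iff {S : Finset Ei} (μ : Ei → Fin (r + 1)) : CondM (RK r) μ S ↔
    ¬ nrm (fa S μ 0) % 9 = 1 ∧ ∀ i : Fin r, nrm (fa S μ i.succ) % 9 = 1 := by
  have h1 : ∀ i, nrm (fa S μ i) = ∏ π ∈ S.filter (fun π => μ π = i), nrm π := fun i =>
    Pool.Agent.Y550.XK.NS.nrm_prod _
  unfold CondM RK
  rw [Set.mem_ofPred_eq]
  simp only [h1, Nat.mod_mod]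

theorem adm_iff {K : Type} [Field K] [NumberField K] [IsCyclotomicExtension {3} ℚ K]
    (j : Ei ≃+* 𝓞 K) (hj : ∀ z : Ei, Algebra.norm ℤ (j z) = nr z)
    {S : Finset Ei} (μ : Ei → Fin (r + 1)) :
    (AdmK fun i => j (fa S μ i)) ↔ CondM (RK r) μ S := by
  rw [condK_iff]
  unfold AdmK
  simp only [hj]
  rw [Pool.Agent.Y550.XK.NS.mod_iff]
  refine and_congr Iff.rfl (forall_congr' fun i => ?_)
  rw [Pool.Agent.Y550.XK.NS.mod_iff]

/-- the parameters of the twists -/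
theorem tw_eD {S : Finset Ei} (μ : Ei → Fin (r + 1)) (i : Fin (3 ^ r)) :
    fa S μ 0 * ∏ l : Fin r, fa S μ l.succ ^ (nb r i l).val = eD 1 (wM (WK r) μ i) S := by
  have h0 : fa S μ 0 * ∏ l : Fin r, fa S μ l.succ ^ (nb r i l).val =
      ∏ l, fa S μ l ^ (WK r i l).val := by
    rw [Fin.prod_univ_succ]
    simp only [WK_succ]
    rw [WK_zero, show ZMod.val (1 : F) = 1 from rfl, pow_one]
  rw [h0]
  have h1 : eD 1 (wM (WK r) μ i) S = ∏ π ∈ S, π ^ (WK r i (μ π)).val := by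
    unfold eD sw
    rw [Finset.prod_filter]
    refine Finset.prod_congr rfl fun π _ => ?_
    unfold wM
    by_cases h : WK r i (μ π) = 0
    · rw [if_neg (not_not.2 h), h, ZMod.val_zero, pow_zero]
    · rw [if_pos h, one_mul]
  rw [h1]
  have h2 : ∀ l, fa S μ l ^ (WK r i l).val =
      ∏ π ∈ S.filter (fun π => μ π = l), π ^ (WK r i (μ π)).val := by
    intro l
    unfold fa
    rw [← Finset.prod_pow]
    refine Finset.prod_congr rfl fun π hπ => ?_
    rw [(Finset.mem_filter.1 hπ).2]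
  rw [Finset.prod_congr rfl fun l _ => h2 l]
  exact Finset.prod_fiberwise S μ fun π => π ^ (WK r i (μ π)).val

lemma nr_mod {S : Finset Ei} {μ : Ei → Fin (r + 1)} (hc : CondM (RK r) μ S) (l : Fin r → ZMod 3) :
    ¬ (9 : ℤ) ∣ nr (fa S μ 0 * ∏ i : Fin r, fa S μ i.succ ^ (l i).val) - 1 := by
  rw [condK_iff] at hc
  rw [Pool.Agent.Y550.XK.NS.mod_iff, nrm_mul, Nat.mul_mod]
  have h1 : nrm (∏ i : Fin r, fa S μ i.succ ^ (l i).val) % 9 = 1 := by
    have h2 : ∀ s : Finset (Fin r), nrm (∏ i ∈ s, fa S μ i.succ ^ (l i).val) % 9 = 1 := by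
      intro s
      induction s using Finset.induction_on with
      | empty => rw [Finset.prod_empty, nrm_one]
      | insert i s hi ih =>
        rw [Finset.prod_insert hi, nrm_mul, Nat.mul_mod, ih, nrm_pow', Nat.pow_mod, hc.2 i,
          one_pow]
        norm_num
    exact h2 _
  rw [h1, mul_one, Nat.mod_mod]
  exact hc.1

/-- the basic parameters -/
theorem basic {S : Finset Ei} (hS : ∀ π ∈ S, Pq π) {μ : Ei → Fin (r + 1)}
    (hc : CondM (RK r) μ S) (hG : GW (wM (WK r) μ) S) (l : Fin r → ZMod 3) :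
    ∃ (n : ℕ) (π : Fin (n + 1) → Ei) (e : Fin (n + 1) → ZMod 3), Dt π e ∧ Ker π e ∧
      ¬ (9 : ℤ) ∣ nr (pD π e) - 1 ∧
      fa S μ 0 * ∏ i : Fin r, fa S μ i.succ ^ (l i).val = pD π e := by
  obtain ⟨i, rfl⟩ := (nb r).surjective l
  have h9 := nr_mod hc (nb r i)
  rw [tw_eD] at h9 ⊢
  rcases t_BASE S (wM (WK r) μ i) 1 hS one_ne_zero (hG i) h9 with h | ⟨n, π, e, h1, h2, h3, h4⟩
  · exfalso
    apply h9
    rw [h]
    have : nr (1 : Ei) = 1 := by decide
    rw [this, sub_self]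
    exact dvd_zero _
  · exact ⟨n, π, e, h1, h2, h3, h4⟩

lemma fa_ne {S : Finset Ei} (hS : ∀ π ∈ S, Pq π) (μ : Ei → Fin (r + 1)) (i : Fin (r + 1)) :
    fa S μ i ≠ 0 := by
  intro h1
  unfold fa at h1
  rw [Finset.prod_eq_zero_iff] at h1
  obtain ⟨π, h2, h3⟩ := h1
  exact (hS π (Finset.mem_filter.1 h2).1).prime.ne_zero h3

end weights

end Pool.Agent.H451.KF
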