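import Mathlib
import Pool.Agent.H451.KF.Asm2
import Pool.Agent.H451.KF.Tr
import Pool.Agent.H451.KF.GAL
import Pool.Agent.H451.KF.HL
import Pool.Agent.H451.KF.TR
import Pool.Agent.H451.KF.EXF
import Pool.Agent.H451.KF.FRB
import Pool.Agent.H451.KF.REP
import Pool.Agent.H451.KF.CHR
import Pool.Agent.H451.KF.MUL
import Pool.Agent.H451.KF.LOC

/-!
# Assembly: the Kummer extensions
-/

set_option autoImplicit false
set_option linter.unusedVariables false
set_option linter.unusedSectionVars false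

namespace Pool.Agent.H451.KF

open NumberField IsDedekindDomain
open Pool.Agent.H451.CubT (E Cls Fac share fa E_ED)
open Pool.Agent.H451.BB
open Pool.Agent.Y703.CT
open Pool.Agent.Y696.CT
open Pool.Agent.Y696.CTK hiding toC_w
open Pool.Agent.Y692.QS hiding chi Jc Jc_nr chi_red chi_neg_one
open Pool.Agent.Y715.T.Rec (cs nn)
open Pool.Agent.Y715.T.RecG (Pq)
open Pool.Agent.H451.JL (GW)
open Pool.Agent.H451.JLM
open scoped Classical

section kum
variable {K : Type} [Field K] [NumberField K] [IsCyclotomicExtension {3} ℚ K] (j : Ei ≃+* 𝓞 K)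

theorem kum_all (hPTS : S_PTS) (hLCH : S_LCH) {r : ℕ} {d : Ei} {b : Fin r → Ei} (hd : d ≠ 0)
    (hb : ∀ i, b i ≠ 0)
    (hbas : ∀ l : Fin r → ZMod 3, ∃ (n : ℕ) (π : Fin (n + 1) → Ei) (e : Fin (n + 1) → ZMod 3)
      (c : Ei), Dt π e ∧ Ker π e ∧ ¬ (9 : ℤ) ∣ nr (pD π e) - 1 ∧ c ≠ 0 ∧
      d * ∏ i, b i ^ (l i).val = c ^ 3 * pD π e)
    (F : Type) [Field F] [NumberField F] [Algebra K F] (hF : IsKummer (fun i => j (b i)) F) :
    RankZero (j d) (fun i => j (b i)) F ∧ EquivariantRankZero (j d) (fun i => j (b i)) F := by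
  obtain ⟨θ, hθ, hadj⟩ := hF
  have hI : ((j w : 𝓞 K) : K) ^ 2 + ((j w : 𝓞 K) : K) + 1 = 0 := by
    have hww : (w : Ei) ^ 2 + w + 1 = 0 := by decide
    have h1 : (j w) ^ 2 + j w + 1 = 0 := by
      rw [← map_pow, ← map_one j, ← map_add, ← map_add, hww, map_zero]
    exact_mod_cast congrArg (algebraMap (𝓞 K) K) h1
  have hne : ∀ x : Ei, x ≠ 0 → ((j x : 𝓞 K) : K) ≠ 0 := by
    intro x hx h
    have h1 : j x = 0 := by exact_mod_cast h
    exact hx ((map_eq_zero_iff j j.injective).1 h1)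
  obtain ⟨hfd, hgal, c, hcm, hci, hcθ⟩ := t_GAL K F _ hI r (fun i => ((j (b i) : 𝓞 K) : K)) θ
    (fun i => hne _ (hb i)) hθ hadj
  have hfin : Finite (E (algebraMap K F ((j d : 𝓞 K) : K))).toAffine.Point := by
    refine hPTS K F _ hI r (fun i => ((j (b i) : 𝓞 K) : K)) θ c (fun i => hne _ (hb i)) hθ hcm hci
      hcθ ((j d : 𝓞 K) : K) (hne d hd) fun l => ?_
    obtain ⟨n, π, e, c', h1, h2, h3, hc', h4⟩ := hbas l
    have h5 : ((j d : 𝓞 K) : K) * ∏ i, ((j (b i) : 𝓞 K) : K) ^ (l i).val =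
        ((j c' : 𝓞 K) : K) ^ 3 * ((j (pD π e) : 𝓞 K) : K) := by
      have h6 : j d * ∏ i, j (b i) ^ (l i).val = j c' ^ 3 * j (pD π e) := by
        rw [← map_pow, ← map_mul, ← h4, map_mul, map_prod]
        simp only [map_pow]
      have h7 := congrArg (algebraMap (𝓞 K) K) h6
      simp only [map_mul, map_prod, map_pow] at h7
      exact h7
    obtain ⟨-, -, k1, k2⟩ := base_all j (Or.inr ⟨n, π, e, h1, h2, h3, rfl⟩)
    exact fin_twist (hne c' hc') (hne _ k1) h5 k2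
  have hL : ∀ l : Fin r → ZMod 3, ∃ L : ℂ → ℂ, Differentiable ℂ L ∧ L 1 ≠ 0 ∧
      ∀ s : ℂ, 3 / 2 < s.re →
      HasProd (fun P : {P : HeightOneSpectrum Ei // P ∈ TT d b} => (cfac d b l P.1 s)⁻¹) (L s) := by
    refine hLCH r d b (TT d b) (fun P hP => hP) fun l => ?_
    obtain ⟨n, π, e, c', h1, h2, h3, hc', h4⟩ := hbas l
    obtain ⟨H, k1, k2, k3⟩ := t_HL n π e h1 h2 h3 _ (TT_cofin hd hb)
    refine ⟨H, k1, k2, fun s hs => (k3 s hs).congr_fun fun P => ?_⟩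
    obtain ⟨P, g1, g2, g3⟩ := P
    have g4 : ¬ rho P ∣ d * ∏ i, b i ^ (l i).val := by
      have hp := (rho_pq g1).prime
      intro h
      rcases hp.dvd_or_dvd h with h | h
      · exact g2 h
      · obtain ⟨i, -, hi⟩ := (hp.dvd_finsetProd_iff _).1 h
        exact g3 i (hp.dvd_of_dvd_pow hi)
    have g5 := xc_cube (D := d * ∏ i, b i ^ (l i).val) (d := pD π e) (b := 1) (c := c') (P := P) g1
      (pD_cube h1 _ (rho_pq g1).prime) one_ne_zero hc' (by rw [one_pow, one_mul]; exact h4) g4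
    show (1 - xc (d * ∏ i, b i ^ (l i).val) P * Np P ^ (-s))⁻¹ = _
    rw [g5]
  have hG : Finite (F ≃ₐ[K] F) := inferInstance
  refine ⟨⟨hfin, rz_main j t_TR t_TRF t_EXF t_FRB t_UNR t_CHR t_LOC t_MUL hθ hcm hci hcθ hL⟩,
    hfin, fun v => t_EXF K F v, ?_⟩
  intro V _ _ _ τ σ hσ
  exact rep_main j t_TR t_FRB t_REP t_CHR hθ hcm hci hcθ hL V τ σ hσ

end kum

end Pool.Agent.H451.KF
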