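import Mathlib
import Pool.Agent.H451.KF.Stm

/-!
# KF-LCH: the twisted `L`-functions from the half `L`-functions
-/

set_option autoImplicit false
set_option linter.unusedVariables false

namespace Pool.Agent.H451.KF

open NumberField IsDedekindDomain
open Pool.Agent.H451.BB
open Pool.Agent.Y703.CT
open Pool.Agent.Y696.CT
open Pool.Agent.Y696.CTK hiding toC_w
open Pool.Agent.Y692.QS hiding chi Jc Jc_nr chi_red chi_neg_one
open Pool.Agent.Y715.T.Rec (cs nn)
open Pool.Agent.Y715.T.RecG (Pq)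
open scoped Classical

lemma lch_w_norm : toC w * (starRingEnd ℂ) (toC w) = 1 := by
  rw [Complex.mul_conj, toC_normSq]
  have : nr w = 1 := by decide
  rw [this]
  norm_num

lemma lch_conj_tw (k : ZMod 3) : (starRingEnd ℂ) (tw k) = tw (-k) := by
  have h1 : tw k * (starRingEnd ℂ) (tw k) = 1 := by
    unfold tw
    rw [map_pow, ← mul_pow, lch_w_norm, one_pow]
  exact mul_left_cancel₀ (tw_ne k) (by rw [h1, tw_neg])

lemma lch_xc {r : ℕ} (d : Ei) (b : Fin r → Ei) (P : HeightOneSpectrum Ei) (h3 : ¬ Over3 P)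
    (hd : ¬ rho P ∣ d) (hb : ∀ i, ¬ rho P ∣ b i) (l : Fin r → ZMod 3) :
    xc (d * ∏ i, b i ^ (l i).val) P = tw (-∑ i, l i * cs (rho P) (b i)) * xc d P := by
  have hpq := rho_pq h3
  have hpr := hpq.prime
  have hbi : ∀ i, ¬ rho P ∣ b i ^ (l i).val := fun i h => hb i (hpr.dvd_of_dvd_pow h)
  have hprod : ¬ rho P ∣ ∏ i, b i ^ (l i).val := by
    intro h
    obtain ⟨i, _, hi⟩ := hpr.exists_mem_finset_dvd h
    exact hbi i hi
  have hall : ¬ rho P ∣ d * ∏ i, b i ^ (l i).val := by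
    intro h
    rcases hpr.dvd_or_dvd h with h | h
    · exact hd h
    · exact hprod h
  have hcs : cs (rho P) (d * ∏ i, b i ^ (l i).val) =
      cs (rho P) d + ∑ i, l i * cs (rho P) (b i) := by
    rw [Pool.Agent.Y715.T.RecG.cs_mul hpr hpq.norm hd hprod,
      Pool.Agent.Y715.T.RecG.cs_prod hpr hpq.norm _ _ (fun i _ => hbi i)]
    congr 1
    refine Finset.sum_congr rfl fun i _ => ?_
    rw [Pool.Agent.Y715.T.RecG.cs_pow hpr hpq.norm (hb i), ZMod.natCast_zmod_val]
  unfold xc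
  rw [if_neg (by rintro (h | h) <;> contradiction), if_neg (by rintro (h | h) <;> contradiction),
    hcs, neg_add, BB.tw_add]
  ring

lemma lch_np (P : HeightOneSpectrum Ei) (s : ℂ) :
    Np P * (Np P ^ (-s)) ^ 2 = Np P ^ (1 - 2 * s) := by
  have h0 : Np P ≠ 0 := by
    unfold Np
    have := np_two P
    have h : nr (gn P.asIdeal) ≠ 0 := by omega
    exact_mod_cast h
  rw [Complex.cpow_sub _ _ h0, Complex.cpow_one, show (2 : ℂ) * s = s + s by ring,
    Complex.cpow_add _ _ h0, Complex.cpow_neg]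
  have hs : Np P ^ s ≠ 0 := by
    rw [Complex.cpow_def_of_ne_zero h0]; exact Complex.exp_ne_zero _
  field_simp

theorem t_LCH : S_LCH := by
  intro r d b T hT hHL l
  obtain ⟨H1, hd1, hn1, hp1⟩ := hHL l
  obtain ⟨H2, hd2, hn2, hp2⟩ := hHL (-l)
  refine ⟨fun s => H1 s * (starRingEnd ℂ) (H2 ((starRingEnd ℂ) s)), ?_, ?_, ?_⟩
  · refine hd1.mul ?_
    intro s
    have h1 := (hd2 ((starRingEnd ℂ) s)).conj_conj
    rw [Complex.conj_conj] at h1
    exact h1
  · simp only [map_one]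
    exact mul_ne_zero hn1 ((map_ne_zero _).2 hn2)
  · intro s hs
    have hsc : 3 / 2 < ((starRingEnd ℂ) s).re := by rwa [Complex.conj_re]
    have h3 := hp1 s hs
    have h4 := (hp2 _ hsc).map (starRingEnd ℂ) Complex.continuous_conj
    refine (h3.mul h4).congr_fun fun P => ?_
    obtain ⟨hP3, hPd, hPb⟩ := hT P.1 P.2
    rw [Function.comp_apply, lch_xc d b P.1 hP3 hPd hPb, lch_xc d b P.1 hP3 hPd hPb, map_inv₀,
      map_sub, map_one, map_mul, conj_np, map_neg, Complex.conj_conj, map_mul, lch_conj_tw,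
      ← mul_inv]
    congr 1
    have e1 : (-∑ i, (-l) i * cs (rho P.1) (b i)) = ∑ i, l i * cs (rho P.1) (b i) := by
      rw [← Finset.sum_neg_distrib]
      refine Finset.sum_congr rfl fun i _ => ?_
      rw [Pi.neg_apply, neg_mul, neg_neg]
    rw [e1, ← lch_np P.1 s, ← xc_sq hP3 hPd]
    ring

end Pool.Agent.H451.KF
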