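import Mathlib
import Pool.Agent.H451.KF.Stm
import Pool.Graph.R_seed8.Y710.CTE.MwfA

/-!
# KF-PTS: the points over a Kummer extension (helper685)
-/

set_option autoImplicit false
set_option linter.unusedSectionVars false
set_option linter.unusedVariables false

namespace Pool.Agent.H451.KF.PTS

open WeierstrassCurve

open scoped Classical

section curve

variable {F : Type} [Field F]

/-- the curve `y² + d y = x³` -/
structure IsE (V : WeierstrassCurve F) (d : F) : Prop where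
  h1 : V.a₁ = 0
  h2 : V.a₂ = 0
  h3 : V.a₃ = d
  h4 : V.a₄ = 0
  h6 : V.a₆ = 0
  h0 : d ≠ 0

variable {V : WeierstrassCurve F} {d : F} (hV : IsE V d)

include hV

lemma IsE.eqn (x y : F) : V.toAffine.Equation x y ↔ y ^ 2 + d * y = x ^ 3 := by
  rw [Affine.equation_iff]
  show y ^ 2 + V.a₁ * x * y + V.a₃ * y = x ^ 3 + V.a₂ * x ^ 2 + V.a₄ * x + V.a₆ ↔ _
  rw [hV.h1, hV.h2, hV.h3, hV.h4, hV.h6]
  constructor
  · intro h; linear_combination h
  · intro h; linear_combination h

lemma IsE.negY (x y : F) : V.toAffine.negY x y = -y - d := by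
  show -y - V.a₁ * x - V.a₃ = -y - d
  rw [hV.h1, hV.h3]
  ring

variable [CharZero F]

lemma IsE.nons {x y : F} (he : y ^ 2 + d * y = x ^ 3) : V.toAffine.Nonsingular x y := by
  rw [Affine.nonsingular_iff]
  refine ⟨(hV.eqn x y).2 he, ?_⟩
  by_cases hy : 2 * y + d = 0
  · left
    show V.a₁ * y ≠ 3 * x ^ 2 + 2 * V.a₂ * x + V.a₄
    rw [hV.h1, hV.h2, hV.h4]
    intro h3
    have h4 : x ^ 2 = 0 := by
      have h5 : (3 : F) * x ^ 2 = 0 := by linear_combination -h3
      exact (mul_eq_zero.1 h5).resolve_left three_ne_zero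
    have hx : x = 0 := pow_eq_zero_iff two_ne_zero |>.1 h4
    subst hx
    have h5 : d ^ 2 = 0 := by linear_combination -4 * he + (2 * y + d) * hy
    exact hV.h0 (pow_eq_zero_iff two_ne_zero |>.1 h5)
  · right
    show y ≠ -y - V.a₁ * x - V.a₃
    rw [hV.h1, hV.h3]
    intro h5
    apply hy
    linear_combination h5

/-- the addition law -/
lemma IsE.add_ex {x1 y1 x2 y2 : F} (h1 : V.toAffine.Nonsingular x1 y1)
    (h2 : V.toAffine.Nonsingular x2 y2) (hxy : ¬ (x1 = x2 ∧ y1 = -y2 - d)) :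
    ∃ (ℓ X Y : F) (h : V.toAffine.Nonsingular X Y),
      (Affine.Point.some x1 y1 h1 : V.toAffine.Point) + .some x2 y2 h2 = .some X Y h ∧
      X = ℓ ^ 2 - x1 - x2 ∧ Y = -(ℓ * (X - x1) + y1) - d ∧
      ((x1 ≠ x2 ∧ ℓ * (x1 - x2) = y1 - y2) ∨
        (x1 = x2 ∧ y1 = y2 ∧ 2 * y1 + d ≠ 0 ∧ ℓ * (2 * y1 + d) = 3 * x1 ^ 2)) := by
  have hxy' : ¬ (x1 = x2 ∧ y1 = V.toAffine.negY x2 y2) := by rwa [hV.negY]
  refine ⟨V.toAffine.slope x1 x2 y1 y2, _, _, _, Affine.Point.add_some hxy', ?_, ?_, ?_⟩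
  · show _ ^ 2 + V.a₁ * _ - V.a₂ - x1 - x2 = _
    rw [hV.h1, hV.h2]
    ring
  · show -(_ * (_ ^ 2 + V.a₁ * _ - V.a₂ - x1 - x2 - x1) + y1) - V.a₁ * _ - V.a₃ =
      -(_ * ((_ ^ 2 + V.a₁ * _ - V.a₂ - x1 - x2) - x1) + y1) - d
    rw [hV.h1, hV.h3]
    ring
  · by_cases hx : x1 = x2
    · right
      subst hx
      have hy : y1 ≠ -y2 - d := fun h => hxy ⟨rfl, h⟩
      have e1 := (hV.eqn _ _).1 h1.1
      have e2 := (hV.eqn _ _).1 h2.1
      have e3 : (y1 - y2) * (y1 + y2 + d) = 0 := by linear_combination e1 - e2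
      have e4 : y1 + y2 + d ≠ 0 := fun h => hy (by linear_combination h)
      have e5 : y1 = y2 := by
        have := (mul_eq_zero.1 e3).resolve_right e4
        linear_combination this
      subst e5
      have e6 : 2 * y1 + d ≠ 0 := by
        intro h
        apply e4
        linear_combination h
      refine ⟨rfl, rfl, e6, ?_⟩
      have hY : y1 ≠ V.toAffine.negY x1 y1 := by rwa [hV.negY]
      rw [Affine.slope_of_Y_ne rfl hY, hV.negY]
      show (3 * x1 ^ 2 + 2 * V.a₂ * x1 + V.a₄ - V.a₁ * y1) / (y1 - (-y1 - d)) * (2 * y1 + d) = _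
      rw [hV.h1, hV.h2, hV.h4]
      have e7 : y1 - (-y1 - d) ≠ 0 := by
        intro h
        apply e4
        linear_combination h
      rw [div_mul_eq_mul_div, div_eq_iff e7]
      ring
    · left
      refine ⟨hx, ?_⟩
      rw [Affine.slope_of_X_ne hx, div_mul_cancel₀ _ (sub_ne_zero.2 hx)]

/-- opposite points -/
lemma IsE.add_opp {x1 y1 x2 y2 : F} (h1 : V.toAffine.Nonsingular x1 y1)
    (h2 : V.toAffine.Nonsingular x2 y2) (hxy : x1 = x2 ∧ y1 = -y2 - d) :
    (Affine.Point.some x1 y1 h1 : V.toAffine.Point) + .some x2 y2 h2 = 0 :=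
  Affine.Point.add_of_Y_eq hxy.1 (by rw [hV.negY]; exact hxy.2)

lemma IsE.neg_nons {x y : F} (h : V.toAffine.Nonsingular x y) :
    V.toAffine.Nonsingular x (-y - d) := by
  apply hV.nons
  have := (hV.eqn _ _).1 h.1
  linear_combination this

lemma IsE.neg_eq {x y : F} (h : V.toAffine.Nonsingular x y)
    (h' : V.toAffine.Nonsingular x (-y - d)) :
    -(Affine.Point.some x y h : V.toAffine.Point) = .some x (-y - d) h' := by
  rw [Affine.Point.neg_some]
  congr 1
  exact hV.negY x y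

variable {I : F} (hI : I ^ 2 + I + 1 = 0)

include hI

lemma I_cube : I ^ 3 = 1 := by linear_combination (I - 1) * hI

lemma I_ne : I ≠ 0 := by
  rintro rfl
  have : (1 : F) = 0 := by linear_combination hI
  exact one_ne_zero this

lemma one_sub_ne : 1 - I ≠ 0 := by
  intro h
  have h3 : (3 : F) = 0 := by linear_combination hI + (I + 2) * h
  exact three_ne_zero h3

lemma IsE.im_nons {x y : F} (h : V.toAffine.Nonsingular x y) :
    V.toAffine.Nonsingular (I * x) y := by
  apply hV.nons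
  have := (hV.eqn _ _).1 h.1
  have h3 := I_cube hV hI
  rw [mul_pow, h3, one_mul]
  exact this

/-- multiplication by the root of unity, as a map -/
def imf : V.toAffine.Point → V.toAffine.Point
  | 0 => 0
  | .some x y h => .some (I * x) y (hV.im_nons hI h)

lemma imf_some {x y : F} (h : V.toAffine.Nonsingular x y) :
    imf hV hI (.some x y h) = .some (I * x) y (hV.im_nons hI h) := rfl

lemma imf_add (P Q : V.toAffine.Point) :
    imf hV hI (P + Q) = imf hV hI P + imf hV hI Q := by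
  have hI0 := I_ne hV hI
  have hI3 := I_cube hV hI
  rcases P with _ | ⟨x1, y1, h1⟩
  · show imf hV hI (0 + Q) = 0 + _
    rw [zero_add, zero_add]
  rcases Q with _ | ⟨x2, y2, h2⟩
  · show imf hV hI (_ + 0) = _ + 0
    rw [add_zero, add_zero]
  by_cases hxy : x1 = x2 ∧ y1 = -y2 - d
  · rw [hV.add_opp h1 h2 hxy, imf_some, imf_some, hV.add_opp]
    · rfl
    · rw [hxy.1, hxy.2]
      exact ⟨rfl, rfl⟩
  · obtain ⟨ℓ, X, Y, h, e, eX, eY, hs⟩ := hV.add_ex h1 h2 hxy
    have hxy' : ¬ (I * x1 = I * x2 ∧ y1 = -y2 - d) := by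
      rintro ⟨h3, h4⟩
      exact hxy ⟨mul_left_cancel₀ hI0 h3, h4⟩
    obtain ⟨m, X', Y', h', e', eX', eY', hs'⟩ :=
      hV.add_ex (hV.im_nons hI h1) (hV.im_nons hI h2) hxy'
    have hm : m = I ^ 2 * ℓ := by
      rcases hs with ⟨g1, g2⟩ | ⟨g1, g2, g3, g4⟩
      · rcases hs' with ⟨g1', g2'⟩ | ⟨g1', -⟩
        · have h3 : (x1 - x2) * I ≠ 0 := mul_ne_zero (sub_ne_zero.2 g1) hI0
          apply mul_right_cancel₀ h3
          linear_combination g2' - g2 - ℓ * (x1 - x2) * hI3
        · exact absurd (mul_left_cancel₀ hI0 g1') g1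
      · rcases hs' with ⟨g1', -⟩ | ⟨g1', g2', g3', g4'⟩
        · exact absurd (by rw [g1]) g1'
        · apply mul_right_cancel₀ g3
          linear_combination g4' - I ^ 2 * g4
    rw [e, imf_some, imf_some, imf_some, e']
    have hX : I * X = X' := by
      rw [eX, eX', hm]
      linear_combination (-ℓ ^ 2 * I) * hI3
    have hY : Y = Y' := by
      rw [eY, eY', ← hX, hm]
      linear_combination (ℓ * (X - x1)) * hI3
    rw [Affine.Point.some.injEq]
    exact ⟨hX, hY⟩

/-- multiplication by the root of unity -/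
def im : V.toAffine.Point →+ V.toAffine.Point where
  toFun := imf hV hI
  map_zero' := rfl
  map_add' := imf_add hV hI

lemma im_some {x y : F} (h : V.toAffine.Nonsingular x y) :
    im hV hI (.some x y h) = .some (I * x) y (hV.im_nons hI h) := rfl

omit hI in
lemma T0_nons : V.toAffine.Nonsingular 0 0 := hV.nons (by ring)

omit hI in
lemma T1_nons : V.toAffine.Nonsingular 0 (-d) := hV.nons (by ring)

/-- the kernel of `1 - ω` -/
lemma ker_im {P : V.toAffine.Point} (h : P - im hV hI P = 0) :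
    P = 0 ∨ P = .some 0 0 (T0_nons hV) ∨ P = .some 0 (-d) (T1_nons hV) := by
  rcases P with _ | ⟨x, y, hn⟩
  · left
    rfl
  · right
    have h1 := sub_eq_zero.1 h
    rw [im_some, Affine.Point.some.injEq] at h1
    have h2 : (1 - I) * x = 0 := by linear_combination h1.1
    have hx : x = 0 := (mul_eq_zero.1 h2).resolve_left (one_sub_ne hV hI)
    subst hx
    have h3 := (hV.eqn _ _).1 hn.1
    have hy : y * (y + d) = 0 := by linear_combination h3
    rcases mul_eq_zero.1 hy with hy | hy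
    · left
      subst hy
      rfl
    · right
      rw [Affine.Point.some.injEq]
      exact ⟨rfl, by linear_combination hy⟩

/-- the sum of the conjugates -/
lemma im_im (P : V.toAffine.Point) : im hV hI (im hV hI P) = -P - im hV hI P := by
  have hI0 := I_ne hV hI
  have hI3 := I_cube hV hI
  have h1I := one_sub_ne hV hI
  rcases P with _ | ⟨x, y, h⟩
  · show im hV hI (im hV hI 0) = -0 - im hV hI 0
    rw [map_zero, map_zero, neg_zero, sub_zero]
  have he := (hV.eqn _ _).1 h.1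
  have key : (Affine.Point.some x y h : V.toAffine.Point) + im hV hI (.some x y h) =
      -(im hV hI (im hV hI (.some x y h))) := by
    rw [im_some, im_some, hV.neg_eq _ (hV.neg_nons (hV.im_nons hI (hV.im_nons hI h)))]
    by_cases hx : x = 0
    · subst hx
      have hy : y * (y + d) = 0 := by linear_combination he
      have hxy : ¬ ((0 : F) = I * 0 ∧ y = -y - d) := by
        rintro ⟨-, h3⟩
        have h4 : d ^ 2 = 0 := by linear_combination -4 * hy + (2 * y + d) * h3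
        exact hV.h0 (pow_eq_zero_iff two_ne_zero |>.1 h4)
      obtain ⟨ℓ, X, Y, h', e, eX, eY, hs⟩ := hV.add_ex h (hV.im_nons hI h) hxy
      rw [e, Affine.Point.some.injEq]
      have hℓ : ℓ = 0 := by
        rcases hs with ⟨k1, -⟩ | ⟨-, -, k2, k3⟩
        · exact absurd (by ring) k1
        · have h5 : ℓ * (2 * y + d) = 0 := by rw [k3]; ring
          exact (mul_eq_zero.1 h5).resolve_right k2
      rw [eY, eX, hℓ]
      exact ⟨by ring, by ring⟩
    · have hxI : x ≠ I * x := by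
        intro h3
        have h4 : (1 - I) * x = 0 := by linear_combination h3
        exact mul_ne_zero h1I hx h4
      have hxy : ¬ (x = I * x ∧ y = -y - d) := fun h => hxI h.1
      obtain ⟨ℓ, X, Y, h', e, eX, eY, hs⟩ := hV.add_ex h (hV.im_nons hI h) hxy
      rw [e, Affine.Point.some.injEq]
      have hℓ : ℓ = 0 := by
        rcases hs with ⟨-, k1⟩ | ⟨k1, -⟩
        · have h5 : ℓ * (x - I * x) = 0 := by rw [k1]; ring
          exact (mul_eq_zero.1 h5).resolve_right (sub_ne_zero.2 hxI)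
        · exact absurd k1 hxI
      rw [eY, eX, hℓ]
      exact ⟨by linear_combination (-x) * hI, by ring⟩
  have h2 := congrArg (fun Q => -Q) key
  simp only [neg_neg] at h2
  rw [← h2]
  abel

end curve

section group

variable {G : Type} [AddCommGroup G]

/-- powers with exponents modulo three -/
def pw (A : AddMonoid.End G) (k : ZMod 3) : AddMonoid.End G := A ^ k.val

theorem pw_zero (A : AddMonoid.End G) : pw A 0 = 1 := by
  unfold pw
  rw [ZMod.val_zero, pow_zero]

theorem pw_add {A : AddMonoid.End G} (h3 : A ^ 3 = 1) (j k : ZMod 3) :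
    pw A (j + k) = pw A j * pw A k := by
  unfold pw
  rw [← pow_add, ZMod.val_add]
  exact (pow_eq_pow_mod _ h3).symm

theorem pw_sum {A : AddMonoid.End G} (h : 1 + A + A ^ 2 = 0) (k : ZMod 3) (hk : k ≠ 0) :
    ∑ t : ZMod 3, pw A (-(t * k)) = 0 := by
  have hF : ∀ g : ZMod 3 → AddMonoid.End G, ∑ t, g t = g 0 + g 1 + g 2 := fun g =>
    Fin.sum_univ_three g
  rw [hF]
  have h0 : pw A 0 = 1 := pw_zero A
  have h1 : pw A 1 = A := by
    show A ^ (1 : ZMod 3).val = A
    rw [show (1 : ZMod 3).val = 1 from rfl, pow_one]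
  have h2 : pw A 2 = A ^ 2 := rfl
  have hk' : k = 1 ∨ k = 2 := by
    revert hk
    revert k
    decide
  rcases hk' with rfl | rfl
  · rw [show -((0 : ZMod 3) * 1) = 0 by decide, show -((1 : ZMod 3) * 1) = 2 by decide,
      show -((2 : ZMod 3) * 1) = 1 by decide, h0, h1, h2, ← h]
    abel
  · rw [show -((0 : ZMod 3) * 2) = 0 by decide, show -((1 : ZMod 3) * 2) = 1 by decide,
      show -((2 : ZMod 3) * 2) = 2 by decide, h0, h1, h2, ← h]

theorem ker_pow (h3 : {P : G | (3 : ℕ) • P = 0}.Finite) (k : ℕ) :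
    {P : G | (3 ^ k : ℕ) • P = 0}.Finite := by
  induction k with
  | zero =>
    refine (Set.finite_singleton (0 : G)).subset ?_
    intro P hP
    have h : (3 ^ 0 : ℕ) • P = 0 := hP
    rw [pow_zero, one_smul] at h
    exact h
  | succ k ih =>
    refine (Pool.Agent.Y710.CTE.fin_pre (nsmulAddMonoidHom 3 : G →+ G) h3 ih).subset ?_
    intro P hP
    show (3 ^ k : ℕ) • ((3 : ℕ) • P) = 0
    rw [← mul_smul, ← pow_succ]
    exact hP

/-- the pairing -/
def LL {Γ : Type} {r : ℕ} (c : Γ → Fin r → ZMod 3) (l : Fin r → ZMod 3) (σ : Γ) : ZMod 3 :=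
  ∑ i, l i * c σ i

theorem LL_mul {Γ : Type} [Group Γ] {r : ℕ} {c : Γ → Fin r → ZMod 3}
    (hc : ∀ σ τ i, c (σ * τ) i = c σ i + c τ i) (l : Fin r → ZMod 3) (σ τ : Γ) :
    LL c l (σ * τ) = LL c l σ + LL c l τ := by
  unfold LL
  rw [← Finset.sum_add_distrib]
  refine Finset.sum_congr rfl fun i _ => ?_
  rw [hc, mul_add]

theorem LL_one {Γ : Type} [Group Γ] {r : ℕ} {c : Γ → Fin r → ZMod 3}
    (hc : ∀ i, c 1 i = 0) (l : Fin r → ZMod 3) : LL c l 1 = 0 := by
  unfold LL
  refine Finset.sum_eq_zero fun i _ => ?_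
  rw [hc, mul_zero]

theorem LL_single {Γ : Type} {r : ℕ} (c : Γ → Fin r → ZMod 3) (l : Fin r → ZMod 3) (σ : Γ)
    (i0 : Fin r) (t : ZMod 3) : LL c (l + Pi.single i0 t) σ = LL c l σ + t * c σ i0 := by
  unfold LL
  have h : ∀ i, (l + Pi.single i0 t : Fin r → ZMod 3) i * c σ i =
      l i * c σ i + (if i = i0 then t * c σ i0 else 0) := by
    intro i
    rw [Pi.add_apply, add_mul]
    congr 1
    by_cases hi : i = i0
    · subst hi
      rw [Pi.single_eq_same, if_pos rfl]
    · rw [Pi.single_eq_of_ne hi, if_neg hi, zero_mul]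
  rw [Finset.sum_congr rfl fun i _ => h i, Finset.sum_add_distrib, Finset.sum_ite_eq',
    if_pos (Finset.mem_univ _)]

theorem sum_zero {Γ : Type} [Group Γ] {r : ℕ} {c : Γ → Fin r → ZMod 3} {A : AddMonoid.End G}
    (h3 : A ^ 3 = 1) (hsum : 1 + A + A ^ 2 = 0) {σ : Γ} {i0 : Fin r} (hi0 : c σ i0 ≠ 0) :
    ((3 : ℕ) : AddMonoid.End G) * ∑ l : Fin r → ZMod 3, pw A (-(LL c l σ)) = 0 := by
  have h2 : ∀ t : ZMod 3, ∑ l : Fin r → ZMod 3, pw A (-(LL c l σ)) =
      pw A (-(t * c σ i0)) * ∑ l : Fin r → ZMod 3, pw A (-(LL c l σ)) := by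
    intro t
    rw [Finset.mul_sum]
    refine (Fintype.sum_equiv (Equiv.addRight (Pi.single i0 t)) _ _ fun l => ?_).symm
    rw [← pw_add h3, Equiv.coe_addRight, LL_single]
    congr 1
    abel
  have h3 : ∑ t : ZMod 3, ∑ l : Fin r → ZMod 3, pw A (-(LL c l σ)) =
      (∑ t : ZMod 3, pw A (-(t * c σ i0))) * ∑ l : Fin r → ZMod 3, pw A (-(LL c l σ)) := by
    rw [Finset.sum_mul]
    exact Finset.sum_congr rfl fun t _ => h2 t
  rw [pw_sum hsum _ hi0, zero_mul, Finset.sum_const, Finset.card_univ, ZMod.card,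
    nsmul_eq_mul] at h3
  exact h3

/-- the projections -/
def pr {Γ : Type} [Fintype Γ] {r : ℕ} (c : Γ → Fin r → ZMod 3) (A : AddMonoid.End G)
    (s : Γ → AddMonoid.End G) (l : Fin r → ZMod 3) : AddMonoid.End G :=
  ∑ σ, pw A (-(LL c l σ)) * s σ

theorem pr_eig {Γ : Type} [Group Γ] [Fintype Γ] {r : ℕ} {c : Γ → Fin r → ZMod 3}
    (hc : ∀ σ τ i, c (σ * τ) i = c σ i + c τ i) {A : AddMonoid.End G} (h3 : A ^ 3 = 1)
    {s : Γ → AddMonoid.End G} (hs : ∀ σ τ, s (σ * τ) = s σ * s τ)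
    (hcomm : ∀ σ, Commute (s σ) A) (l : Fin r → ZMod 3) (τ : Γ) :
    s τ * pr c A s l = pw A (LL c l τ) * pr c A s l := by
  have hcp : ∀ σ k, Commute (s σ) (pw A k) := fun σ k => (hcomm σ).pow_right _
  unfold pr
  rw [Finset.mul_sum, Finset.mul_sum]
  refine Fintype.sum_equiv (Equiv.mulLeft τ) _ _ fun σ => ?_
  rw [Equiv.coe_mulLeft, ← mul_assoc, ← mul_assoc, (hcp τ _).eq, mul_assoc, ← hs, ← pw_add h3,
    LL_mul hc]
  congr 2
  abel

theorem pr_sum {Γ : Type} [Group Γ] [Fintype Γ] {r : ℕ} {c : Γ → Fin r → ZMod 3}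
    (hc1 : ∀ i, c 1 i = 0) (hinj : Function.Injective c) {A : AddMonoid.End G} (h3 : A ^ 3 = 1)
    (hsum : 1 + A + A ^ 2 = 0) {s : Γ → AddMonoid.End G} (hs1 : s 1 = 1) :
    ((3 : ℕ) : AddMonoid.End G) * ∑ l, pr c A s l = ((3 ^ (r + 1) : ℕ) : AddMonoid.End G) := by
  unfold pr
  rw [Finset.sum_comm, Finset.mul_sum, Finset.sum_eq_single (1 : Γ)]
  · have h : ∀ l : Fin r → ZMod 3, pw A (-(LL c l 1)) * s 1 = 1 := by
      intro l
      rw [LL_one hc1, neg_zero, pw_zero, hs1, one_mul]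
    rw [Finset.sum_congr rfl fun l _ => h l, Finset.sum_const, Finset.card_univ, Fintype.card_pi,
      Finset.prod_const, Finset.card_univ, Fintype.card_fin, ZMod.card, nsmul_one, ← Nat.cast_mul,
      pow_succ, mul_comm]
  · intro σ _ hσ
    obtain ⟨i0, hi0⟩ : ∃ i, c σ i ≠ 0 := by
      by_contra hcon
      push Not at hcon
      apply hσ
      apply hinj
      funext i
      rw [hcon i, hc1]
    rw [← Finset.sum_mul, ← mul_assoc, sum_zero h3 hsum hi0, zero_mul]
  · intro h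
    exact absurd (Finset.mem_univ _) h

theorem fin_group {Γ : Type} [Group Γ] [Fintype Γ] {r : ℕ} (c : Γ → Fin r → ZMod 3)
    (hc : ∀ σ τ i, c (σ * τ) i = c σ i + c τ i) (hinj : Function.Injective c)
    (A : AddMonoid.End G) (s : Γ → AddMonoid.End G) (hs : ∀ σ τ, s (σ * τ) = s σ * s τ)
    (hs1 : s 1 = 1) (hcomm : ∀ σ, Commute (s σ) A) (hA : ∀ P, A (A P) = -P - A P)
    (hk : {P | P - A P = 0}.Finite)
    (hfix : ∀ l : Fin r → ZMod 3, {P | ∀ τ, s τ P = pw A (LL c l τ) P}.Finite) :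
    Finite G := by
  have hA2 : A * A = -1 - A := by
    ext P
    exact hA P
  have hA3 : A ^ 3 = 1 := by
    rw [pow_succ, pow_two, hA2, sub_mul, hA2, neg_one_mul]
    abel
  have hsum : 1 + A + A ^ 2 = 0 := by
    rw [pow_two, hA2]
    abel
  have hc1 : ∀ i, c 1 i = 0 := by
    intro i
    have h := hc 1 1 i
    rw [mul_one] at h
    exact left_eq_add.1 h
  have h1 := pr_eig hc hA3 hs hcomm
  have h4 := pr_sum hc1 hinj hA3 hsum hs1
  -- finiteness
  let A' : G →+ G := A
  let B : G →+ G := AddMonoidHom.id G - A'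
  have hBk : {P | B P = 0}.Finite := hk
  have hBB : ∀ P, B (B P) = -((3 : ℕ) • A P) := by
    intro P
    show (P - A P) - A (P - A P) = _
    rw [map_sub, hA]
    abel
  have h3k : {P : G | (3 : ℕ) • P = 0}.Finite := by
    refine (Pool.Agent.Y710.CTE.fin_pre B hBk
      (Pool.Agent.Y710.CTE.fin_pre B hBk (Set.finite_singleton 0))).subset ?_
    intro P hP
    show B (B P) = 0
    rw [hBB, ← map_nsmul, show (3 : ℕ) • P = 0 from hP, map_zero, neg_zero]
  have hfin : ∀ l : Fin r → ZMod 3, Finite {P | ∀ τ, s τ P = pw A (LL c l τ) P} := fun l =>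
    Set.finite_coe_iff.2 (hfix l)
  have hR : (Set.range fun Q : ∀ l : Fin r → ZMod 3, {P | ∀ τ, s τ P = pw A (LL c l τ) P} =>
      ∑ l, (3 : ℕ) • (Q l : G)).Finite := Set.finite_range _
  have hpre := Pool.Agent.Y710.CTE.fin_pre (nsmulAddMonoidHom (3 ^ (r + 1)) : G →+ G)
    (ker_pow h3k (r + 1)) hR
  rw [← Set.finite_univ_iff]
  refine hpre.subset ?_
  intro P _
  refine ⟨fun l => ⟨pr c A s l P, fun τ => ?_⟩, ?_⟩
  · exact DFunLike.congr_fun (h1 l τ) P
  · have h5 := DFunLike.congr_fun h4 P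
    show ∑ l, (3 : ℕ) • pr c A s l P = (3 ^ (r + 1) : ℕ) • P
    rw [← Finset.smul_sum]
    have h6 : (∑ l, pr c A s l) P = ∑ l, pr c A s l P :=
      AddMonoidHom.finsetSum_apply _ _ _
    rw [← h6]
    rw [AddMonoid.End.natCast_apply] at h5
    exact h5

end group

section main

variable {K F : Type} [Field K] [CharZero K] [Field F] [CharZero F] [Algebra K F]

theorem pow_val {F : Type} [Field F] {J : F} (h3 : J ^ 3 = 1) (n : ℕ) : J ^ ((n : ZMod 3).val) = J ^ n := by
  rw [ZMod.val_natCast]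
  exact (pow_eq_pow_mod _ h3).symm

/-- multiplication by the root of unity, in the ring of endomorphisms -/
def imE {V : WeierstrassCurve F} {d : F} (hV : IsE V d) {J : F} (hJ : J ^ 2 + J + 1 = 0) :
    AddMonoid.End V.toAffine.Point := im hV hJ

theorem im_pow {V : WeierstrassCurve F} {d : F} (hV : IsE V d) {J : F} (hJ : J ^ 2 + J + 1 = 0)
    (n : ℕ) (x y : F) (h : V.toAffine.Nonsingular x y) : ∃ h' : V.toAffine.Nonsingular (J ^ n * x) y,
    (imE hV hJ ^ n) (Affine.Point.some x y h) = Affine.Point.some (J ^ n * x) y h' := by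
  induction n with
  | zero =>
    have e : x = J ^ 0 * x := by rw [pow_zero, one_mul]
    refine ⟨e ▸ h, ?_⟩
    rw [pow_zero]
    show Affine.Point.some x y h = _
    rw [Affine.Point.some.injEq]
    exact ⟨e, rfl⟩
  | succ n ih =>
    obtain ⟨h', e'⟩ := ih
    have h2 := hV.im_nons hJ h'
    have e : J * (J ^ n * x) = J ^ (n + 1) * x := by ring
    refine ⟨e ▸ h2, ?_⟩
    rw [pow_succ']
    show im hV hJ ((imE hV hJ ^ n) (.some x y h)) = _
    rw [e', im_some, Affine.Point.some.injEq]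
    exact ⟨e, rfl⟩

theorem eig [FiniteDimensional K F] [IsGalois K F] {I : K} (hI : I ^ 3 = 1) {r : ℕ}
    {b : Fin r → K} {θ : Fin r → F} {c : (F ≃ₐ[K] F) → Fin r → ZMod 3} (hb : ∀ i, b i ≠ 0)
    (hθ : ∀ i, θ i ^ 3 = algebraMap K F (b i))
    (hσ : ∀ σ i, σ (θ i) = algebraMap K F (I ^ (c σ i).val) * θ i) (l : Fin r → ZMod 3) (x : F)
    (hx : ∀ τ : F ≃ₐ[K] F, τ x = algebraMap K F I ^ (LL c l τ).val * x) :
    ∃ x0 : K, x = algebraMap K F x0 * ∏ i, θ i ^ (l i).val := by
  have hθ0 : ∀ i, θ i ≠ 0 := by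
    intro i h
    have h1 := hθ i
    rw [h, zero_pow (by norm_num)] at h1
    exact (map_ne_zero (algebraMap K F)).2 (hb i) h1.symm
  have hΘ : ∏ i, θ i ^ (l i).val ≠ 0 := Finset.prod_ne_zero_iff.2 fun i _ => pow_ne_zero _ (hθ0 i)
  have hJ3 : (algebraMap K F I) ^ 3 = 1 := by rw [← map_pow, hI, map_one]
  have hI0 : I ≠ 0 := by
    rintro rfl
    rw [zero_pow (by norm_num)] at hI
    exact zero_ne_one hI
  have hJ0 : algebraMap K F I ≠ 0 := (map_ne_zero _).2 hI0
  have hτ : ∀ τ : F ≃ₐ[K] F, τ (∏ i, θ i ^ (l i).val) =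
      algebraMap K F I ^ (LL c l τ).val * ∏ i, θ i ^ (l i).val := by
    intro τ
    have h1 : LL c l τ = ((∑ i, (c τ i).val * (l i).val : ℕ) : ZMod 3) := by
      unfold LL
      push_cast
      refine Finset.sum_congr rfl fun i _ => ?_
      rw [ZMod.natCast_zmod_val, ZMod.natCast_zmod_val, mul_comm]
    rw [h1, pow_val hJ3, map_prod, ← Finset.prod_pow_eq_pow_sum, ← Finset.prod_mul_distrib]
    refine Finset.prod_congr rfl fun i _ => ?_
    rw [map_pow, hσ, mul_pow, map_pow, ← pow_mul]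
  obtain ⟨x0, hx0⟩ := (IsGalois.mem_range_algebraMap_iff_fixed (F := K) (E := F)
    (x / ∏ i, θ i ^ (l i).val)).2 (fun τ => by
      rw [map_div₀, hx τ, hτ τ, mul_div_mul_left _ _ (pow_ne_zero _ hJ0)])
  refine ⟨x0, ?_⟩
  rw [hx0, div_mul_cancel₀ _ hΘ]

end main

end Pool.Agent.H451.KF.PTS

namespace Pool.Agent.H451.KF

open WeierstrassCurve
open Pool.Agent.H451.CubT (E)
open PTS
open scoped Classical

theorem t_PTS : S_PTS := by
  intro K F _ _ _ _ _ _ I hI r b θ c hb hθ hc hinj hσ D hD hfin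
  have hF0 : CharZero F := charZero_of_injective_algebraMap (algebraMap K F).injective
  have hI3 : I ^ 3 = 1 := by linear_combination (I - 1) * hI
  obtain ⟨J, hJ⟩ : ∃ J : F, J = algebraMap K F I := ⟨_, rfl⟩
  have hJ2 : J ^ 2 + J + 1 = 0 := by
    rw [hJ, ← map_pow, ← map_one (algebraMap K F), ← map_add, ← map_add, hI, map_zero]
  set V : WeierstrassCurve F := Affine.baseChange (E D).toAffine F with hV
  have hVE : V = E (algebraMap K F D) := by
    rw [hV]
    ext <;> simp [E, Affine.baseChange]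
  have hDF : algebraMap K F D ≠ 0 := (map_ne_zero _).2 hD
  have hisE : IsE V (algebraMap K F D) := by
    rw [hVE]
    exact ⟨rfl, rfl, rfl, rfl, rfl, hDF⟩
  rw [← hVE]
  let A : AddMonoid.End V.toAffine.Point := imE hisE hJ2
  let s : (F ≃ₐ[K] F) → AddMonoid.End V.toAffine.Point := fun σ =>
    Affine.Point.map (W' := (E D).toAffine) (σ : F →ₐ[K] F)
  have hs_some : ∀ (σ : F ≃ₐ[K] F) x y (h : V.toAffine.Nonsingular x y),
      ∃ h' : V.toAffine.Nonsingular (σ x) (σ y),
      s σ (.some x y h) = .some (σ x) (σ y) h' := fun σ x y h => ⟨_, rfl⟩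
  have hs_zero : ∀ σ : F ≃ₐ[K] F, s σ 0 = 0 := fun σ => map_zero _
  have hA_some : ∀ x y (h : V.toAffine.Nonsingular x y), ∃ h' : V.toAffine.Nonsingular (J * x) y,
      A (.some x y h) = .some (J * x) y h' := fun x y h => ⟨_, rfl⟩
  refine PTS.fin_group c hc hinj A s ?_ ?_ ?_ (im_im hisE hJ2) ?_ ?_
  · intro σ τ
    ext P
    rcases P with _ | ⟨x, y, h⟩
    · rfl
    · obtain ⟨h1, e1⟩ := hs_some (σ * τ) x y h
      obtain ⟨h2, e2⟩ := hs_some τ x y h
      obtain ⟨h3, e3⟩ := hs_some σ _ _ h2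
      show s (σ * τ) (.some x y h) = s σ (s τ (.some x y h))
      rw [e1, e2, e3, Affine.Point.some.injEq]
      exact ⟨rfl, rfl⟩
  · ext P
    rcases P with _ | ⟨x, y, h⟩
    · rfl
    · obtain ⟨h1, e1⟩ := hs_some 1 x y h
      show s 1 (.some x y h) = .some x y h
      rw [e1, Affine.Point.some.injEq]
      exact ⟨rfl, rfl⟩
  · intro σ
    show s σ * A = A * s σ
    ext P
    rcases P with _ | ⟨x, y, h⟩
    · rfl
    · obtain ⟨h1, e1⟩ := hs_some σ x y h
      obtain ⟨h2, e2⟩ := hA_some x y h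
      obtain ⟨h3, e3⟩ := hs_some σ _ _ h2
      obtain ⟨h4, e4⟩ := hA_some _ _ h1
      show s σ (A (.some x y h)) = A (s σ (.some x y h))
      rw [e2, e3, e1, e4, Affine.Point.some.injEq]
      refine ⟨?_, rfl⟩
      rw [map_mul, hJ, σ.commutes]
  · refine Set.Finite.subset (s := {0, .some 0 0 (T0_nons hisE), .some 0 _ (T1_nons hisE)})
      (by simp) ?_
    intro P hP
    have := ker_im hisE hJ2 (P := P) hP
    simpa using this
  · intro l
    have hBl : ∏ i, b i ^ (l i).val ≠ 0 := Finset.prod_ne_zero_iff.2 fun i _ => pow_ne_zero _ (hb i)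
    have hBF : algebraMap K F (∏ i, b i ^ (l i).val) ≠ 0 := (map_ne_zero _).2 hBl
    have hΘ3 : (∏ i, θ i ^ (l i).val) ^ 3 = algebraMap K F (∏ i, b i ^ (l i).val) := by
      rw [map_prod, ← Finset.prod_pow]
      refine Finset.prod_congr rfl fun i _ => ?_
      rw [map_pow, ← hθ, ← pow_mul, ← pow_mul, mul_comm]
    refine Pool.Agent.Y710.CTE.fin_of (d := D * ∏ i, b i ^ (l i).val) (mul_ne_zero hD hBl)
      (hfin l) ((∏ i, θ i ^ (l i).val) / algebraMap K F (∏ i, b i ^ (l i).val))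
      (1 / algebraMap K F (∏ i, b i ^ (l i).val)) _ ?_
    intro x y hn hP
    have hxy : ∀ τ : F ≃ₐ[K] F, τ x = algebraMap K F I ^ (LL c l τ).val * x ∧ τ y = y := by
      intro τ
      have h1 := hP τ
      obtain ⟨h2, e2⟩ := hs_some τ x y hn
      obtain ⟨h3, e3⟩ := im_pow hisE hJ2 (LL c l τ).val x y hn
      have h4 : (Affine.Point.some (τ x) (τ y) h2 : V.toAffine.Point) =
          .some (J ^ (LL c l τ).val * x) y h3 := by
        rw [← e2, ← e3]
        exact h1
      rw [Affine.Point.some.injEq, hJ] at h4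
      exact h4
    obtain ⟨x0, hx0⟩ := eig hI3 hb hθ hσ l x fun τ => (hxy τ).1
    obtain ⟨y0, hy0⟩ := (IsGalois.mem_range_algebraMap_iff_fixed (F := K) (E := F) y).2
      fun τ => (hxy τ).2
    have h5 := (hisE.eqn x y).1 hn.1
    refine ⟨(∏ i, b i ^ (l i).val) * x0, (∏ i, b i ^ (l i).val) * y0, ?_, ?_, ?_⟩
    · apply (algebraMap K F).injective
      rw [hx0, ← hy0, mul_pow, hΘ3] at h5
      simp only [map_add, map_mul, map_pow] at h5 ⊢
      linear_combination (algebraMap K F (∏ i, b i ^ (l i).val)) ^ 2 * h5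
    · rw [hx0, map_mul]
      field_simp
    · rw [← hy0, map_mul]
      field_simp

end Pool.Agent.H451.KF
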