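import Mathlib
import Pool.Agent.H451.KF.Asm3
import Pool.Agent.H451.BB.Fin2

/-!
# The fixed Kummer extensions: translation
-/

set_option autoImplicit false
set_option linter.unusedVariables false
set_option linter.unusedSectionVars false

namespace Pool.Agent.H451.KF

open NumberField IsDedekindDomain
open scoped Classical

open Pool.Agent.Y692.QS (Ei w toC nr)
open Pool.Agent.Y715.T.RecG (Pq)
open Pool.Agent.Y703.CT (ClsE Dt Ker pD)
open Pool.Agent.Y696.CTK (ClsK)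
open Pool.Agent.Y715.T.Rec (cs nn)
open Pool.Agent.H451.BB
open Pool.Agent.H451.JL
open Pool.Agent.H451.CubT
open Pool.Agent.Y699.E (nrm nrm_cast nrm_mul nrm_one PD mem_PD PS pq_cop norm_le_of_dvd prm_mul)
open Pool.Agent.Y703.XK (SS c9)

section wt
variable {r : ℕ}

/-- the exponent of `u` in `β^l` -/
def eF (e : Fin r → Ei → ℕ) (l : Fin r → ZMod 3) (u : Ei) : ℕ := ∑ i, (l i).val * e i u

/-- the weights -/
noncomputable def wF (e : Fin r → Ei → ℕ) (U : Finset Ei) (l : Fin r → ZMod 3) (ρ : Ei) : F :=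
  if ρ ∈ U then (eF e l ρ : F) else 1

theorem factF {U S : Finset Ei} {e : Fin r → Ei → ℕ} (hU : ∀ π ∈ U, Pq π) (hd : Disjoint S U)
    (l : Fin r → ZMod 3) :
    (∏ π ∈ S, π) * ∏ i, (∏ u ∈ U, u ^ (e i u)) ^ (l i).val =
      (∏ u ∈ U, u ^ (eF e l u / 3)) ^ 3 * eD 1 (wF e U l) (S ∪ U) := by
  have h1 : eD 1 (wF e U l) (S ∪ U) = ∏ ρ ∈ S ∪ U, ρ ^ (wF e U l ρ).val := by
    unfold eD sw
    rw [Finset.prod_filter]
    refine Finset.prod_congr rfl fun π _ => ?_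
    by_cases h : wF e U l π = 0
    · rw [if_neg (not_not.2 h), h, ZMod.val_zero, pow_zero]
    · rw [if_pos h, one_mul]
  rw [h1, Finset.prod_union hd]
  have h2 : ∏ ρ ∈ S, ρ ^ (wF e U l ρ).val = ∏ π ∈ S, π := by
    refine Finset.prod_congr rfl fun ρ hρ => ?_
    have h3 : ρ ∉ U := Finset.disjoint_left.1 hd hρ
    unfold wF
    rw [if_neg h3, show ZMod.val (1 : F) = 1 from rfl, pow_one]
  have h3 : ∏ i, (∏ u ∈ U, u ^ (e i u)) ^ (l i).val = ∏ u ∈ U, u ^ eF e l u := by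
    have h4 : ∀ i, (∏ u ∈ U, u ^ (e i u)) ^ (l i).val = ∏ u ∈ U, u ^ ((l i).val * e i u) := by
      intro i
      rw [← Finset.prod_pow]
      exact Finset.prod_congr rfl fun u _ => by rw [← pow_mul, mul_comm]
    rw [Finset.prod_congr rfl fun i _ => h4 i, Finset.prod_comm]
    refine Finset.prod_congr rfl fun u _ => ?_
    rw [Finset.prod_pow_eq_pow_sum]
    rfl
  have h5 : ∏ u ∈ U, u ^ eF e l u =
      (∏ u ∈ U, u ^ (eF e l u / 3)) ^ 3 * ∏ u ∈ U, u ^ (wF e U l u).val := by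
    rw [← Finset.prod_pow, ← Finset.prod_mul_distrib]
    refine Finset.prod_congr rfl fun u hu => ?_
    have h6 : (wF e U l u).val = eF e l u % 3 := by
      unfold wF
      rw [if_pos hu]
      exact ZMod.val_natCast 3 _
    rw [h6, ← pow_mul, ← pow_add]
    congr 1
    omega
  rw [h2, h3, h5]
  ring

end wt

/-- the admissible `D` for fixed `β` -/
def AdmF {K : Type} [Field K] [NumberField K] {r : ℕ} (β : Fin r → 𝓞 K) (D : 𝓞 K) : Prop :=
  Cls D ∧ ∀ i, IsCoprime D (β i)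

section K
variable {K : Type} [Field K] [NumberField K] [IsCyclotomicExtension {3} ℚ K] (j : Ei ≃+* 𝓞 K)

/-- the residues -/
def R47 : Set ℕ := {r | ¬ r % 9 = 1}

theorem admF_iff (hj : ∀ z : Ei, Algebra.norm ℤ (j z) = nr z) {r : ℕ} (a : Fin r → 𝓞 K)
    {U : Finset Ei} {e : Fin r → Ei → ℕ} (hU : ∀ π ∈ U, Pq π)
    (hU1 : ∀ π ∈ U, ∃ i, π ∣ j.symm (a i)) (hfac : ∀ i, j.symm (a i) = ∏ u ∈ U, u ^ (e i u))
    (D : Ei) : (ClsE D ∧ CondJ U R47 (PD D)) ↔ AdmF a (j D) := by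
  unfold AdmF
  have h1 : Cls (j D) ↔ ClsE D := Pool.Agent.Y696.XK.cls_iff j hj D
  rw [h1]
  refine and_congr_right fun hD => ?_
  have hPS : PS D := ⟨hD.1, hD.2.1⟩
  have hpq : ∀ π ∈ PD D, Pq π := fun π hπ => ((mem_PD hPS.ne).1 hπ).1
  have hprod : ∏ π ∈ PD D, π = D := hPS.prod
  unfold CondJ
  rw [and_iff_left]
  · rw [← cop_iff (fun i => j.symm (a i)) hU hU1 hfac hpq, hprod]
    refine forall_congr' fun i => ?_
    constructor
    · intro h
      have h2 := h.map (j : Ei →+* 𝓞 K)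
      have e1 : (j : Ei →+* 𝓞 K) (j.symm (a i)) = a i := j.apply_symm_apply (a i)
      rw [e1] at h2
      exact h2
    · intro h
      have h2 := h.map (j.symm : 𝓞 K →+* Ei)
      have e1 : (j.symm : 𝓞 K →+* Ei) (j D) = D := j.symm_apply_apply D
      rw [e1] at h2
      exact h2
  · have h3 : (∏ π ∈ PD D, nrm π) = nrm D := by
      rw [← Pool.Agent.Y550.XK.NS.nrm_prod, hprod]
    rw [h3]
    show ¬ (nrm D % 9) % 9 = 1
    rw [Nat.mod_mod, ← Pool.Agent.Y550.XK.NS.mod_iff]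
    exact hD.2.2

theorem fix_of (hj : ∀ z : Ei, Algebra.norm ℤ (j z) = nr z) (hPTS : S_PTS) (hLCH : S_LCH) {r : ℕ}
    (a : Fin r → 𝓞 K) (h9 : ∀ i, (9 : ℤ) ∣ Algebra.norm ℤ (a i) - 1)
    {U : Finset Ei} {e : Fin r → Ei → ℕ}
    (hU : ∀ π ∈ U, Pq π) (hfac : ∀ i, j.symm (a i) = ∏ u ∈ U, u ^ (e i u)) {S : Finset Ei}
    (hS : ∀ π ∈ S, Pq π) (hd : Disjoint S U) (hn9 : ¬ (9 : ℤ) ∣ nr (∏ π ∈ S, π) - 1)
    (hG : ∀ l : Fin r → ZMod 3, nW (wF e U l) (S ∪ U) = 3)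
    (L : Type) [Field L] [NumberField L] [Algebra K L] (hL : IsKummer a L) :
    RankZero (j (∏ π ∈ S, π)) a L ∧ EquivariantRankZero (j (∏ π ∈ S, π)) a L := by
  have hD0 : (∏ π ∈ S, π) ≠ 0 := Finset.prod_ne_zero_iff.2 fun π hπ => (hS π hπ).prime.ne_zero
  have hU0 : ∀ f : Ei → ℕ, ∏ u ∈ U, u ^ (f u) ≠ 0 := fun f =>
    Finset.prod_ne_zero_iff.2 fun u hu => pow_ne_zero _ (hU u hu).prime.ne_zero
  have ha : (fun i => j (∏ u ∈ U, u ^ (e i u))) = a := by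
    funext i
    rw [← hfac i, RingEquiv.apply_symm_apply]
  have hnrm : ∀ i, nrm (∏ u ∈ U, u ^ (e i u)) % 9 = 1 := by
    intro i
    rw [← hfac i, ← Pool.Agent.Y550.XK.NS.mod_iff, ← hj, RingEquiv.apply_symm_apply]
    exact h9 i
  rw [← ha] at hL ⊢
  refine kum_all j hPTS hLCH hD0 (fun i => hU0 _) (fun l => ?_) L hL
  have hf := factF (e := e) hU hd l
  have hc9 : nr (∏ u ∈ U, u ^ (eF e l u / 3)) % 3 = 1 := by
    apply nr_prm
    have h2 : ∀ s ⊆ U, (3 : Ei) ∣ (∏ u ∈ s, u ^ (eF e l u / 3)) - 1 := by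
      intro s
      induction s using Finset.induction_on with
      | empty => intro _; rw [Finset.prod_empty, sub_self]; exact dvd_zero _
      | insert i s hi ih =>
        intro hs
        rw [Finset.prod_insert hi]
        have e1 : i ^ (eF e l i / 3) * ∏ x ∈ s, x ^ (eF e l x / 3) - 1 =
          (i ^ (eF e l i / 3) - 1) * ∏ x ∈ s, x ^ (eF e l x / 3) +
            (∏ x ∈ s, x ^ (eF e l x / 3) - 1) := by ring
        rw [e1]
        refine dvd_add (Dvd.dvd.mul_right ?_ _)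
          (ih fun k hk => hs (Finset.mem_insert_of_mem hk))
        have h3 := sub_dvd_pow_sub_pow i 1 (eF e l i / 3)
        rw [one_pow] at h3
        exact ((hU i (hs (Finset.mem_insert_self i s))).three).trans h3
    exact h2 U (Finset.Subset.refl U)
  have hn : ¬ (9 : ℤ) ∣ nr (eD 1 (wF e U l) (S ∪ U)) - 1 := by
    intro h9'
    apply hn9
    have h1 : nr ((∏ π ∈ S, π) * ∏ i, (∏ u ∈ U, u ^ (e i u)) ^ (l i).val) =
        nr (∏ u ∈ U, u ^ (eF e l u / 3)) ^ 3 * nr (eD 1 (wF e U l) (S ∪ U)) := by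
      rw [hf, ← hj, ← hj, ← hj, map_mul, map_pow, map_mul, map_pow]
    have h2 : nr (∏ u ∈ U, u ^ (eF e l u / 3)) ^ 3 % 9 = 1 := cube_mod hc9
    have h3 : nr ((∏ π ∈ S, π) * ∏ i, (∏ u ∈ U, u ^ (e i u)) ^ (l i).val) % 9 = 1 := by
      rw [h1, Int.mul_emod, h2]
      omega
    have h4 : nrm (∏ i, (∏ u ∈ U, u ^ (e i u)) ^ (l i).val) % 9 = 1 := by
      have h5 : ∀ s : Finset (Fin r), nrm (∏ i ∈ s, (∏ u ∈ U, u ^ (e i u)) ^ (l i).val) % 9 = 1 := by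
        intro s
        induction s using Finset.induction_on with
        | empty => rw [Finset.prod_empty, nrm_one]
        | insert i s hi ih =>
          rw [Finset.prod_insert hi, nrm_mul, Nat.mul_mod, ih, nrm_pow', Nat.pow_mod, hnrm i,
            one_pow]
          norm_num
      exact h5 _
    rw [Pool.Agent.Y550.XK.NS.mod_iff]
    have h6 : nrm ((∏ π ∈ S, π) * ∏ i, (∏ u ∈ U, u ^ (e i u)) ^ (l i).val) % 9 = 1 := by
      rw [← Pool.Agent.Y550.XK.NS.mod_iff]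
      omega
    rw [nrm_mul, Nat.mul_mod, h4, mul_one, Nat.mod_mod] at h6
    exact h6
  rcases t_BASE (S ∪ U) (wF e U l) 1 (fun π hπ => (Finset.mem_union.1 hπ).elim (hS π) (hU π))
    one_ne_zero (hG l) hn with h | ⟨n, π, e', h1, h2, h3, h4⟩
  · exfalso
    apply hn
    rw [h]
    have : nr (1 : Ei) = 1 := by decide
    rw [this, sub_self]
    exact dvd_zero _
  · exact ⟨n, π, e', _, h1, h2, h3, hU0 _, by rw [← h4]; exact hf⟩

end K

/-- the theorem for fixed fields -/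
theorem finalF (hPTS : S_PTS) (hLCH : S_LCH) (K : Type) [Field K] [NumberField K]
    [IsCyclotomicExtension {3} ℚ K] (r : ℕ)
    (a : Fin r → 𝓞 K) (ha : ∀ i, (3 : 𝓞 K) ∣ a i - 1)
    (h9 : ∀ i, (9 : ℤ) ∣ Algebra.norm ℤ (a i) - 1) :
    (∃ c : ℝ, 0 < c ∧ ∃ X₀ : ℕ, ∀ X : ℕ, X₀ ≤ X →
      c * X ≤ ({D : 𝓞 K | Algebra.norm ℤ D ≤ X ∧ AdmF a D}.ncard : ℝ)) ∧
    ∃ X₀ : ℕ, ∀ X : ℕ, X₀ ≤ X →
      0.639 ^ (3 ^ r) * ({D : 𝓞 K | Algebra.norm ℤ D ≤ X ∧ AdmF a D}.ncard : ℝ) ≤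
        ({D : 𝓞 K | Algebra.norm ℤ D ≤ X ∧ AdmF a D ∧
          ∀ (L : Type) [Field L] [NumberField L] [Algebra K L], IsKummer a L →
            RankZero D a L ∧ EquivariantRankZero D a L}.ncard : ℝ) := by
  obtain ⟨⟨j, hj⟩, -⟩ := Pool.Agent.Y455.CTK.jex K
  have ha' : ∀ i, (3 : Ei) ∣ j.symm (a i) - 1 := fun i =>
    Pool.Agent.Y696.CTK.three_dvd_symm j (ha i)
  obtain ⟨U, e, hU, hU1, hfac⟩ := t_PRM r (fun i => j.symm (a i)) ha'
  have hadm := admF_iff j hj a hU hU1 hfac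
  have hcount : ∀ X : ℕ, {D : 𝓞 K | Algebra.norm ℤ D ≤ X ∧ AdmF a D}.ncard =
      ((SS X).filter (CondJ U R47)).card := by
    intro X
    rw [Pool.Agent.Y696.XK.img_ncard j hj X (fun D => ClsE D ∧ CondJ U R47 (PD D)) (AdmF a) hadm]
    exact Pool.Agent.Y550.XK.NS.card_eq X (CondJ U R47)
  have h47 : 4 ∈ R47 ∨ 7 ∈ R47 := Or.inl (by show ¬ 4 % 9 = 1; norm_num)
  have hlow : ∃ c : ℝ, 0 < c ∧ ∃ X₀ : ℕ, ∀ X : ℕ, X₀ ≤ X →
      c * X ≤ ({D : 𝓞 K | Algebra.norm ℤ D ≤ X ∧ AdmF a D}.ncard : ℝ) := by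
    obtain ⟨c, X₀, hc, hX⟩ := t_LOWJ U R47 hU h47
    refine ⟨c, hc, X₀, fun X h => ?_⟩
    rw [hcount X]
    exact hX X h
  refine ⟨hlow, ?_⟩
  -- the weights
  obtain ⟨W, hW⟩ : ∃ W : Finset (Ei → F), W =
      (Finset.univ : Finset (Fin r → ZMod 3)).image (fun l => wF e U l) := ⟨_, rfl⟩
  obtain ⟨k, hk⟩ : ∃ k : ℕ, k = W.card := ⟨_, rfl⟩
  have hkC : k ≤ 3 ^ r := by
    rw [hk, hW]
    refine Finset.card_image_le.trans ?_
    rw [Finset.card_univ, Fintype.card_fun, ZMod.card, Fintype.card_fin]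
  obtain ⟨φ⟩ : Nonempty (Fin k ≃ W) := ⟨(Finset.equivFinOfCardEq hk.symm).symm⟩
  obtain ⟨ww, hww⟩ : ∃ ww : Fin k → Ei → F, ww = fun i => (φ i : Ei → F) := ⟨_, rfl⟩
  have hmemW : ∀ i, ∃ l, wF e U l = ww i := by
    intro i
    have h0 : ∀ g : Ei → F, g ∈ W → ∃ l, wF e U l = g := by
      intro g hg
      rw [hW, Finset.mem_image] at hg
      obtain ⟨T, -, hT⟩ := hg
      exact ⟨T, hT⟩
    obtain ⟨T, hT⟩ := h0 _ (φ i).2
    exact ⟨T, by rw [hT, hww]⟩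
  have hw1 : ∀ i, ∀ π, π ∉ U → ww i π = 1 := by
    intro i π hπ
    obtain ⟨T, hT⟩ := hmemW i
    rw [← hT]
    unfold wF
    rw [if_neg hπ]
  have hw2 : ∀ i i', i ≠ i' → ∃ u ∈ U, ww i u ≠ ww i' u := by
    intro i i' hii
    by_contra hc
    push Not at hc
    apply hii
    apply φ.injective
    apply Subtype.ext
    have h1 : ww i = ww i' := by
      funext u
      by_cases hu : u ∈ U
      · exact hc u hu
      · rw [hw1 i u hu, hw1 i' u hu]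
    rw [hww] at h1
    exact h1
  have hlim := t_DQJ' k ww U R47 hU hw1 hw2 h47
  obtain ⟨-, c1, c2, c3, -⟩ := Pool.Agent.Y703.XL.t_C9
  have hlt : (0.639 : ℝ) ^ (3 ^ r) < c9 ^ k := by
    refine lt_of_lt_of_le (pow_lt_pow_left₀ c3 (by norm_num) (by positivity)) ?_
    exact pow_le_pow_of_le_one c1.le c2.le hkC
  have hev := hlim.eventually (lt_mem_nhds hlt)
  obtain ⟨X₁, hX1⟩ := Filter.eventually_atTop.1 hev
  obtain ⟨c, hc, X₀, hX0⟩ := hlow
  refine ⟨max X₀ (max X₁ 1), fun X hXX => ?_⟩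
  have a1 : X₀ ≤ X := le_trans (le_max_left _ _) hXX
  have a2 : X₁ ≤ X := le_trans (le_trans (le_max_left _ _) (le_max_right _ _)) hXX
  have a3 : 1 ≤ X := le_trans (le_trans (le_max_right _ _) (le_max_right _ _)) hXX
  have hpos : (0 : ℝ) < ({D : 𝓞 K | Algebra.norm ℤ D ≤ X ∧ AdmF a D}.ncard : ℝ) := by
    refine lt_of_lt_of_le ?_ (hX0 X a1)
    have : (1 : ℝ) ≤ X := by exact_mod_cast a3
    positivity
  have hfin : {D : 𝓞 K | Algebra.norm ℤ D ≤ X ∧ AdmF a D}.Finite :=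
    Set.finite_of_ncard_pos (by exact_mod_cast hpos)
  have h7 := hX1 X a2
  rw [← hcount X, lt_div_iff₀ hpos] at h7
  refine h7.le.trans ?_
  have h8 : (((SS X).filter fun S => CondJ U R47 S ∧ GW ww (S ∪ U)).card : ℝ) =
      ({D : 𝓞 K | Algebra.norm ℤ D ≤ X ∧ (AdmF a D ∧ GW ww (PD (j.symm D) ∪ U))}.ncard : ℝ) := by
    rw [Pool.Agent.Y696.XK.img_ncard j hj X
      (fun D => ClsE D ∧ (CondJ U R47 (PD D) ∧ GW ww (PD D ∪ U)))
      (fun D => AdmF a D ∧ GW ww (PD (j.symm D) ∪ U)) fun D => by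
        rw [RingEquiv.symm_apply_apply, ← hadm D]
        tauto]
    rw [Pool.Agent.Y550.XK.NS.card_eq X (fun S => CondJ U R47 S ∧ GW ww (S ∪ U))]
    congr
  rw [h8]
  have h9 : {D : 𝓞 K | Algebra.norm ℤ D ≤ X ∧ (AdmF a D ∧ GW ww (PD (j.symm D) ∪ U))} ⊆
      {D : 𝓞 K | Algebra.norm ℤ D ≤ X ∧ AdmF a D ∧
        ∀ (L : Type) [Field L] [NumberField L] [Algebra K L], IsKummer a L →
          RankZero D a L ∧ EquivariantRankZero D a L} := by
    rintro D ⟨b1, b2, b3⟩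
    refine ⟨b1, b2, fun L _ _ _ hL => ?_⟩
    obtain ⟨z, rfl⟩ := j.surjective D
    rw [RingEquiv.symm_apply_apply] at b3
    obtain ⟨hz, g1, g2⟩ := (hadm z).2 b2
    have hPS : PS z := ⟨hz.1, hz.2.1⟩
    have hpq : ∀ π ∈ PD z, Pq π := fun π hπ => ((mem_PD hPS.ne).1 hπ).1
    have hprod : ∏ π ∈ PD z, π = z := hPS.prod
    have h10 := fix_of j hj hPTS hLCH a h9 hU hfac hpq g1 (by rw [hprod]; exact hz.2.2) (by
      intro T
      have h11 : wF e U T ∈ W := by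
        rw [hW, Finset.mem_image]
        exact ⟨T, Finset.mem_univ T, rfl⟩
      obtain ⟨i, hi⟩ := φ.surjective ⟨_, h11⟩
      have h12 := b3 i
      have h13 : ww i = wF e U T := by
        rw [hww]
        show ((φ i : W) : Ei → F) = _
        rw [hi]
      rw [h13] at h12
      exact h12) L hL
    rw [hprod] at h10
    exact h10
  exact_mod_cast Set.ncard_le_ncard h9 (hfin.subset fun D hD => ⟨hD.1, hD.2.1⟩)

end Pool.Agent.H451.KF
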